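import Pool.Agent.Helper89.GP.Defs

/-!
# Two comparisons halve the number of linear extensions: basic lemmas
-/

namespace Pool.Agent.Helper89.GP

open Finset

variable {n : ℕ} {R : Fin n → Fin n → Prop}

theorem mem_LX {σ : Equiv.Perm (Fin n)} : σ ∈ LX R ↔ ∀ a b, R a b → σ a < σ b := by
  unfold LX; simp

theorem po_lt {σ : Equiv.Perm (Fin n)} {a b : Fin n} : po σ a < po σ b ↔ σ a < σ b := Iff.rfl

theorem po_inj {σ : Equiv.Perm (Fin n)} {a b : Fin n} : po σ a = po σ b ↔ a = b := by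
  constructor
  · intro h
    exact σ.injective (Fin.ext h)
  · rintro rfl; rfl

theorem po_lt_n (σ : Equiv.Perm (Fin n)) (a : Fin n) : po σ a < n := (σ a).isLt

theorem po_lt_or {σ : Equiv.Perm (Fin n)} {a b : Fin n} (h : a ≠ b) :
    po σ a < po σ b ∨ po σ b < po σ a := by
  rcases lt_trichotomy (po σ a) (po σ b) with h1 | h1 | h1
  · exact Or.inl h1
  · exact absurd (po_inj.1 h1) h
  · exact Or.inr h1

theorem Pr_def (p : Equiv.Perm (Fin n) → Prop) [DecidablePred p] :
    Pr R p = (((LX R).filter p).card : ℝ) / (LX R).card := by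
  unfold Pr
  congr

theorem Pr_eq_Ex (p : Equiv.Perm (Fin n) → Prop) [DecidablePred p] :
    Pr R p = Ex R fun σ => if p σ then 1 else 0 := by
  rw [Pr_def]
  unfold Ex
  rw [Finset.sum_boole]

theorem Pr_nonneg (p : Equiv.Perm (Fin n) → Prop) : 0 ≤ Pr R p := by
  classical
  rw [Pr_def]; positivity

theorem Pr_mono {p q : Equiv.Perm (Fin n) → Prop} (h : ∀ σ ∈ LX R, p σ → q σ) :
    Pr R p ≤ Pr R q := by
  classical
  rw [Pr_def, Pr_def]
  apply div_le_div_of_nonneg_right _ (Nat.cast_nonneg _)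
  exact_mod_cast Finset.card_le_card fun σ hσ => by
    rw [mem_filter] at hσ ⊢
    exact ⟨hσ.1, h σ hσ.1 hσ.2⟩

theorem Pr_congr {p q : Equiv.Perm (Fin n) → Prop} (h : ∀ σ ∈ LX R, p σ ↔ q σ) :
    Pr R p = Pr R q :=
  le_antisymm (Pr_mono fun σ hσ => (h σ hσ).1) (Pr_mono fun σ hσ => (h σ hσ).2)

theorem Pr_split (p q : Equiv.Perm (Fin n) → Prop) :
    Pr R p = Pr R (fun σ => p σ ∧ q σ) + Pr R (fun σ => p σ ∧ ¬ q σ) := by
  classical
  rw [Pr_def, Pr_def, Pr_def, ← add_div]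
  have h0 : (LX R).filter p = (LX R).filter (fun σ => p σ ∧ q σ) ∪
      (LX R).filter (fun σ => p σ ∧ ¬ q σ) := by
    ext σ
    simp only [mem_filter, mem_union]
    tauto
  have h1 : Disjoint ((LX R).filter (fun σ => p σ ∧ q σ))
      ((LX R).filter (fun σ => p σ ∧ ¬ q σ)) := by
    rw [Finset.disjoint_left]
    intro σ h1 h2
    rw [mem_filter] at h1 h2
    exact h2.2.2 h1.2.2
  rw [h0, Finset.card_union_of_disjoint h1, Nat.cast_add]

theorem card_pos_real (h : (LX R).Nonempty) : (0 : ℝ) < (LX R).card := by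
  exact_mod_cast h.card_pos

theorem Pr_true (h : (LX R).Nonempty) : Pr R (fun _ => True) = 1 := by
  classical
  rw [Pr_def]
  simp only [Finset.filter_true]
  exact div_self (card_pos_real h).ne'

theorem Pr_le_one (p : Equiv.Perm (Fin n) → Prop) : Pr R p ≤ 1 := by
  classical
  rcases (LX R).eq_empty_or_nonempty with h | h
  · rw [Pr_def, h]; simp
  · rw [← Pr_true h]
    exact Pr_mono fun _ _ _ => trivial

theorem Pr_pos {p : Equiv.Perm (Fin n) → Prop} {σ : Equiv.Perm (Fin n)} (h : σ ∈ LX R)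
    (hp : p σ) : 0 < Pr R p := by
  classical
  rw [Pr_def]
  have h1 : 0 < ((LX R).filter p).card := Finset.card_pos.2 ⟨σ, by simp [h, hp]⟩
  have h2 : 0 < (LX R).card := Finset.card_pos.2 ⟨σ, h⟩
  positivity

theorem Pr_eq_zero {p : Equiv.Perm (Fin n) → Prop} (h : ∀ σ ∈ LX R, ¬ p σ) : Pr R p = 0 := by
  classical
  rw [Pr_def]
  have h1 : (LX R).filter p = ∅ := by
    rw [Finset.filter_eq_empty_iff]
    exact fun σ hσ => h σ hσ
  rw [h1]; simp

theorem exists_of_Pr_pos {p : Equiv.Perm (Fin n) → Prop} (h : 0 < Pr R p) :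
    ∃ σ ∈ LX R, p σ := by
  by_contra hcon
  push Not at hcon
  rw [Pr_eq_zero hcon] at h
  exact lt_irrefl _ h

/-- Disjoint union. -/
theorem Pr_add {p q s : Equiv.Perm (Fin n) → Prop} (h1 : ∀ σ ∈ LX R, s σ ↔ p σ ∨ q σ)
    (h2 : ∀ σ ∈ LX R, p σ → ¬ q σ) : Pr R s = Pr R p + Pr R q := by
  rw [Pr_split s p]
  congr 1
  · exact Pr_congr fun σ hσ => by have := h1 σ hσ; tauto
  · exact Pr_congr fun σ hσ => by have := h1 σ hσ; have := h2 σ hσ; tauto

theorem Ex_add (X Y : Equiv.Perm (Fin n) → ℝ) :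
    Ex R (fun σ => X σ + Y σ) = Ex R X + Ex R Y := by
  unfold Ex
  rw [Finset.sum_add_distrib, add_div]

theorem Ex_sub (X Y : Equiv.Perm (Fin n) → ℝ) :
    Ex R (fun σ => X σ - Y σ) = Ex R X - Ex R Y := by
  unfold Ex
  rw [Finset.sum_sub_distrib, sub_div]

theorem Ex_mul (c : ℝ) (X : Equiv.Perm (Fin n) → ℝ) :
    Ex R (fun σ => c * X σ) = c * Ex R X := by
  unfold Ex
  rw [← Finset.mul_sum, mul_div_assoc]

theorem Ex_sum {ι : Type*} (s : Finset ι) (X : ι → Equiv.Perm (Fin n) → ℝ) :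
    Ex R (fun σ => ∑ i ∈ s, X i σ) = ∑ i ∈ s, Ex R (X i) := by
  unfold Ex
  rw [Finset.sum_comm, Finset.sum_div]

theorem Ex_mono {X Y : Equiv.Perm (Fin n) → ℝ} (h : ∀ σ ∈ LX R, X σ ≤ Y σ) :
    Ex R X ≤ Ex R Y := by
  unfold Ex
  exact div_le_div_of_nonneg_right (Finset.sum_le_sum h) (Nat.cast_nonneg _)

theorem Ex_congr {X Y : Equiv.Perm (Fin n) → ℝ} (h : ∀ σ ∈ LX R, X σ = Y σ) :
    Ex R X = Ex R Y := by
  unfold Ex
  rw [Finset.sum_congr rfl h]

theorem Ex_const (h : (LX R).Nonempty) (c : ℝ) : Ex R (fun _ => c) = c := by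
  unfold Ex
  rw [Finset.sum_const, nsmul_eq_mul, mul_div_assoc, mul_div_cancel₀]
  exact (card_pos_real h).ne'

theorem Inc.symm {u v : Fin n} (h : Inc R u v) : Inc R v u := ⟨h.2, h.1⟩

theorem Inc.ne {u v : Fin n} (h : Inc R u v) : u ≠ v := by
  rintro rfl
  obtain ⟨σ, _, h1⟩ := h.1
  exact lt_irrefl _ h1

theorem Inc.nonempty {u v : Fin n} (h : Inc R u v) : (LX R).Nonempty := by
  obtain ⟨σ, h1, _⟩ := h.1
  exact ⟨σ, h1⟩

theorem Inc.not_rel {u v : Fin n} (h : Inc R u v) : ¬ R u v := by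
  intro h1
  obtain ⟨σ, h2, h3⟩ := h.2
  have := mem_LX.1 h2 u v h1
  exact absurd h3 (not_lt.2 (le_of_lt this))

/-- Exchange two elements `a`, `b` (in a permutation of positions). -/
theorem po_swap (σ : Equiv.Perm (Fin n)) (a b c : Fin n) :
    po ((Equiv.swap a b).trans σ) c = po σ (Equiv.swap a b c) := rfl

/-- Exchange two adjacent elements without a relation. -/
theorem swap_mem {σ : Equiv.Perm (Fin n)} {a b : Fin n} (h : σ ∈ LX R)
    (hab : po σ b = po σ a + 1) (hR : ¬ R a b) : (Equiv.swap a b).trans σ ∈ LX R := by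
  have hne : a ≠ b := by rintro rfl; omega
  rw [mem_LX] at h ⊢
  intro c d hcd
  have h1 := h c d hcd
  change po σ (Equiv.swap a b c) < po σ (Equiv.swap a b d)
  have h1' : po σ c < po σ d := h1
  rcases eq_or_ne c a with rfl | hca
  · rw [Equiv.swap_apply_left]
    rcases eq_or_ne d b with rfl | hdb
    · exact absurd hcd hR
    · rcases eq_or_ne d c with rfl | hdc
      · exact absurd h1' (lt_irrefl _)
      · rw [Equiv.swap_apply_of_ne_of_ne hdc hdb]
        have : po σ d ≠ po σ b := fun e => hdb (po_inj.1 e)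
        omega
  · rcases eq_or_ne c b with rfl | hcb
    · rw [Equiv.swap_apply_right]
      rcases eq_or_ne d a with rfl | hda
      · omega
      · rcases eq_or_ne d c with rfl | hdc
        · exact absurd h1' (lt_irrefl _)
        · rw [Equiv.swap_apply_of_ne_of_ne hda hdc]
          omega
    · rw [Equiv.swap_apply_of_ne_of_ne hca hcb]
      rcases eq_or_ne d a with rfl | hda
      · rw [Equiv.swap_apply_left]; omega
      · rcases eq_or_ne d b with rfl | hdb
        · rw [Equiv.swap_apply_right]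
          have : po σ c ≠ po σ a := fun e => hca (po_inj.1 e)
          omega
        · rwa [Equiv.swap_apply_of_ne_of_ne hda hdb]

end Pool.Agent.Helper89.GP
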