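import Pool.Agent.Helper89.GP.Defs

/-!
# Two comparisons halve the number of linear extensions: goals, part A (log-concavity)

The chamber of a permutation `σ` is
`{x | (∀ a, 0 < x a) ∧ ∀ a b, σ a < σ b → x a < x b}`; the weight is `exp (- ⨆ a, x a)`. The chambers
of the `σ ∈ LX R` are disjoint and cover the cone `{x | (∀ a, 0 < x a) ∧ ∀ a b, R a b → x a < x b}`
up to the null set where two coordinates agree. Every goal of this file may be used as a hypothesis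
where the docstring says so.
-/

namespace Pool.Agent.Helper89.GP

open Finset MeasureTheory

noncomputable section

/-- The chamber of `σ`. -/
def Ch {n : ℕ} (σ : Equiv.Perm (Fin n)) : Set (Fin n → ℝ) :=
  {x | (∀ a, 0 < x a) ∧ ∀ a b, σ a < σ b → x a < x b}

/-- PEEL. The increments in the chamber of the identity are independent. Proof: Fubini with
`MeasurableEquiv.piFinSuccAbove (fun _ => ℝ) 0` (`volume_preserving_piFinSuccAbove`): the left side is
`∫⁻ r, ∫⁻ z : Fin n → ℝ, [Fin.cons r z ∈ Ch 1] * Φ (Fin.cons r z)`; in the inner integral put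
`z = r + y` (translation invariance, `lintegral_add_right_eq_self`); `Fin.cons r (r + y) ∈ Ch 1` iff
`0 < r` and `y ∈ Ch 1`. -/
def PeelStmt : Prop := ∀ (n : ℕ) (Φ : (Fin (n + 1) → ℝ) → ENNReal), Measurable Φ →
  ∫⁻ x in Ch (1 : Equiv.Perm (Fin (n + 1))), Φ x =
    ∫⁻ r in Set.Ioi (0 : ℝ), ∫⁻ y in Ch (1 : Equiv.Perm (Fin n)),
      Φ (Fin.cons r fun i => r + y i)

/-- MST. The mass of the chamber of the identity is one. Proof (may assume PEEL): induction on `n`. For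
`n = 0` the integral is over a point, with value `exp 0 = 1` (the supremum of the empty family is `0`).
Step: `⨆ (Fin.cons r (r + y)) = r + ⨆ y` for `0 < r`, `y ∈ Ch 1` (also for `n = 0`), so PEEL gives
`∫ r > 0, exp (-r) = 1` times the mass for `n`. -/
def MstStmt : Prop := ∀ n : ℕ,
  ∫⁻ x in Ch (1 : Equiv.Perm (Fin n)), ENNReal.ofReal (Real.exp (-⨆ a, x a)) = 1

/-- GMB. The law of one coordinate. Proof (may assume PEEL, MST): induction on `n` with PEEL and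
`⨆ (Fin.cons r (r + y)) = r + ⨆ y`. For `j = 0` use MST. For `j = j' + 1` the left side is
`∫⁻ r in Ioi 0, exp (-r) * ∫⁻ y in Ch 1, φ (r + y j') exp (-⨆ y)`, by induction (for the function
`q ↦ φ (r + q)`) equal to `∫⁻ r in Ioi 0, ∫⁻ q in Ioi 0, φ (r + q) exp (-(r + q)) q ^ j' / j'!`; put
`w = r + q` and integrate `q` over `(0, w)`. -/
def GmbStmt : Prop := ∀ (n : ℕ) (φ : ℝ → ENNReal) (j : Fin n), Measurable φ →
  ∫⁻ x in Ch (1 : Equiv.Perm (Fin n)), φ (x j) * ENNReal.ofReal (Real.exp (-⨆ a, x a)) =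
    ∫⁻ r in Set.Ioi (0 : ℝ), φ r * ENNReal.ofReal (Real.exp (-r) * r ^ (j : ℕ) /
      ((j : ℕ).factorial : ℝ))

/-- GMC. The law of a difference. Proof (may assume PEEL, GMB): induction on `n` with PEEL and
`⨆ (Fin.cons r (r + y)) = r + ⨆ y`: if `i = 0` then the difference is `y (j - 1)`, use GMB (and
`∫ r > 0, exp (-r) = 1`); if `i > 0` it is `y (j-1) - y (i-1)`, use the induction hypothesis. -/
def GmcStmt : Prop := ∀ (n : ℕ) (φ : ℝ → ENNReal) (i j : Fin n), Measurable φ → i < j →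
  ∫⁻ x in Ch (1 : Equiv.Perm (Fin n)), φ (x j - x i) * ENNReal.ofReal (Real.exp (-⨆ a, x a)) =
    ∫⁻ r in Set.Ioi (0 : ℝ), φ r * ENNReal.ofReal (Real.exp (-r) * r ^ ((j : ℕ) - i - 1) /
      (((j : ℕ) - i - 1).factorial : ℝ))

/-- GAM. The same for every chamber, for an interval. Proof (may assume GMC): `x ↦ x ∘ σ` preserves
the volume (`volume_measurePreserving_piCongrLeft`), maps `Ch 1` onto `Ch σ`, keeps `⨆`, and
`(x ∘ σ) v - (x ∘ σ) u = x (σ v) - x (σ u)`. Take the indicator of `[s, t]` for `φ`. -/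
def GamStmt : Prop := ∀ (n : ℕ) (σ : Equiv.Perm (Fin n)) (u v : Fin n) (s t : ℝ), σ u < σ v →
  0 ≤ s → s ≤ t →
  ∫⁻ x in Ch σ ∩ {x | s ≤ x v - x u ∧ x v - x u ≤ t}, ENNReal.ofReal (Real.exp (-⨆ a, x a)) =
    ENNReal.ofReal (∫ r in s..t, Real.exp (-r) * r ^ (po σ v - po σ u - 1) /
      ((po σ v - po σ u - 1).factorial : ℝ))

/-- CON. The mass of a slab in the cone. Proof (may assume GAM): up to a null set (two equal
coordinates) the cone is the disjoint union of the `Ch σ`, `σ ∈ LX R`. For `σ` with `σ u < σ v` the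
difference `x v - x u` is positive on `Ch σ`, so its part of the slab is `Ch σ ∩ {max s 0 ≤ .. ≤ t}`
(empty if `t < 0`), and GAM applies; for `σ v < σ u` apply GAM with `u, v` exchanged to
`[max (-t) 0, -s]`. Sum over `σ` according to the value of the difference of the positions:
`#{σ ∈ LX R | po σ v = po σ u + (k + 1)} = #(LX R) * bq R u v k`. The interval integral of `Gd`
splits at `0`; `Gd` is bounded and measurable. -/
def ConStmt : Prop := ∀ (n : ℕ) (R : Fin n → Fin n → Prop) (u v : Fin n) (s t : ℝ),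
  (LX R).Nonempty → u ≠ v → s ≤ t →
  ∫⁻ x in {x : Fin n → ℝ | (∀ a, 0 < x a) ∧ (∀ a b, R a b → x a < x b) ∧ s ≤ x v - x u ∧
      x v - x u ≤ t}, ENNReal.ofReal (Real.exp (-⨆ a, x a)) =
    ENNReal.ofReal ((LX R).card * ∫ r in s..t, Gd R u v r)

/-- SMO. Prekopa-Leindler. Proof (may assume CON): for `T : ℝ` let `f_T`, `g_T`, `h_T` be the weight
`exp (-⨆ a, x a)` times the indicator of the set of all `x` in the cone with all `x a < T` (so
`|x a| ≤ T`) and `x v - x u` in `[p, p + ε]`, `[q, q + ε]`, `[(1-l) p + l q, (1-l) p + l q + ε]`. By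
`Pool.Agent.Helper9.FR.pl_all` (file Pool/Agent/Helper9/FR/PL.lean), with `R = T`, `C = 1` and
`t = l`: `(∫ f_T) ^ (1-l) * (∫ g_T) ^ l ≤ ∫ h_T`; the hypothesis holds since the sets are convex
(a convex combination of strict inequalities with weights `1-l, l > 0` is strict) and
`⨆ ((1-l) x + l y) ≤ (1-l) ⨆ x + l ⨆ y`. Let `T → ∞` (monotone convergence) and use CON (finite
total mass); the factor `#(LX R)` cancels. -/
def SmoStmt : Prop := ∀ (n : ℕ) (R : Fin n → Fin n → Prop) (u v : Fin n) (p q l ε : ℝ),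
  (LX R).Nonempty → u ≠ v → 0 < l → l < 1 → 0 < ε →
  (∫ r in p..(p + ε), Gd R u v r) ^ (1 - l) * (∫ r in q..(q + ε), Gd R u v r) ^ l ≤
    ∫ r in ((1 - l) * p + l * q)..((1 - l) * p + l * q + ε), Gd R u v r

/-- LCG. Log-concavity of the density. Proof (may assume SMO): divide by `ε` and let `ε → 0+`; `Gd` is
right-continuous at every point (it is continuous on `[0, ∞)` and on `(-∞, 0)`), so
`(1/ε) ∫ r in p..p+ε, Gd → Gd p`. -/
def LcgStmt : Prop := ∀ (n : ℕ) (R : Fin n → Fin n → Prop) (u v : Fin n) (p q l : ℝ),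
  (LX R).Nonempty → u ≠ v → 0 < l → l < 1 →
  (Gd R u v p) ^ (1 - l) * (Gd R u v q) ^ l ≤ Gd R u v ((1 - l) * p + l * q)

/-- PRD. Proof (may assume LCG): if `r = 0` or `s = 0` it is an equality. Otherwise put
`l = r / (r + s)`, so `r = (1-l) 0 + l (r+s)` and `s = l 0 + (1-l)(r+s)`; multiply the two
inequalities of LCG for the points `0` and `r + s` (for `Gd` on `[0, ∞)`, that is
`exp (-t) * Ff R u v t`); the exponentials cancel. -/
def PrdStmt : Prop := ∀ (n : ℕ) (R : Fin n → Fin n → Prop) (u v : Fin n) (r s : ℝ),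
  (LX R).Nonempty → u ≠ v → 0 ≤ r → 0 ≤ s →
  Ff R u v 0 * Ff R u v (r + s) ≤ Ff R u v r * Ff R u v s

/-- NNA. Proof (may assume PRD, for `v, u`): `Ff R v u 0 = bq R v u 0 =: c`. Multiply PRD by
`exp (-(r+s))` and integrate over `r, s ≥ 0`: the right side gives
`(∫ exp (-r) Ff R v u r)² = (∑ bq R v u k)² = (An R u v)²`, since `∫ exp (-r) r ^ k / k! = 1` and
`∑ k ∈ range n, bq R v u k = An R u v` (the difference of the positions is between `1` and `n - 1`);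
the left side gives `c ∫ w exp (-w) Ff R v u w dw = c ∑ (k + 1) bq R v u k = c * Nn R u v`. -/
def NnaStmt : Prop := ∀ (n : ℕ) (R : Fin n → Fin n → Prop) (u v : Fin n), (LX R).Nonempty → u ≠ v →
  bq R v u 0 * Nn R u v ≤ (An R u v) ^ 2

/-- POS. Incomparable elements are adjacent in some linear extension. Proof (may assume LCG): by LCG with
`p = -1`, `q = 1`, `l = 1/2`: `Gd R u v 0 = bq R u v 0` is at least
`sqrt (Gd R u v (-1) * Gd R u v 1) > 0`, because some `bq R u v k` and some `bq R v u k` are positive.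
(Or directly: take a linear extension with `u` before `v` with the least distance; the elements in
between are comparable to ... ; any proof will do.) -/
def PosStmt : Prop := ∀ (n : ℕ) (R : Fin n → Fin n → Prop) (u v : Fin n), Inc R u v →
  0 < bq R u v 0

/-- EXB. Proof (may assume LCG, POS): let `c = bq R u v 0 = bq R v u 0` (hypothesis), `A = An R u v`,
`φ = log ∘ Gd R u v`; `Gd > 0` everywhere (some `bq` of each side is positive, and at `0` POS). For
`t > 0` let `σ = (φ t - φ 0) / t`. If `σ ≤ 0` then `Gd t ≤ c`, so `Ff t ≤ c exp t`. If `σ > 0`: for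
`r > 0` LCG with the points `-r`, `t` and `0` in between gives `φ (-r) ≤ φ 0 - σ r`, that is
`exp (-r) * Ff R v u r ≤ c * exp (-σ r)`. Integrate over `r > 0`: `A ≤ c / σ`
(`∫ exp (-r) Ff R v u r = ∑ bq R v u k = A`). So `σ ≤ c / A` and `Gd t ≤ c exp (c/A t)`. -/
def ExbStmt : Prop := ∀ (n : ℕ) (R : Fin n → Fin n → Prop) (u v : Fin n) (t : ℝ), Inc R u v →
  bq R u v 0 = bq R v u 0 → 0 ≤ t →
  Ff R u v t ≤ bq R u v 0 * Real.exp ((1 + bq R u v 0 / An R u v) * t)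

/-- BTW. Proof (may assume EXB): equality at `t = 0`; compare the derivatives at `0`. (If `n ≤ 1` there
is nothing to prove; if `n = 2` then `bq R u v 1 = 0`.) -/
def BtwStmt : Prop := ∀ (n : ℕ) (R : Fin n → Fin n → Prop) (u v : Fin n), Inc R u v →
  bq R u v 0 = bq R v u 0 → bq R u v 1 ≤ (1 + bq R u v 0 / An R u v) * bq R u v 0

/-- BTH. Proof (may assume PRD): `Ff 0 * Ff (2h) ≤ (Ff h) ²` for all `h ≥ 0`; both sides are polynomials
in `h` with the same coefficients of `1` and `h`; compare the coefficients of `h²`: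
`2 b_0 b_2 ≤ b_1 ² + b_0 b_2`. (`bq R u v k = 0` for `k + 1 ≥ n`, so for `n ≤ 2` nothing is to be
proved.) -/
def BthStmt : Prop := ∀ (n : ℕ) (R : Fin n → Fin n → Prop) (u v : Fin n), (LX R).Nonempty → u ≠ v →
  bq R u v 0 * bq R u v 2 ≤ (bq R u v 1) ^ 2

/-- QFK. Proof: for `k = 0`, `k = 1` both sides are computed directly (equality). For `k ≥ 2` integrate
by parts twice: `w(u) = (τ - u) exp (-u)` has `w'(u) = -(1 + τ - u) exp (-u)`,
`w''(u) = (2 + τ - u) exp (-u)`, so the left side is `∫ u in 0..τ, (τ - u) exp (-u) u^(k-2)/(k-2)!`,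
which is at least `∫ u in Ioi 0, (τ - u) exp (-u) u^(k-2)/(k-2)! = τ - (k - 1)` as the integrand is
negative beyond `τ`; and it is `≥ 0`. -/
def QfkStmt : Prop := ∀ (k : ℕ) (τ : ℝ), 0 ≤ τ →
  max (τ + 1 - k) 0 ≤ Real.exp (-τ) * τ ^ k / (k.factorial : ℝ) +
    ∫ u in (0 : ℝ)..τ, (2 + τ - u) * Real.exp (-u) * (u ^ k / (k.factorial : ℝ))

/-- RWJ. Proof (may assume QFK): write `s = c / A`. `∑ (k+1) b k ≥ ∑ (τ + 2 - (τ + 1 - k)⁺) b k
≥ (τ + 2)(1 - A) - ∑ Q_k b k`, where `Q_k` is the right side of QFK. By `hF`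
`∑ Q_k b k = exp (-τ) F(τ) + ∫ u in 0..τ, (2 + τ - u) exp (-u) F(u)
≤ c * (exp (s τ) + ∫ u in 0..τ, (2 + τ - u) exp (s u))`, and the last factor is
`Z = exp (s τ) (1+s)²/s² - (2+τ)/s - 1/s²`. So `g ≥ (τ+2)(1-A) - c Z - N`, `N ≤ A²/c = A/s`, `c = s A`:
everything cancels and gives the claim. -/
def RwjStmt : Prop := ∀ (n : ℕ) (b : ℕ → ℝ) (A c N τ : ℝ), (∀ k, 0 ≤ b k) → 0 < c → 0 < A → 0 ≤ τ →
  ∑ k ∈ range n, b k = 1 - A → c * N ≤ A ^ 2 →
  (∀ t : ℝ, 0 ≤ t → ∑ k ∈ range n, b k * t ^ k / (k.factorial : ℝ) ≤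
    c * Real.exp ((1 + c / A) * t)) →
  τ + 2 - A * ((1 + c / A) ^ 2 * Real.exp (c / A * τ) / (c / A)) ≤
    ∑ k ∈ range n, ((k : ℝ) + 1) * b k - N

/-- RW5. Proof: with `s = c / A`, `∑ (k+1) b k ≥ 5 (1-A) - 4 b0 - 3 b1 - 2 b2 - b3` (for `n < 4` the
missing terms are zero: `b k = 0` for `k ≥ n`). `hF` at `t = 3/2` and `b k ≥ 0`:
`b3 * (3/2)^3/6 ≤ c exp (3/2 (1+s)) - c - 3/2 b1 - 9/8 b2`, so
`4c + 3 b1 + 2 b2 + b3 ≤ c (4 - 16/9 + 16/9 exp ..) + b1/3`, `b1 ≤ (1+s) c`, `N ≤ A²/c = A/s`. -/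
def Rw5Stmt : Prop := ∀ (n : ℕ) (b : ℕ → ℝ) (A c N : ℝ), (∀ k, 0 ≤ b k) → (∀ k, n ≤ k → b k = 0) →
  0 < c → 0 < A → b 0 = c → b 1 ≤ (1 + c / A) * c →
  ∑ k ∈ range n, b k = 1 - A → c * N ≤ A ^ 2 →
  (∀ t : ℝ, 0 ≤ t → ∑ k ∈ range n, b k * t ^ k / (k.factorial : ℝ) ≤
    c * Real.exp ((1 + c / A) * t)) →
  5 - A * (5 + (c / A) * (16 / 9 * Real.exp (3 / 2 * (1 + c / A)) + 20 / 9 +
    (1 + c / A) / 3) + 1 / (c / A)) ≤ ∑ k ∈ range n, ((k : ℝ) + 1) * b k - N

/-- RW4. Proof: `∑ (k+1) b k ≥ 4 (1-A) - 3 b0 - 2 b1 - b2 ≥ 4 (1-A) - 3 c - 2 (1+s) c - (1+s)² c`, the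
first of the three claims. The second: `≥ 3 (1-A) - 2 b0 - b1`. The third: the same with
`b1 ≤ (1-A)/2`. -/
def Rw4Stmt : Prop := ∀ (n : ℕ) (b : ℕ → ℝ) (A c N : ℝ), (∀ k, 0 ≤ b k) → (∀ k, n ≤ k → b k = 0) →
  0 < c → 0 < A → b 0 = c → b 1 ≤ (1 + c / A) * c → c * b 2 ≤ (b 1) ^ 2 → 2 * b 1 ≤ 1 - A →
  ∑ k ∈ range n, b k = 1 - A → c * N ≤ A ^ 2 →
  4 - A * (4 + (c / A) * (6 + 4 * (c / A) + (c / A) ^ 2) + 1 / (c / A)) ≤
      ∑ k ∈ range n, ((k : ℝ) + 1) * b k - N ∧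
  3 - A * (3 + (c / A) * (3 + c / A) + 1 / (c / A)) ≤ ∑ k ∈ range n, ((k : ℝ) + 1) * b k - N ∧
  5 / 2 * (1 - A) - A * (2 * (c / A) + 1 / (c / A)) ≤ ∑ k ∈ range n, ((k : ℝ) + 1) * b k - N

end

end Pool.Agent.Helper89.GP
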