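import Pool.Agent.Helper6.GP.Goals

/-! # GP / NEAR (MP_75608d_al): near-invariance under long lazy words -/

set_option linter.unusedVariables false
set_option linter.unusedSectionVars false

namespace Pool.Agent.Helper89.GP.NEAR

open Matrix Equiv Filter Topology Pool.Agent.Helper15.An
open scoped ComplexOrder
open Pool.Agent.Helper3.AK (lazyLaw)

variable {D : ℕ}

theorem psd_step (L : Matrix (Fin D) (Fin D) ℂ) (hL : L.PosSemidef) (h1 : (1 - L).PosSemidef)
    (j : ℕ) : ((1 - L) - (L ^ j - L ^ (j + 1))).PosSemidef := by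
  have h2 : (1 - L) - (L ^ j - L ^ (j + 1)) =
      ∑ i ∈ Finset.range j, (1 - L) * L ^ i * (1 - L)ᴴ := by
    rw [h1.isHermitian.eq]
    have h3 : ∀ i, (1 - L) * L ^ i * (1 - L) =
        (L ^ i - L ^ (i + 1)) - (L ^ (i + 1) - L ^ (i + 1 + 1)) := by
      intro i
      rw [Matrix.sub_mul, Matrix.one_mul, Matrix.mul_sub, Matrix.mul_one, ← pow_succ',
        Matrix.sub_mul, ← pow_succ, ← pow_succ]
    simp_rw [h3]
    rw [Finset.sum_range_sub']
    simp
  rw [h2]
  exact posSemidef_sum _ fun i _ => (hL.pow i).mul_mul_conjTranspose_same (1 - L)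

theorem qf_pow (L : Matrix (Fin D) (Fin D) ℂ) (hL : L.PosSemidef) (h1 : (1 - L).PosSemidef)
    (f : Fin D → ℂ) (t : ℕ) : nrm2 f - qf (L ^ t) f ≤ t * (nrm2 f - qf L f) := by
  induction t with
  | zero => simp [qf_one]
  | succ t ih =>
    have h2 := qf_nonneg (psd_step L hL h1 t) f
    rw [qf_sub, qf_sub, qf_sub, qf_one] at h2
    push_cast
    linarith

theorem qf_wop {n : ℕ} (ρ : Perm (Fin n) →* Matrix (Fin D) (Fin D) ℂ) (μ : Perm (Fin n) → ℝ)
    (f : Fin D → ℂ) : qf (wop ρ μ) f = ∑ g, μ g * qf (ρ g) f := by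
  unfold wop
  rw [qf_sum]
  exact Finset.sum_congr rfl fun g _ => qf_smul _ _ _

theorem thm (hlzw : Pool.Agent.Helper6.GP.S_LZW) : Pool.Agent.Helper6.GP.S_NEAR := by
  intro n D k t ρ f hu hk
  -- the terms of a tuple
  have key : ∀ (m : ℕ) (hm : 0 < m) (x : Fin m → Alt n),
      2 * (m : ℝ) * (nrm2 f - qf (wop ρ (tupW x)) f) =
        ∑ l, nrm2 (ρ (x l : Perm (Fin n)) *ᵥ f - f) := by
    intro m hm x
    have h1 := qf_avgRe hm (fun l => ρ (x l : Perm (Fin n))) f
    rw [← wop_tupW ρ hu x] at h1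
    have h2 : ∀ l, nrm2 (ρ (x l : Perm (Fin n)) *ᵥ f - f) =
        2 * nrm2 f - 2 * qf (ρ (x l : Perm (Fin n))) f := fun l => nrm2_sub_unitary (hu _) f
    simp_rw [h2]
    rw [Finset.sum_sub_distrib, ← Finset.mul_sum, ← Finset.mul_sum, ← h1]
    simp
    ring
  refine ⟨fun z => ?_, fun x j => ?_, fun x => ?_⟩
  · obtain ⟨hw, -, -, -, hsum⟩ := hlzw n k t z hk
    have hw' := hw D ρ hu
    have hSP := tupW_isSP (by omega : 0 < k) z
    have hP1 := one_sub_wop ρ hu hSP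
    have hP2 := wop_add_one ρ hu hSP
    set P := wop ρ (tupW z) with hP
    set L : Matrix (Fin D) (Fin D) ℂ := (1 / 2 : ℝ) • ((1 : Matrix (Fin D) (Fin D) ℂ) + P) with hLdef
    have hL : L.PosSemidef := by
      have : L = (1 / 2 : ℝ) • (P - (-1 : ℝ) • (1 : Matrix (Fin D) (Fin D) ℂ)) := by
        rw [hLdef]; module
      rw [this]
      exact hP2.smul (by norm_num)
    have hL1 : (1 - L).PosSemidef := by
      have : 1 - L = (1 / 2 : ℝ) • ((1 : ℝ) • (1 : Matrix (Fin D) (Fin D) ℂ) - P) := by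
        rw [hLdef]; module
      rw [this]
      exact hP1.smul (by norm_num)
    have h3 := qf_pow L hL hL1 f t
    have h4 : qf L f = (1 / 2) * (nrm2 f + qf P f) := by
      rw [hLdef, qf_smul, qf_add, qf_one]
    have h5 : ∑ g, lazyLaw z t g * nrm2 (ρ g *ᵥ f - f) = 2 * (nrm2 f - qf (L ^ t) f) := by
      rw [← hw', qf_wop]
      have h6 : ∀ g, lazyLaw z t g * nrm2 (ρ g *ᵥ f - f) =
          lazyLaw z t g * (2 * nrm2 f) - 2 * (lazyLaw z t g * qf (ρ g) f) := by
        intro g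
        rw [nrm2_sub_unitary (hu g)]; ring
      simp_rw [h6]
      rw [Finset.sum_sub_distrib, ← Finset.sum_mul, ← Finset.mul_sum, hsum]
      ring
    rw [h5]
    rw [h4] at h3
    nlinarith [h3]
  · have h1 := key (k + 1) (by omega) x
    push_cast at h1
    rw [h1]
    exact Finset.single_le_sum (f := fun l => nrm2 (ρ (x l : Perm (Fin n)) *ᵥ f - f))
      (fun l _ => nrm2_nonneg _) (Finset.mem_univ j)
  · have h1 := key (k + 1) (by omega) x
    have h2 := key k (by omega) (Fin.init x)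
    rw [Fin.sum_univ_castSucc] at h1
    have h3 : ∑ l : Fin k, nrm2 (ρ (x (Fin.castSucc l) : Perm (Fin n)) *ᵥ f - f) =
        ∑ l : Fin k, nrm2 (ρ ((Fin.init x : Fin k → Alt n) l : Perm (Fin n)) *ᵥ f - f) := rfl
    have h4 : 0 ≤ nrm2 (ρ (x (Fin.last k) : Perm (Fin n)) *ᵥ f - f) := nrm2_nonneg _
    have h5 : 0 ≤ nrm2 f - qf (wop ρ (tupW x)) f := by
      have h6 : 0 ≤ ∑ l : Fin k, nrm2 (ρ (x (Fin.castSucc l) : Perm (Fin n)) *ᵥ f - f) :=
        Finset.sum_nonneg fun l _ => nrm2_nonneg _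
      have h7 : (0 : ℝ) < 2 * ((k + 1 : ℕ) : ℝ) := by positivity
      by_contra h8
      push Not at h8
      have := mul_neg_of_pos_of_neg h7 h8
      linarith
    have hk' : (1 : ℝ) ≤ (k : ℝ) := by exact_mod_cast hk
    push_cast at h1
    have h9 : (k : ℝ) * (nrm2 f - qf (wop ρ (tupW (Fin.init x : Fin k → Alt n))) f) ≤
        ((k : ℝ) + 1) * (nrm2 f - qf (wop ρ (tupW x)) f) := by nlinarith
    have h10 : ((k : ℝ) + 1) * (nrm2 f - qf (wop ρ (tupW x)) f) ≤
        (k : ℝ) * (2 * (nrm2 f - qf (wop ρ (tupW x)) f)) := by nlinarith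
    exact le_of_mul_le_mul_left (h9.trans h10) (by linarith)

end Pool.Agent.Helper89.GP.NEAR
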