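import Pool.Agent.Helper89.GP.GoalsA
import Pool.Agent.Helper89.GP.Basic

/-!
# Packet GP-BTH
-/

namespace Pool.Agent.Helper89.GP

open Finset

theorem bq_nonneg {n : ℕ} (R : Fin n → Fin n → Prop) (u v : Fin n) (k : ℕ) : 0 ≤ bq R u v k :=
  Pr_nonneg _

theorem bq_zero {n : ℕ} (R : Fin n → Fin n → Prop) (u v : Fin n) {k : ℕ} (hk : n ≤ k) :
    bq R u v k = 0 := by
  apply Pr_eq_zero
  intro σ _ h
  have := po_lt_n σ v
  omega

theorem fin_step (p q : ℝ) {K : ℝ} (hK0 : 0 ≤ K)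
    (key : ∀ h : ℝ, 0 < h → h ≤ 1 → p - q ≤ K * h) : p ≤ q := by
  by_contra hcon
  push Not at hcon
  have hD : 0 < p - q := by linarith
  have h1 := key (min 1 ((p - q) / (2 * (K + 1)))) (lt_min one_pos (by positivity)) (min_le_left _ _)
  have h2 : K * min 1 ((p - q) / (2 * (K + 1))) ≤ K * ((p - q) / (2 * (K + 1))) :=
    mul_le_mul_of_nonneg_left (min_le_right _ _) hK0
  have h3 : K * ((p - q) / (2 * (K + 1))) ≤ (p - q) / 2 := by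
    rw [mul_div_assoc', div_le_div_iff₀ (by positivity) (by norm_num)]
    nlinarith
  linarith

theorem low_aux (n : ℕ) (b : ℕ → ℝ) (hb0 : ∀ k, 0 ≤ b k) (hn : 3 ≤ n) (t : ℝ) (ht : 0 ≤ t) :
    b 0 + b 1 * t + b 2 * t ^ 2 / 2 ≤ ∑ k ∈ range n, b k * t ^ k / (k.factorial : ℝ) := by
  have hsub : range 3 ⊆ range n := Finset.range_subset_range.2 hn
  have h1 : ∑ k ∈ range 3, b k * t ^ k / (k.factorial : ℝ) ≤
      ∑ k ∈ range n, b k * t ^ k / (k.factorial : ℝ) :=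
    Finset.sum_le_sum_of_subset_of_nonneg hsub fun k _ _ =>
      div_nonneg (mul_nonneg (hb0 k) (pow_nonneg ht k)) (Nat.cast_nonneg _)
  have h2 : ∑ k ∈ range 3, b k * t ^ k / (k.factorial : ℝ) = b 0 + b 1 * t + b 2 * t ^ 2 / 2 := by
    simp only [Finset.sum_range_succ, Finset.sum_range_zero, Nat.factorial]
    norm_num
  linarith

theorem up_aux (n : ℕ) (b : ℕ → ℝ) (hb0 : ∀ k, 0 ≤ b k) (hn : 3 ≤ n) (t : ℝ) (ht : 0 ≤ t)
    (ht1 : t ≤ 1) : ∑ k ∈ range n, b k * t ^ k / (k.factorial : ℝ) ≤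
      b 0 + b 1 * t + b 2 * t ^ 2 / 2 + (∑ k ∈ range n, b k) * t ^ 3 := by
  have hsub : range 3 ⊆ range n := Finset.range_subset_range.2 hn
  rw [← Finset.sum_sdiff (s₁ := range 3) hsub]
  have h1 : ∑ k ∈ range n \ range 3, b k * t ^ k / (k.factorial : ℝ) ≤
      (∑ k ∈ range n, b k) * t ^ 3 := by
    rw [Finset.sum_mul]
    calc ∑ k ∈ range n \ range 3, b k * t ^ k / (k.factorial : ℝ)
        ≤ ∑ k ∈ range n \ range 3, b k * t ^ 3 := by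
          apply Finset.sum_le_sum
          intro k hk
          rw [mem_sdiff, mem_range, mem_range, not_lt] at hk
          have h2 : t ^ k ≤ t ^ 3 := pow_le_pow_of_le_one ht ht1 hk.2
          have h3 : (1 : ℝ) ≤ (k.factorial : ℝ) := by exact_mod_cast Nat.succ_le_of_lt k.factorial_pos
          have h4 : 0 ≤ b k * t ^ k := mul_nonneg (hb0 k) (pow_nonneg ht k)
          calc b k * t ^ k / (k.factorial : ℝ) ≤ b k * t ^ k := div_le_self h4 h3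
            _ ≤ b k * t ^ 3 := mul_le_mul_of_nonneg_left h2 (hb0 k)
      _ ≤ ∑ k ∈ range n, b k * t ^ 3 :=
          Finset.sum_le_sum_of_subset_of_nonneg Finset.sdiff_subset fun k _ _ =>
            mul_nonneg (hb0 k) (pow_nonneg ht 3)
  have h2 : ∑ k ∈ range 3, b k * t ^ k / (k.factorial : ℝ) = b 0 + b 1 * t + b 2 * t ^ 2 / 2 := by
    simp only [Finset.sum_range_succ, Finset.sum_range_zero, Nat.factorial]
    norm_num
  linarith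

theorem num_aux (b0 b1 b2 C h F1 F2 : ℝ) (h0b : 0 ≤ b0) (h1b : 0 ≤ b1) (h2b : 0 ≤ b2) (hC0 : 0 ≤ C)
    (h0 : 0 < h) (h1 : h ≤ 1) (e1 : b0 * F2 ≤ F1 * F1)
    (e2 : b0 + b1 * (h + h) + b2 * (h + h) ^ 2 / 2 ≤ F2)
    (e3 : F1 ≤ b0 + b1 * h + b2 * h ^ 2 / 2 + C * h ^ 3) (e4 : 0 ≤ F1) :
    b0 * b2 - b1 ^ 2 ≤ (b1 * b2 + b2 ^ 2 / 4 + 2 * (b0 + b1 + b2 / 2) * C + C ^ 2) * h := by
  have e5 : F1 * F1 ≤ (b0 + b1 * h + b2 * h ^ 2 / 2 + C * h ^ 3) *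
      (b0 + b1 * h + b2 * h ^ 2 / 2 + C * h ^ 3) :=
    mul_le_mul e3 e3 e4 (e4.trans e3)
  have e6 : b0 * (b0 + b1 * (h + h) + b2 * (h + h) ^ 2 / 2) ≤ b0 * F2 :=
    mul_le_mul_of_nonneg_left e2 h0b
  have e8 : (b0 * b2 - b1 ^ 2) * h ^ 2 ≤ b1 * b2 * h ^ 3 + b2 ^ 2 / 4 * h ^ 4 +
      2 * (b0 + b1 * h + b2 * h ^ 2 / 2) * C * h ^ 3 + C ^ 2 * h ^ 6 := by
    have e9 : b0 * (b0 + b1 * (h + h) + b2 * (h + h) ^ 2 / 2) ≤
      (b0 + b1 * h + b2 * h ^ 2 / 2 + C * h ^ 3) * (b0 + b1 * h + b2 * h ^ 2 / 2 + C * h ^ 3) := by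
      linarith
    linarith [e9, mul_comm b0 b1]
  have g1 : h ^ 4 ≤ h ^ 3 := pow_le_pow_of_le_one h0.le h1 (by norm_num)
  have g2 : h ^ 6 ≤ h ^ 3 := pow_le_pow_of_le_one h0.le h1 (by norm_num)
  have g3 : h ^ 2 ≤ 1 := pow_le_one₀ h0.le h1
  have e9 : b2 ^ 2 / 4 * h ^ 4 ≤ b2 ^ 2 / 4 * h ^ 3 :=
    mul_le_mul_of_nonneg_left g1 (by positivity)
  have e10 : C ^ 2 * h ^ 6 ≤ C ^ 2 * h ^ 3 := mul_le_mul_of_nonneg_left g2 (by positivity)
  have e11 : b0 + b1 * h + b2 * h ^ 2 / 2 ≤ b0 + b1 + b2 / 2 := by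
    have k1 : b1 * h ≤ b1 * 1 := mul_le_mul_of_nonneg_left h1 h1b
    have k2 : b2 * h ^ 2 ≤ b2 * 1 := mul_le_mul_of_nonneg_left g3 h2b
    linarith
  have e12 : 2 * (b0 + b1 * h + b2 * h ^ 2 / 2) * C * h ^ 3 ≤
      2 * (b0 + b1 + b2 / 2) * C * h ^ 3 := by
    apply mul_le_mul_of_nonneg_right _ (by positivity)
    apply mul_le_mul_of_nonneg_right _ hC0
    linarith
  have e13 : (b0 * b2 - b1 ^ 2) * h ^ 2 ≤
      (b1 * b2 + b2 ^ 2 / 4 + 2 * (b0 + b1 + b2 / 2) * C + C ^ 2) * h * h ^ 2 := by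
    calc _ ≤ _ := e8
      _ ≤ b1 * b2 * h ^ 3 + b2 ^ 2 / 4 * h ^ 3 + 2 * (b0 + b1 + b2 / 2) * C * h ^ 3 +
          C ^ 2 * h ^ 3 := by linarith
      _ = _ := by ring
  exact le_of_mul_le_mul_right e13 (by positivity)

theorem bth_aux (n : ℕ) (b : ℕ → ℝ) (hb0 : ∀ k, 0 ≤ b k) (hn : 3 ≤ n) (F : ℝ → ℝ)
    (hF : ∀ t, F t = ∑ k ∈ range n, b k * t ^ k / (k.factorial : ℝ))
    (hp : ∀ h, 0 ≤ h → F 0 * F (h + h) ≤ F h * F h) : b 0 * b 2 ≤ b 1 ^ 2 := by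
  have hC0 : 0 ≤ ∑ k ∈ range n, b k := Finset.sum_nonneg fun k _ => hb0 k
  have hF0 : F 0 = b 0 := by
    have h1 := low_aux n b hb0 hn 0 le_rfl
    have h2 := up_aux n b hb0 hn 0 le_rfl zero_le_one
    rw [← hF] at h1 h2
    norm_num at h1 h2
    linarith
  have h0b := hb0 0
  have h1b := hb0 1
  have h2b := hb0 2
  refine fin_step _ _ (K := b 1 * b 2 + b 2 ^ 2 / 4 +
    2 * (b 0 + b 1 + b 2 / 2) * (∑ k ∈ range n, b k) + (∑ k ∈ range n, b k) ^ 2) ?_ ?_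
  · have k1 := mul_nonneg h1b h2b
    have k2 := sq_nonneg (b 2)
    have k3 : 0 ≤ 2 * (b 0 + b 1 + b 2 / 2) * (∑ k ∈ range n, b k) :=
      mul_nonneg (by linarith) hC0
    have k4 := sq_nonneg (∑ k ∈ range n, b k)
    linarith
  · intro h h0 h1
    have e1 := hp h h0.le
    rw [hF0] at e1
    have e2 := low_aux n b hb0 hn (h + h) (by linarith)
    have e3 := up_aux n b hb0 hn h h0.le h1
    have e4 := low_aux n b hb0 hn h h0.le
    rw [← hF] at e2 e3 e4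
    have e5 : 0 ≤ F h := by
      have k1 := mul_nonneg h1b h0.le
      have k2 := mul_nonneg h2b (sq_nonneg h)
      linarith
    exact num_aux (b 0) (b 1) (b 2) _ h (F h) (F (h + h)) h0b h1b h2b hC0 h0 h1 e1 e2 e3 e5

theorem bth (hprd : PrdStmt) : BthStmt := by
  intro n R u v hne huv
  rcases Nat.lt_or_ge n 3 with hn | hn
  · rw [bq_zero R u v (by omega : n ≤ 2), mul_zero]
    exact sq_nonneg _
  exact bth_aux n (bq R u v) (bq_nonneg R u v) hn (Ff R u v) (fun t => rfl)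
    fun h hh => hprd n R u v h h hne huv hh hh

end Pool.Agent.Helper89.GP
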