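import Pool.Agent.Helper89.GP.Basic

/-!
# Two comparisons halve the number of linear extensions: goals, part B (combinatorics)

Pool/Agent/Helper89/GP/Basic.lean has the elementary facts on `LX`, `Pr`, `Ex` and the exchange of two
adjacent elements (`swap_mem`). Counting versions are proved first (`Pr_def`). The order `a t b` in a
docstring means: consecutive positions, `a` first.
-/

namespace Pool.Agent.Helper89.GP

open Finset

noncomputable section

/-- ADJ. Proof: `σ ↦ (Equiv.swap u v).trans σ` is a bijection between the linear extensions with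
`po σ v = po σ u + 1` and those with `po σ u = po σ v + 1` (`swap_mem`, `Inc.not_rel`). -/
def AdjStmt : Prop := ∀ (n : ℕ) (R : Fin n → Fin n → Prop) (u v : Fin n), Inc R u v →
  bq R u v 0 = bq R v u 0

/-- SWT. Proof: the same bijection; the third element keeps its place. -/
def SwtStmt : Prop := ∀ (n : ℕ) (R : Fin n → Fin n → Prop) (u v w : Fin n), Inc R u v → w ≠ u →
  w ≠ v → ra R u v w = ra R v u w ∧ rb R w u v = rb R w v u ∧ tt R u v w = tt R v u w ∧
    tt R w u v = tt R w v u

/-- SEC. Trivial relations inside one order. Proof: monotonicity, inclusion-exclusion, and for the last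
two: the distance is at least `3`, except `1` on `ra` (or `rb`) and `2` on `da` (or `db`). -/
def SecStmt : Prop := ∀ (n : ℕ) (R : Fin n → Fin n → Prop) (u v w : Fin n),
  (0 ≤ tt R u v w ∧ tt R u v w ≤ ra R u v w ∧ tt R u v w ≤ rb R u v w ∧ 0 ≤ da R u v w ∧
    0 ≤ db R u v w) ∧
  (ra R u v w + rb R u v w ≤ Ms R u v w + tt R u v w ∧ ra R u v w + da R u v w ≤ Ms R u v w ∧
    rb R u v w + db R u v w ≤ Ms R u v w) ∧
  (3 * Ms R u v w - 2 * ra R u v w - da R u v w ≤ ea R u v w ∧
    3 * Ms R u v w - 2 * rb R u v w - db R u v w ≤ eb R u v w)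

/-- HLF. Proof: let `D_k` be the set of the linear extensions with `po v = po u + k` (and, for the first
claim, `w` after `v`; for the second, `w` before `u`). Claim `#D_2 ≤ #D_1 + #D_3`, so
`2 #D_2 ≤ #D_1 + #D_2 + #D_3`, which is at most the number of all extensions in question. For
`σ ∈ D_2`, `u t v`: not both `R u t` and `R t v`, since `v` is before `u` in some linear extension. If
not `R t v` let `φ σ` be `u v t` (exchange `t, v`); if `R t v` then not `R u t`, let `φ σ` be `t u v`.
Both branches map to `D_1` and are injective (`t` is the element after `v`, or before `u`). Let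
`π = (s u v t)` be in the image of both: then `(u s v)`, with `R s v`, and `(u t v)`, with not `R t v`,
are in `LX`, so not `R s u` and not `R v t`, and exchanging both pairs in `π` gives `(u s t v)` in
`D_3`; this is injective. Hence `#D_2 ≤ #(union of the images) + #(intersection of the images)
≤ #D_1 + #D_3`. In all these steps `w` is none of `s, t` (`s, t` come from elements between `u` and
`v`), so `w` stays after `v` (before `u`). -/
def HlfStmt : Prop := ∀ (n : ℕ) (R : Fin n → Fin n → Prop) (u v : Fin n), Inc R u v →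
  (∀ w, 2 * da R u v w ≤ Ms R u v w) ∧ (∀ w, 2 * db R w u v ≤ Ms R w u v) ∧
    2 * bq R u v 1 ≤ Pr R fun σ => po σ u < po σ v

/-- RAY. Proof of the first claim (the second is the mirror image): for `t` different from `u, v, w` let
`e(x y z)` be the number of linear extensions with `x y z` consecutive and `w` after them.
`e(t u v) = e(t v u)`, `e(u v t) = e(v u t)` (exchange `u, v`). Claim
`2 (e(u t v) + e(v t u)) ≤ e(t u v) + e(t v u) + e(u v t) + e(v u t)`: not both `R u t` and `R t v`
(`Inc`), nor `R v t` and `R t u`. If `R u t`: `e(v t u) = 0`, not `R t v`, so `e(u t v) ≤ e(u v t)`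
(exchange `t, v`). If `R t v`: `e(v t u) = 0` and `e(u t v) ≤ e(t u v)`. The same with `u, v`
exchanged. If none of the four relations holds, `e(u t v) ≤ e(t u v), e(u v t)` and
`e(v t u) ≤ e(t v u), e(v u t)`. Sum over `t`: the sum of `e(u t v)` is the number for `da R u v w`;
the sum of `e(t u v)` is at most the number for `ra R u v w`; the sum of `e(u v t)` (over `t ≠ w`) is
the number for `ra R u v w` minus that for `tt R u v w`. So `2 (da + da') ≤ 4 ra - 2 tt`, with
`ra R v u w = ra R u v w`, `tt R v u w = tt R u v w` (may assume SWT). -/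
def RayStmt : Prop := ∀ (n : ℕ) (R : Fin n → Fin n → Prop) (u v w : Fin n), Inc R u v → w ≠ u →
  w ≠ v → da R u v w + da R v u w + tt R u v w ≤ 2 * ra R u v w ∧
    db R w u v + db R w v u + tt R w u v ≤ 2 * rb R w u v

/-- DCA. Decomposition by the place of a third element `w`. Proof: if `u` is before `v` then `w` is
after `v`, between them, or before `u`; if they are adjacent it is not between. For the third claim
`(k+1) * bq R u v k` is the expectation of `df σ u v` on the event `po v = po u + (k+1)`; if `w` is
between them the difference is the sum of the two distances. -/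
def DcaStmt : Prop := ∀ (n : ℕ) (R : Fin n → Fin n → Prop) (u v w : Fin n), u ≠ v → w ≠ u → w ≠ v →
  (Pr R fun σ => po σ u < po σ v) = Ms R u v w + Ms R u w v + Ms R w u v ∧
  bq R u v 0 = ra R u v w + rb R w u v ∧
  ∑ k ∈ range n, ((k : ℝ) + 1) * bq R u v k =
    ea R u v w + (ea R u w v + eb R u w v) + eb R w u v

/-- DCB. Proof: split by the value of the difference. -/
def DcbStmt : Prop := ∀ (n : ℕ) (R : Fin n → Fin n → Prop) (u v : Fin n), (LX R).Nonempty → u ≠ v →
  ∑ k ∈ range n, bq R u v k = 1 - An R u v ∧ (Pr R fun σ => po σ u < po σ v) = 1 - An R u v ∧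
  gp R u v = ∑ k ∈ range n, ((k : ℝ) + 1) * bq R u v k - Nn R u v ∧ gp R u v = hh R v - hh R u ∧
  (∀ k, n ≤ k → bq R u v k = 0) ∧ 0 ≤ Nn R u v

/-! ### The XYZ inequality -/

/-- The number of strict maps to `Fin N` with the property `p`. -/
def Sm {n : ℕ} (R : Fin n → Fin n → Prop) (N : ℕ) (p : (Fin n → Fin N) → Prop) : ℕ := by
  classical exact (univ.filter fun f : Fin n → Fin N => (∀ a b, R a b → f a < f b) ∧ p f).card

/-- XYF. The XYZ inequality for maps. Proof (Shepp): for a map `f` let `g : Fin n → ℤ` have
`g y = - f y` and `g a = f a - f y` for `a ≠ y`; shifting by `N` the values are in `Fin (2 N + 1)`. The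
image of the set of all strict maps is a subset of the distributive lattice `Fin n → Fin (2 N + 1)`
which is closed under `⊔` and `⊓`: it is given by conditions of the forms `g a < g b`, `0 < g a`,
`g a < 0` (relations with `y`), `0 ≤ g a - g y ≤ N - 1` and `0 ≤ - g y ≤ N - 1` (the bounds
`0 ≤ f a ≤ N - 1`, as `f a = g a - g y`). Let `μ` be its indicator. The events `0 ≤ g x` (that is
`¬ f x < f y`) and `0 ≤ g z` are increasing. Mathlib's `fkg` gives `μ(F) μ(G) ≤ μ(1) μ(F G)`, that is
`(a + b)(a + c) ≤ (a + b + c + d) a` for the four numbers `a = S(¬,¬)`, `b = S(¬, <)`, `c = S(<, ¬)`,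
`d = S(<, <)`, so `b c ≤ a d`. -/
def XyfStmt : Prop := ∀ (n : ℕ) (R : Fin n → Fin n → Prop) (x y z : Fin n) (N : ℕ), x ≠ y → z ≠ y →
  Sm R N (fun f => f x < f y ∧ ¬ f z < f y) * Sm R N (fun f => ¬ f x < f y ∧ f z < f y) ≤
    Sm R N (fun f => f x < f y ∧ f z < f y) * Sm R N (fun f => ¬ f x < f y ∧ ¬ f z < f y)

/-- XYC. Proof: an injective map is the composition of a permutation and the increasing enumeration
of its image, a subset of `Fin N` with `n` elements (`Finset.orderEmbOfFin`). -/
def XycStmt : Prop := ∀ (n N : ℕ) (Q : (Fin n → Fin n → Prop) → Prop),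
  Nat.card {f : Fin n → Fin N // Function.Injective f ∧ Q fun a b => f a < f b} =
    N.choose n * Nat.card {σ : Equiv.Perm (Fin n) // Q fun a b => σ a < σ b}

/-- XYN. Proof: such a map has `f a = f b` for one of the at most `n ^ 2` pairs `a ≠ b`; for each of
them there are `N ^ (n - 1)` maps (`f` is determined by its values off `b`). -/
def XynStmt : Prop := ∀ n N : ℕ,
  Nat.card {f : Fin n → Fin N // ¬ Function.Injective f} * N ≤ n ^ 2 * N ^ n

/-- XYZ. Proof (may assume XYF, XYC, XYN): let `a, b, c, d` be the numbers of the linear extensions with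
`x, z` before `y`; `x < y < z`; `z < y < x`; `y` before `x, z`. By XYC
`N.choose n * a ≤ Sm R N (..)` with an error of at most the number of maps which are not injective,
and similarly for the others (for an injective map `¬ f x < f y` means `f y < f x`); so XYF gives
`(C b)(C c) ≤ (C a + E)(C d + E)` with `C = N.choose n`, `E N ≤ n² N ^ n`. Divide by `C²` and let
`N → ∞`: `E / C → 0`, so `b c ≤ a d`; divide by `#(LX R)²`. -/
def XyzStmt : Prop := ∀ (n : ℕ) (R : Fin n → Fin n → Prop) (x y z : Fin n), x ≠ y → y ≠ z → x ≠ z →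
  Ms R x y z * Ms R z y x ≤ (Ms R y x z + Ms R y z x) * (Ms R x z y + Ms R z x y)

/-! ### Chains and small facts -/

/-- CHN. Proof: every linear extension has `po σ (e i) = i`: `i ↦ po σ (e i)` is a strictly increasing
map `Fin n → Fin n`. So all of them are equal to `e.symm`. -/
def ChnStmt : Prop := ∀ (n : ℕ) (R : Fin n → Fin n → Prop) (e : Equiv.Perm (Fin n)),
  (∀ (i j : Fin n), (j : ℕ) = i + 1 → ∀ σ ∈ LX R, po σ (e i) < po σ (e j)) → (LX R).card ≤ 1

/-- FXD. If the heights are `0, 1, .., n-1` then there is only one linear extension. Proof: by strong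
induction on `i`, `po σ (e i) = i` for all `σ ∈ LX R`: by induction the values below `i` are taken, so
`po σ (e i) ≥ i` for all `σ`, and the mean is `i`. -/
def FxdStmt : Prop := ∀ (n : ℕ) (R : Fin n → Fin n → Prop) (e : Equiv.Perm (Fin n)),
  (LX R).Nonempty → (∀ i : Fin n, hh R (e i) = ((i : ℕ) : ℝ)) → (LX R).card ≤ 1

end

end Pool.Agent.Helper89.GP
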