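import Pool.Agent.Helper89.GP.GoalsA
import Pool.Agent.Helper89.GP.GoalsB

/-!
# Two comparisons halve the number of linear extensions: goals, part C (numbers, assembly)
-/

namespace Pool.Agent.Helper89.GP

open Finset

noncomputable section

/-! ### Numbers

In the following three goals `s = c / A` is in `(0, 1]`. -/

/-- KSN. Proof: for `s ≥ 1/2` use `rh` and `2 s + 1/s ≤ 3`. For `7/20 ≤ s ≤ 1/2` use `r3`: it is enough
that `A (3 s + s² + 1/s) ≤ 1/2 + 5/2 A`; as `A ≤ 5/16` it is enough that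
`3 s + s² + 1/s ≤ 5/2 + 8/5` (a convex function of `s`, with values `4.03`, `3.75` at the ends). For
`21/100 ≤ s ≤ 7/20` use `r4`: enough that `6 s + 4 s² + s³ + 1/s ≤ 3/2 + 24/5` (convex, values
`6.208`, `5.490`). For `s ≤ 21/100` use `rJ` with `τ = 4/(5 s)` and `exp (4/5) ≤ 2.2256`: enough that
`4/5 - 2.2256 A (1+s)² ≥ (1/2 - 11/2 A) s`; this is worst for `A = 5/16` (the derivative in `A` is
negative), where it reads `0.1045 - 0.1723 s - 0.6955 s² ≥ 0`. -/
def KsnStmt : Prop := ∀ A c g N : ℝ, RW A c g N → A ≤ 5 / 16 → 5 / 2 - 11 / 2 * A ≤ g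

/-- NUM. Proof: all functions of `s` below are convex, so it is enough to look at the ends of the
intervals; the bounds are worst at `A = 5/16`. For `0.66 ≤ s ≤ 1` use `rh`: enough that
`5/2 + s + 1/s < 4.8` (values `4.675`, `4.5`). For `0.47 ≤ s ≤ 0.67` use `r3`: enough that
`3 + 2 s + s² + 1/s < 6.4` (values `6.289`, `6.281`). For `0.27 ≤ s ≤ 0.48` use `r4`: enough that
`4 + 5 s + 4 s² + s³ + 1/s < 9.6` (values `9.365`, `9.516`). For `0.2 ≤ s ≤ 0.28` use `r5`: enough
that `5 + s (16/9 exp (3/2 (1+s)) + 20/9 + (1+s)/3) + 1/s - s < 12.8` (values `12.475`, `12.428`; the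
function is convex; or cut the interval into pieces and use monotonicity of `exp`: for
`s ≤ s ≤ s'` replace `exp` by its value at `s'`). For `s ≤ 0.2` use `rJ` with `τ = 4/(5 s)`,
`exp (4/5) ≤ 2.2256`: `g + c ≥ 4/(5 s) + 2 - 2.2256 A (1+s)²/s + s A`, worst at `A = 5/16`:
`≥ 0.1045/s + 0.609 - 0.384 s > 1`. -/
def NumStmt : Prop := ∀ A c g N : ℝ, RW A c g N → A ≤ 5 / 16 → 1 < g + c

/-- SML. Proof: `rJ` with `τ = 1/s`: `g ≥ 1/s + 2 - A exp(1) (1+s)²/s`, worst at `A = 5/16`:
`≥ 0.1505/s + 0.301 - 0.8495 s`, which is more than `2.1` for `s ≤ 2/25`. -/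
def SmlStmt : Prop := ∀ A c g N : ℝ, RW A c g N → A ≤ 5 / 16 → c ≤ 2 / 25 * A → 2 < g

/-- XYK. Proof: let `q = 1 - p ≤ 1/2`; `4 m (1 - q) ≤ 4 a d ≤ (a + d)² = (q - m)²`. If
`m > κ q`, `κ = 0.171573 > 3 - 2 √2`, then `q > 0` and with `μ = m/q ∈ (κ, 1]`:
`4 μ (1 - q) ≤ q (1 - μ)²`, so `4 μ ≤ (1 - μ)²` as `q ≤ 1 - q`, that is `μ² - 6 μ + 1 ≥ 0`, but this is
negative on `(κ, 1]`. -/
def XykStmt : Prop := ∀ p a d m : ℝ, 0 ≤ a → 0 ≤ d → 0 ≤ m → 1 / 2 ≤ p → p + a + d + m = 1 →
  p * m ≤ a * d → m ≤ 171573 / 1000000 * (1 - p)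

/-! ### One pair -/

/-- PAR. Proof (may assume ADJ, NNA, POS, EXB, BTW, BTH, HLF, DCB, RWJ, RW5, RW4): with
`b k = bq R u v k`, `A = An R u v`, `c = bq R u v 0 = bq R v u 0 ≤ A`, `N = Nn R u v`, everything is
the conclusion of RWJ, RW5, RW4, and `gp = ∑ (k+1) b k - N` by DCB. -/
def ParStmt : Prop := ∀ (n : ℕ) (R : Fin n → Fin n → Prop) (u v : Fin n), Inc R u v →
  RW (An R u v) (bq R u v 0) (gp R u v) (Nn R u v)

/-! ### Three elements -/

/-- MNA. The main case: three pairwise incomparable elements. (Proof by helper89: a certificate with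
46 cells.) -/
def MnaStmt : Prop := ∀ (n : ℕ) (R : Fin n → Fin n → Prop) (x y z : Fin n), Inc R x y → Inc R y z →
  Inc R x z → An R x y ≤ 5 / 16 → An R y z ≤ 5 / 16 → 1 / 2 ≤ Ms R x y z →
  2 < gp R x y + gp R y z

/-- MNB. Proof (may assume PAR, KSN): `gp ≥ 5/2 - 11/2 An` for both pairs. As `x` is always before `z`,
`An R x y = Ms R y x z`, `An R y z = Ms R x z y` and `Ms R x y z + Ms R y x z + Ms R x z y = 1`. So the
sum of the two `gp` is at least `5 - 11/2 * 1/2 = 9/4`. -/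
def MnbStmt : Prop := ∀ (n : ℕ) (R : Fin n → Fin n → Prop) (x y z : Fin n), Inc R x y → Inc R y z →
  (∀ σ ∈ LX R, po σ x < po σ z) → An R x y ≤ 5 / 16 → An R y z ≤ 5 / 16 → 1 / 2 ≤ Ms R x y z →
  2 < gp R x y + gp R y z

/-- MNC. Proof (may assume PAR, NUM, ADJ, DCB): first claim: `po y - po x ≥ 1`, and `≥ 2` if `z` is
immediately before `y` (as `x ≠ z` is before `y`), so `gp R x y ≥ 1 + bq R z y 0 = 1 + bq R y z 0`;
and `gp R y z + bq R y z 0 > 1`. Second claim: `po y ≥ 1` if `z` is immediately before `y`, so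
`hh R y ≥ bq R z y 0 = bq R y z 0` and `hh R z = hh R y + gp R y z`. -/
def MncStmt : Prop := ∀ (n : ℕ) (R : Fin n → Fin n → Prop) (y z : Fin n), Inc R y z →
  An R y z ≤ 5 / 16 →
  (∀ x, (∀ σ ∈ LX R, po σ x < po σ y) → 2 < gp R x y + gp R y z) ∧ 1 < hh R z

/-! ### All elements -/

/-- GLO. Proof (may assume MNA, MNB, MNC, PAR, KSN, CHN, DCB). Write `x ≺ y` if `An R x y < 5/16`
(`x ≠ y`). If `x ≺ y` then `hh R x < hh R y`: if `Inc R x y`, then `gp R x y ≥ 5/2 - 11/2 * 5/16 > 0`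
by KSN; otherwise `x` is always before `y` (`An R x y < 5/16 < 1`, and one of the orders never occurs)
and `gp R x y ≥ 1`. So `hh R` is injective; let `e` be the enumeration of `Fin n` in increasing order
of `hh R` (`Tuple.sort (hh R)`); then `e i ≺ e j` for `i < j`. Claim: `hh R (e i) ≥ i`, and `> i` if
`Inc R (e j) (e (j + 1))` for some `j < i`. Strong induction on `i`; `i = 0` is clear. Let `i ≥ 1`,
`y = e (i - 1)`, `z = e i`. If not `Inc R y z` then `gp R y z ≥ 1` and the claim follows from that for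
`i - 1`. If `Inc R y z` and `i = 1` use MNC (`hh R z > 1`). If `i ≥ 2` let `x = e (i - 2)`. If not
`Inc R x y` then `x` is always before `y` and MNC gives `gp R x y + gp R y z > 2`; if `Inc R x y` then
MNA or MNB gives it (`Ms R x y z > 1/2` by the last hypothesis; if not `Inc R x z` then `x` is always
before `z`). So `hh R z > i` by the claim for `i - 2`. Finally `hh R (e (n-1)) ≤ n - 1`, so there is
no `j` with `Inc R (e j) (e (j+1))`, and CHN gives `(LX R).card ≤ 1`. -/
def GloStmt : Prop := ∀ (n : ℕ) (R : Fin n → Fin n → Prop), 2 ≤ (LX R).card →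
  (∀ a b, a ≠ b → An R a b < 5 / 16 ∨ An R b a < 5 / 16) →
  (∀ x y z, x ≠ y → y ≠ z → An R x y < 5 / 16 → An R y z < 5 / 16 → 1 / 2 < Ms R x y z) → False

/-- KSA. Kahn-Saks. Proof (may assume PAR, KSN, FXD, DCB): let `e` be an enumeration of `Fin n` with
`hh R ∘ e` weakly increasing (`Tuple.sort`). If all differences of consecutive heights are at least
`1` then `hh R (e i) ≥ i` and `hh R (e i) ≤ n - 1 - (n - 1 - i) = i`, so FXD gives
`(LX R).card ≤ 1`. So there are consecutive `u, v` with `0 ≤ gp R u v < 1`. `Inc R u v`: otherwise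
`gp R u v ≥ 1` or `≤ -1`. If `An R u v < 3/11` then KSN gives `gp R u v ≥ 5/2 - 11/2 An > 1`; if
`An R v u < 3/11` then `gp R v u > 1` and `gp R u v = - gp R v u < -1`. -/
def KsaStmt : Prop := ∀ (n : ℕ) (R : Fin n → Fin n → Prop), 2 ≤ (LX R).card →
  ∃ a b, a ≠ b ∧ 3 / 11 ≤ An R a b ∧ 3 / 11 ≤ An R b a

/-- Two comparisons, the second one depending on the outcome of the first one, reduce the set `S` of
candidates to at most the half. -/
def Good {n : ℕ} (S : Finset (Equiv.Perm (Fin n))) : Prop :=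
  ∃ a b : Fin n, a ≠ b ∧ ∀ u v, ((u = a ∧ v = b) ∨ (u = b ∧ v = a)) →
    ∃ c d : Fin n, c ≠ d ∧ ∀ w z, ((w = c ∧ z = d) ∨ (w = d ∧ z = c)) →
      2 * (S.filter fun σ => σ u < σ v ∧ σ w < σ z).card ≤ S.card

/-- FNA. Proof (may assume KSA): for an outcome `u < v` let `R' = fun p q => R p q ∨ (p = u ∧ q = v)`,
so `LX R' = (LX R).filter (σ u < σ v)` has at most `11/16 #(LX R)` elements
(`Pr (po u < po v) = 1 - An R u v`). If `(LX R').card ≤ 1` take `c = u`, `d = v`: `2 * 1 ≤ #(LX R)`.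
Otherwise take the pair of KSA for `R'`: each outcome has probability at most `8/11` in `LX R'`, and
`8/11 * 11/16 = 1/2`. -/
def FnaStmt : Prop := ∀ (n : ℕ) (R : Fin n → Fin n → Prop), 2 ≤ (LX R).card →
  (∃ a b, a ≠ b ∧ 5 / 16 ≤ An R a b ∧ 5 / 16 ≤ An R b a) → Good (LX R)

/-- FNB. Proof (may assume GLO, FNA): suppose not `Good (LX R)`. By FNA the second hypothesis of GLO
holds. For the third one let `x ≠ y`, `y ≠ z`, `An R x y < 5/16`, `An R y z < 5/16`. As `(x, y)` is
not good as a first pair, there is an outcome `(u, v)` such that for every second pair some outcome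
has `2 #.. > #(LX R)`. For `(u, v) = (y, x)` take the second pair `x, y`: the number is at most
`An R x y * #(LX R)`, too small. So `(u, v) = (x, y)`; take the second pair `(y, z)`. The outcome
`z < y` has a number at most `An R y z * #(LX R)`, too small, so the outcome `y < z` has it:
`1/2 < Ms R x y z`. -/
def FnbStmt : Prop := ∀ (n : ℕ) (R : Fin n → Fin n → Prop), 2 ≤ (LX R).card → Good (LX R)

/-- A decision tree of depth at most `d` with comparisons determines the element of `S`. -/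
def DTree {n : ℕ} : ℕ → Finset (Equiv.Perm (Fin n)) → Prop
  | 0, S => S.card ≤ 1
  | d + 1, S => S.card ≤ 1 ∨ ∃ a b : Fin n, DTree d (S.filter fun σ => σ a < σ b) ∧
      DTree d (S.filter fun σ => ¬ σ a < σ b)

/-- FNC. Proof (may assume FNB): induction on `k`. If `(LX R).card ≤ 1` nothing is to be proved.
Otherwise take the four comparisons of `Good`; each of the remaining sets is `LX R''` for a relation
`R''` (add the two relations), with fewer than `2 ^ k` elements (`σ a < σ b` fails iff `σ b < σ a`,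
for `a ≠ b`). -/
def FncStmt : Prop := ∀ (k n : ℕ) (R : Fin n → Fin n → Prop), (LX R).card < 2 ^ (k + 1) →
  DTree (2 * k) (LX R)

end

end Pool.Agent.Helper89.GP
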