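import Pool.Agent.Helper89.GP.LeafD
import Pool.Agent.Helper89.GP.GoalsC

/-!
# Three pairwise incomparable elements
-/

namespace Pool.Agent.Helper89.GP

open Finset

theorem leaves_all (hksn : KsnStmt) (hsml : SmlStmt) {d : SD} (h : Sy d)
    (q1 : RW (d.p1 + d.p3 + d.m) (d.al1 + d.be1) d.g1 (d.E10 + d.E30 + d.E31 + d.E51))
    (q2 : RW (d.p2 + d.p4 + d.m) (d.al2 + d.be2) d.g2 (d.E21 + d.E40 + d.E41 + d.E50)) :
    2 < d.g1 + d.g2 := by
  have g1 := hksn _ _ _ _ q1 h.hA1
  have g2 := hksn _ _ _ _ q2 h.hA2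
  have hA1 := h.hA1
  have hA2 := h.hA2
  rcases le_total (d.al1 + d.be1) (2 / 25 * (d.p1 + d.p3 + d.m)) with a1 | a1
  · have := hsml _ _ _ _ q1 h.hA1 a1
    linarith
  rcases le_total (d.al2 + d.be2) (2 / 25 * (d.p2 + d.p4 + d.m)) with a2 | a2
  · have := hsml _ _ _ _ q2 h.hA2 a2
    linarith
  exact leaves h q1 q2 a1 (by rw [one_mul]; exact q1.cA) a2 (by rw [one_mul]; exact q2.cA)

theorem mna (hpar : ParStmt) (hksn : KsnStmt) (hsml : SmlStmt) (hswt : SwtStmt) (hsec : SecStmt)
    (hhlf : HlfStmt) (hray : RayStmt) (hdca : DcaStmt) (hdcb : DcbStmt) (hxyz : XyzStmt)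
    (hxyk : XykStmt) : MnaStmt := by
  intro n R x y z hxy hyz hxz hA1 hA2 hp0
  have hne := hxy.nonempty
  have nxy := hxy.ne
  have nyz := hyz.ne
  have nxz := hxz.ne
  -- decompositions
  obtain ⟨a1, a2, a3⟩ := hdca n R x y z nxy nxz.symm nyz.symm
  obtain ⟨b1, b2, b3⟩ := hdca n R y x z nxy.symm nyz.symm nxz.symm
  obtain ⟨c1, c2, c3⟩ := hdca n R y z x nyz nxy nxz
  obtain ⟨d1, d2, d3⟩ := hdca n R z y x nyz.symm nxz nxy
  obtain ⟨_, e1, e2, _, _, e5⟩ := hdcb n R x y hne nxy
  obtain ⟨_, f1, f2, _, _, f5⟩ := hdcb n R y z hne nyz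
  -- symmetries
  obtain ⟨s1, s2, s3, s4⟩ := hswt n R x y z hxy nxz.symm nyz.symm
  obtain ⟨t1, t2, t3, t4⟩ := hswt n R y z x hyz nxy nxz
  obtain ⟨u1, u2, u3, u4⟩ := hswt n R x z y hxz nxy.symm nyz
  -- orders
  obtain ⟨⟨o11, o12, o13, o14, o15⟩, ⟨o16, o17, o18⟩, ⟨o19, o10⟩⟩ := hsec n R x y z
  obtain ⟨⟨p11, p12, p13, p14, p15⟩, ⟨p16, p17, p18⟩, ⟨p19, p10⟩⟩ := hsec n R y x z
  obtain ⟨⟨q11, q12, q13, q14, q15⟩, ⟨q16, q17, q18⟩, ⟨q19, q10⟩⟩ := hsec n R x z y
  obtain ⟨⟨r11, r12, r13, r14, r15⟩, ⟨r16, r17, r18⟩, ⟨r19, r10⟩⟩ := hsec n R y z x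
  obtain ⟨⟨v11, v12, v13, v14, v15⟩, ⟨v16, v17, v18⟩, ⟨v19, v10⟩⟩ := hsec n R z x y
  obtain ⟨⟨w11, w12, w13, w14, w15⟩, ⟨w16, w17, w18⟩, ⟨w19, w10⟩⟩ := hsec n R z y x
  -- halves
  obtain ⟨h1, _, _⟩ := hhlf n R x y hxy
  obtain ⟨k1, k2, _⟩ := hhlf n R y z hyz
  obtain ⟨_, l2, _⟩ := hhlf n R x y hxy
  have h00 := h1 z
  have h01 := k2 x
  have h30 := k1 x
  have h41 := l2 z
  -- rays
  obtain ⟨ry0, _⟩ := hray n R x y z hxy nxz.symm nyz.symm
  obtain ⟨_, ry5⟩ := hray n R y z x hyz nxy nxz
  obtain ⟨ry4, ry1⟩ := hray n R x z y hxz nxy.symm nyz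
  -- the sum
  have hsum : Ms R x y z + Ms R y x z + Ms R x z y + Ms R y z x + Ms R z x y + Ms R z y x = 1 := by
    have k1 : An R x y = Ms R y x z + Ms R y z x + Ms R z y x := b1
    linarith [a1, e1]
  have hM : ∀ a b c : Fin n, 0 ≤ Ms R a b c := fun a b c => Pr_nonneg _
  have hX := hxyz n R x y z nxy nyz nxz
  have hxyzk : Ms R z y x ≤ 171573 / 1000000 * (1 - Ms R x y z) := by
    apply hxyk (Ms R x y z) (Ms R y x z + Ms R y z x) (Ms R x z y + Ms R z x y) (Ms R z y x)
      (add_nonneg (hM _ _ _) (hM _ _ _)) (add_nonneg (hM _ _ _) (hM _ _ _)) (hM _ _ _) hp0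
      (by linarith) hX
  have hAn1 : An R x y = Ms R y x z + Ms R y z x + Ms R z y x := b1
  have hAn2 : An R y z = Ms R x z y + Ms R z x y + Ms R z y x := by
    have : An R y z = Ms R z y x + Ms R z x y + Ms R x z y := d1
    linarith
  have hN1 : Nn R x y = ea R y x z + (ea R y z x + eb R y z x) + eb R z y x := b3
  have hN2 : Nn R y z = ea R z y x + (ea R z x y + eb R z x y) + eb R x z y := d3
  let d : SD :=
    { p0 := Ms R x y z, p1 := Ms R y x z, p2 := Ms R x z y, p3 := Ms R y z x, p4 := Ms R z x y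
      m := Ms R z y x
      al1 := ra R x y z, al2 := rb R x y z, al3 := ra R x z y, be1 := rb R z x y
      be2 := ra R y z x, be3 := rb R y x z, ta := tt R x y z
      x0 := da R x y z, x1 := db R x y z, y := da R y x z, z := db R x z y, y2 := db R y x z
      z2 := da R x z y, u3 := da R y z x, u4 := db R z x y, y3 := db R y z x, z4 := da R z x y
      w51 := db R z y x, w50 := da R z y x
      E00 := ea R x y z, E01 := eb R x y z, E10 := ea R y x z, E11 := eb R y x z
      E20 := ea R x z y, E21 := eb R x z y, E30 := ea R y z x, E31 := eb R y z x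
      E40 := ea R z x y, E41 := eb R z x y, E50 := ea R z y x, E51 := eb R z y x
      g1 := gp R x y, g2 := gp R y z }
  have hS : Sy d :=
    { sum := by show Ms R x y z + Ms R y x z + Ms R x z y + Ms R y z x + Ms R z x y + Ms R z y x = 1
                exact hsum
      hp0 := hp0
      hA1 := by show Ms R y x z + Ms R y z x + Ms R z y x ≤ 5 / 16
                linarith
      hA2 := by show Ms R x z y + Ms R z x y + Ms R z y x ≤ 5 / 16
                linarith
      hxyz := hxyzk
      t1 := o12
      t2 := o13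
      t3 := by show tt R x y z ≤ ra R x z y
               linarith
      t4 := by show tt R x y z ≤ rb R z x y
               linarith
      t5 := by show tt R x y z ≤ ra R y z x
               linarith
      t6 := by show tt R x y z ≤ rb R y x z
               linarith
      ie0 := o16
      ie1 := by show ra R x y z + rb R y x z ≤ Ms R y x z + tt R x y z
                linarith
      ie2 := by show rb R x y z + ra R x z y ≤ Ms R x z y + tt R x y z
                linarith
      ie3 := by show ra R y z x + rb R y x z ≤ Ms R y z x + tt R x y z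
                linarith
      ie4 := by show ra R x z y + rb R z x y ≤ Ms R z x y + tt R x y z
                linarith
      ie5 := by show rb R z x y + ra R y z x ≤ Ms R z y x + tt R x y z
                linarith
      hf00 := h00
      hf01 := h01
      hf30 := h30
      hf41 := h41
      ray0 := ry0
      ray5 := by show db R x y z + db R x z y + tt R x y z ≤ 2 * rb R x y z
                 exact ry5
      ray4 := by show da R x z y + da R z x y + tt R x y z ≤ 2 * ra R x z y
                 linarith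
      ray1 := by show db R y x z + db R y z x + tt R x y z ≤ 2 * rb R y x z
                 linarith
      ms00 := o17
      ms01 := o18
      ms10 := by show ra R x y z + da R y x z ≤ Ms R y x z
                 linarith
      ms11 := p18
      ms20 := q17
      ms21 := by show rb R x y z + db R x z y ≤ Ms R x z y
                 linarith
      ms30 := r17
      ms31 := by show rb R y x z + db R y z x ≤ Ms R y z x
                 linarith
      ms40 := by show ra R x z y + da R z x y ≤ Ms R z x y
                 linarith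
      ms41 := v18
      ms50 := by show ra R y z x + da R z y x ≤ Ms R z y x
                 linarith
      ms51 := by show rb R z x y + db R z y x ≤ Ms R z y x
                 linarith
      e00 := o19
      e01 := o10
      e10 := by show 3 * Ms R y x z - 2 * ra R x y z - da R y x z ≤ ea R y x z
                linarith
      e11 := p10
      e20 := q19
      e21 := by show 3 * Ms R x z y - 2 * rb R x y z - db R x z y ≤ eb R x z y
                linarith
      e30 := r19
      e31 := by show 3 * Ms R y z x - 2 * rb R y x z - db R y z x ≤ eb R y z x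
                linarith
      e40 := by show 3 * Ms R z x y - 2 * ra R x z y - da R z x y ≤ ea R z x y
                linarith
      e41 := v10
      e50 := by show 3 * Ms R z y x - 2 * ra R y z x - da R z y x ≤ ea R z y x
                linarith
      e51 := by show 3 * Ms R z y x - 2 * rb R z x y - db R z y x ≤ eb R z y x
                linarith
      eg1 := by
        show gp R x y = ea R x y z + ea R x z y + eb R x z y + eb R z x y -
          (ea R y x z + ea R y z x + eb R y z x + eb R z y x)
        rw [e2, a3, hN1]; ring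
      eg2 := by
        show gp R y z = eb R x y z + eb R y x z + ea R y z x + ea R y x z -
          (eb R x z y + ea R z x y + eb R z x y + ea R z y x)
        rw [f2, c3, hN2]; ring
      n_p1 := hM _ _ _
      n_p2 := hM _ _ _
      n_p3 := hM _ _ _
      n_p4 := hM _ _ _
      n_m := hM _ _ _
      n_al1 := Pr_nonneg _
      n_al2 := Pr_nonneg _
      n_al3 := Pr_nonneg _
      n_be1 := Pr_nonneg _
      n_be2 := Pr_nonneg _
      n_be3 := Pr_nonneg _
      n_tau := Pr_nonneg _
      n_x0 := Pr_nonneg _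
      n_x1 := Pr_nonneg _
      n_y := Pr_nonneg _
      n_z := Pr_nonneg _
      n_y2 := Pr_nonneg _
      n_z2 := Pr_nonneg _
      n_u3 := Pr_nonneg _
      n_u4 := Pr_nonneg _
      n_y3 := Pr_nonneg _
      n_z4 := Pr_nonneg _
      n_w51 := Pr_nonneg _
      n_w50 := Pr_nonneg _ }
  have Q1 := hpar n R x y hxy
  have Q2 := hpar n R y z hyz
  apply leaves_all hksn hsml hS
  · show RW (Ms R y x z + Ms R y z x + Ms R z y x) (ra R x y z + rb R z x y) (gp R x y)
      (ea R y x z + ea R y z x + eb R y z x + eb R z y x)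
    rw [hAn1, a2, hN1] at Q1
    convert Q1 using 1
    ring
  · show RW (Ms R x z y + Ms R z x y + Ms R z y x) (rb R x y z + ra R y z x) (gp R y z)
      (eb R x z y + ea R z x y + eb R z x y + ea R z y x)
    rw [hAn2, c2, hN2] at Q2
    convert Q2 using 1
    · ring
    · ring

end Pool.Agent.Helper89.GP
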