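import Pool.Agent.Helper89.GP.GoalsB

/-!
# Packet GP-RAY
-/

namespace Pool.Agent.Helper89.GP.RAY

open Finset Pool.Agent.Helper89.GP

variable {n : ℕ} {R : Fin n → Fin n → Prop}

open Classical in
/-- The number of linear extensions with `p`. -/
noncomputable def C (R : Fin n → Fin n → Prop) (p : Equiv.Perm (Fin n) → Prop) : ℕ :=
  ((LX R).filter p).card

theorem C_mono {p q : Equiv.Perm (Fin n) → Prop} (h : ∀ σ ∈ LX R, p σ → q σ) : C R p ≤ C R q := by
  classical
  apply Finset.card_le_card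
  intro σ hσ
  rw [mem_filter] at hσ ⊢
  exact ⟨hσ.1, h σ hσ.1 hσ.2⟩

/-- Exchange. -/
theorem C_swap {p q : Equiv.Perm (Fin n) → Prop} (a b : Fin n) (hR : ¬ R a b)
    (h1 : ∀ σ ∈ LX R, p σ → po σ b = po σ a + 1)
    (h2 : ∀ σ ∈ LX R, p σ → q ((Equiv.swap a b).trans σ)) : C R p ≤ C R q := by
  classical
  apply Finset.card_le_card_of_injOn (fun σ => (Equiv.swap a b).trans σ)
  · intro σ hσ
    rw [mem_coe, mem_filter] at hσ ⊢
    exact ⟨swap_mem hσ.1 (h1 σ hσ.1 hσ.2) hR, h2 σ hσ.1 hσ.2⟩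
  · intro σ _ τ _ h
    have h3 := congrArg (fun ρ : Equiv.Perm (Fin n) => (Equiv.swap a b).trans ρ) h
    simp only [← Equiv.trans_assoc, Equiv.swap_swap, Equiv.refl_trans] at h3
    exact h3

/-- Sum over the element at a place. -/
theorem sum_le {p : Equiv.Perm (Fin n) → Prop} {r : Fin n → Equiv.Perm (Fin n) → Prop}
    (h : ∀ t, ∀ σ ∈ LX R, r t σ → p σ)
    (hu : ∀ s t, ∀ σ ∈ LX R, r s σ → r t σ → s = t) : ∑ t, C R (r t) ≤ C R p := by
  classical
  unfold C
  rw [← Finset.card_biUnion]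
  · apply Finset.card_le_card
    intro σ hσ
    rw [mem_biUnion] at hσ
    obtain ⟨t, _, ht⟩ := hσ
    rw [mem_filter] at ht ⊢
    exact ⟨ht.1, h t σ ht.1 ht.2⟩
  · intro s _ t _ hst
    rw [Function.onFun, Finset.disjoint_left]
    intro σ h1 h2
    rw [mem_filter] at h1 h2
    exact hst (hu s t σ h1.1 h1.2 h2.2)

theorem le_sum {p : Equiv.Perm (Fin n) → Prop} {r : Fin n → Equiv.Perm (Fin n) → Prop}
    (h : ∀ σ ∈ LX R, p σ → ∃ t, r t σ) : C R p ≤ ∑ t, C R (r t) := by
  classical
  unfold C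
  refine le_trans (Finset.card_le_card (t := univ.biUnion fun t => (LX R).filter (r t)) ?_)
    Finset.card_biUnion_le
  intro σ hσ
  rw [mem_filter] at hσ
  obtain ⟨t, ht⟩ := h σ hσ.1 hσ.2
  rw [mem_biUnion]
  exact ⟨t, mem_univ _, by rw [mem_filter]; exact ⟨hσ.1, ht⟩⟩

theorem exists_at (σ : Equiv.Perm (Fin n)) {k : ℕ} (hk : k < n) : ∃ t, po σ t = k :=
  ⟨σ.symm ⟨k, hk⟩, by simp [po]⟩

theorem po_swap_left (σ : Equiv.Perm (Fin n)) (a b : Fin n) :
    po ((Equiv.swap a b).trans σ) a = po σ b := by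
  simp [po]

theorem po_swap_right (σ : Equiv.Perm (Fin n)) (a b : Fin n) :
    po ((Equiv.swap a b).trans σ) b = po σ a := by
  simp [po]

theorem po_swap_of (σ : Equiv.Perm (Fin n)) {a b c : Fin n} (h1 : c ≠ a) (h2 : c ≠ b) :
    po ((Equiv.swap a b).trans σ) c = po σ c := by
  simp [po, Equiv.swap_apply_of_ne_of_ne h1 h2]

/-- `a b c` consecutive and the condition `w` after (`b = true`) or before (`b = false`). -/
def cons (w : Fin n) (s : Bool) (a b c : Fin n) (σ : Equiv.Perm (Fin n)) : Prop :=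
  po σ b = po σ a + 1 ∧ po σ c = po σ b + 1 ∧ (if s then po σ c < po σ w else po σ w < po σ a)

theorem cons_ne {w : Fin n} {s : Bool} {a b c : Fin n} {σ : Equiv.Perm (Fin n)}
    (h : cons w s a b c σ) : a ≠ b ∧ b ≠ c ∧ a ≠ c ∧ w ≠ a ∧ w ≠ b ∧ w ≠ c := by
  obtain ⟨h1, h2, h3⟩ := h
  have h4 : po σ w ≠ po σ a ∧ po σ w ≠ po σ b ∧ po σ w ≠ po σ c := by
    cases s
    · simp only [Bool.false_eq_true, if_false] at h3
      omega
    · simp only [if_true] at h3
      omega
  refine ⟨?_, ?_, ?_, ?_, ?_, ?_⟩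
  · rintro rfl; omega
  · rintro rfl; omega
  · rintro rfl; omega
  · rintro rfl; exact h4.1 rfl
  · rintro rfl; exact h4.2.1 rfl
  · rintro rfl; exact h4.2.2 rfl

/-- Exchange the first two. -/
theorem e12 (w : Fin n) (s : Bool) (a b c : Fin n) (hR : ¬ R a b) :
    C R (cons w s a b c) ≤ C R (cons w s b a c) := by
  apply C_swap a b hR (fun σ _ h => h.1)
  intro σ _ h
  obtain ⟨n1, n2, n3, n4, n5, n6⟩ := cons_ne h
  obtain ⟨h1, h2, h3⟩ := h
  refine ⟨?_, ?_, ?_⟩
  · rw [po_swap_left, po_swap_right, h1]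
  · rw [po_swap_left, po_swap_of σ n3.symm n2.symm, h2]
  · cases s
    · simp only [Bool.false_eq_true, if_false] at h3 ⊢
      rw [po_swap_of σ n4 n5, po_swap_right]; exact h3
    · simp only [if_true] at h3 ⊢
      rw [po_swap_of σ n3.symm n2.symm, po_swap_of σ n4 n5]; exact h3

/-- Exchange the last two. -/
theorem e23 (w : Fin n) (s : Bool) (a b c : Fin n) (hR : ¬ R b c) :
    C R (cons w s a b c) ≤ C R (cons w s a c b) := by
  apply C_swap b c hR (fun σ _ h => h.2.1)
  intro σ _ h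
  obtain ⟨n1, n2, n3, n4, n5, n6⟩ := cons_ne h
  obtain ⟨h1, h2, h3⟩ := h
  refine ⟨?_, ?_, ?_⟩
  · rw [po_swap_right, po_swap_of σ n1 n3, h1]
  · rw [po_swap_left, po_swap_right, h2]
  · cases s
    · simp only [Bool.false_eq_true, if_false] at h3 ⊢
      rw [po_swap_of σ n5 n6, po_swap_of σ n1 n3]; exact h3
    · simp only [if_true] at h3 ⊢
      rw [po_swap_left, po_swap_of σ n5 n6]; exact h3

theorem e_zero (w : Fin n) (s : Bool) (a b c : Fin n) (h : R b a ∨ R c b ∨ R c a) :
    C R (cons w s a b c) = 0 := by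
  classical
  unfold C
  rw [Finset.card_eq_zero, Finset.filter_eq_empty_iff]
  rintro σ hσ ⟨h1, h2, _⟩
  rcases h with h | h | h
  · have := mem_LX.1 hσ _ _ h
    have h3 : po σ b < po σ a := this
    omega
  · have := mem_LX.1 hσ _ _ h
    have h3 : po σ c < po σ b := this
    omega
  · have := mem_LX.1 hσ _ _ h
    have h3 : po σ c < po σ a := this
    omega

theorem not_through {u v t : Fin n} (h : Inc R u v) : ¬ (R u t ∧ R t v) := by
  rintro ⟨h1, h2⟩
  obtain ⟨σ, hσ, h3⟩ := h.2
  have h4 : po σ u < po σ t := mem_LX.1 hσ _ _ h1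
  have h5 : po σ t < po σ v := mem_LX.1 hσ _ _ h2
  omega

/-- One block. -/
theorem block (w : Fin n) (s : Bool) (t : Fin n) {u v : Fin n} (h : Inc R u v) :
    2 * (C R (cons w s u t v) + C R (cons w s v t u)) ≤
      C R (cons w s t u v) + C R (cons w s t v u) + C R (cons w s u v t) + C R (cons w s v u t) := by
  have a1 := e23 (R := R) w s t u v h.not_rel
  have a2 := e23 (R := R) w s t v u h.symm.not_rel
  have a3 := e12 (R := R) w s u v t h.not_rel
  have a4 := e12 (R := R) w s v u t h.symm.not_rel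
  have n1 := not_through (t := t) h
  have n2 := not_through (t := t) h.symm
  by_cases r1 : R u t
  · have z1 := e_zero (R := R) w s v t u (Or.inr (Or.inl r1))
    have r2 : ¬ R t v := fun r2 => n1 ⟨r1, r2⟩
    have b1 := e23 (R := R) w s u t v r2
    omega
  · by_cases r2 : R t v
    · have z1 := e_zero (R := R) w s v t u (Or.inl r2)
      have b1 := e12 (R := R) w s u t v r1
      omega
    · by_cases r3 : R v t
      · have z1 := e_zero (R := R) w s u t v (Or.inr (Or.inl r3))
        have r4 : ¬ R t u := fun r4 => n2 ⟨r3, r4⟩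
        have b1 := e23 (R := R) w s v t u r4
        omega
      · by_cases r4 : R t u
        · have z1 := e_zero (R := R) w s u t v (Or.inl r4)
          have b1 := e12 (R := R) w s v t u r3
          omega
        · have b1 := e23 (R := R) w s u t v r2
          have b2 := e12 (R := R) w s u t v r1
          have b3 := e23 (R := R) w s v t u r4
          have b4 := e12 (R := R) w s v t u r3
          omega

theorem C_split {p q s : Equiv.Perm (Fin n) → Prop} (h1 : ∀ σ ∈ LX R, p σ → s σ)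
    (h2 : ∀ σ ∈ LX R, q σ → s σ) (h3 : ∀ σ ∈ LX R, p σ → ¬ q σ) : C R p + C R q ≤ C R s := by
  classical
  unfold C
  rw [← Finset.card_union_of_disjoint]
  · apply Finset.card_le_card
    intro σ hσ
    rw [mem_union, mem_filter, mem_filter] at hσ
    rw [mem_filter]
    rcases hσ with hσ | hσ
    · exact ⟨hσ.1, h1 σ hσ.1 hσ.2⟩
    · exact ⟨hσ.1, h2 σ hσ.1 hσ.2⟩
  · rw [Finset.disjoint_left]
    intro σ k1 k2
    rw [mem_filter] at k1 k2
    exact h3 σ k1.1 k1.2 k2.2

theorem main_after {u v w : Fin n} (h : Inc R u v) :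
    2 * (C R (fun σ => po σ v = po σ u + 2 ∧ po σ v < po σ w) +
        C R (fun σ => po σ u = po σ v + 2 ∧ po σ u < po σ w)) +
      C R (fun σ => po σ v = po σ u + 1 ∧ po σ w = po σ v + 1) +
      C R (fun σ => po σ u = po σ v + 1 ∧ po σ w = po σ u + 1) ≤
    2 * (C R (fun σ => po σ v = po σ u + 1 ∧ po σ v < po σ w) +
        C R (fun σ => po σ u = po σ v + 1 ∧ po σ u < po σ w)) := by
  have hD : ∀ a b : Fin n, C R (fun σ => po σ b = po σ a + 2 ∧ po σ b < po σ w) ≤
      ∑ t, C R (cons w true a t b) := by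
    intro a b
    apply le_sum
    rintro σ _ ⟨h1, h2⟩
    have h3 := po_lt_n σ b
    obtain ⟨t, ht⟩ := exists_at σ (k := po σ a + 1) (by omega)
    exact ⟨t, ht, by omega, by simpa using h2⟩
  have hA1 : ∀ a b : Fin n, ∑ t, C R (cons w true t a b) ≤
      C R (fun σ => po σ b = po σ a + 1 ∧ po σ b < po σ w) := by
    intro a b
    apply sum_le
    · rintro t σ _ ⟨h1, h2, h3⟩
      exact ⟨h2, by simpa using h3⟩
    · rintro s t σ _ ⟨h1, _, _⟩ ⟨h2, _, _⟩
      exact po_inj.1 (show po σ s = po σ t by omega)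
  have hA2 : ∀ a b : Fin n, ∑ t, C R (cons w true a b t) +
      C R (fun σ => po σ b = po σ a + 1 ∧ po σ w = po σ b + 1) ≤
      C R (fun σ => po σ b = po σ a + 1 ∧ po σ b < po σ w) := by
    intro a b
    have k1 : ∑ t, C R (cons w true a b t) ≤
        C R (fun σ => po σ b = po σ a + 1 ∧ po σ b + 1 < po σ w) := by
      apply sum_le
      · rintro t σ _ ⟨h1, h2, h3⟩
        simp only [if_true] at h3
        exact ⟨h1, by omega⟩
      · rintro s t σ _ ⟨_, h1, _⟩ ⟨_, h2, _⟩
        exact po_inj.1 (show po σ s = po σ t by omega)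
    have k2 := C_split (R := R) (p := fun σ => po σ b = po σ a + 1 ∧ po σ b + 1 < po σ w)
      (q := fun σ => po σ b = po σ a + 1 ∧ po σ w = po σ b + 1)
      (s := fun σ => po σ b = po σ a + 1 ∧ po σ b < po σ w)
      (fun σ _ h => ⟨h.1, by omega⟩) (fun σ _ h => ⟨h.1, by omega⟩) (fun σ _ h h' => by omega)
    omega
  have hB : 2 * (∑ t, C R (cons w true u t v) + ∑ t, C R (cons w true v t u)) ≤
      ∑ t, C R (cons w true t u v) + ∑ t, C R (cons w true t v u) +
      ∑ t, C R (cons w true u v t) + ∑ t, C R (cons w true v u t) := by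
    rw [← Finset.sum_add_distrib, ← Finset.sum_add_distrib, ← Finset.sum_add_distrib,
      ← Finset.sum_add_distrib, Finset.mul_sum]
    exact Finset.sum_le_sum fun t _ => block w true t h
  have d1 := hD u v
  have d2 := hD v u
  have a1 := hA1 u v
  have a2 := hA1 v u
  have a3 := hA2 u v
  have a4 := hA2 v u
  omega

theorem main_before {u v w : Fin n} (h : Inc R u v) :
    2 * (C R (fun σ => po σ w < po σ u ∧ po σ v = po σ u + 2) +
        C R (fun σ => po σ w < po σ v ∧ po σ u = po σ v + 2)) +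
      C R (fun σ => po σ u = po σ w + 1 ∧ po σ v = po σ u + 1) +
      C R (fun σ => po σ v = po σ w + 1 ∧ po σ u = po σ v + 1) ≤
    2 * (C R (fun σ => po σ w < po σ u ∧ po σ v = po σ u + 1) +
        C R (fun σ => po σ w < po σ v ∧ po σ u = po σ v + 1)) := by
  have hD : ∀ a b : Fin n, C R (fun σ => po σ w < po σ a ∧ po σ b = po σ a + 2) ≤
      ∑ t, C R (cons w false a t b) := by
    intro a b
    apply le_sum
    rintro σ _ ⟨h1, h2⟩
    have h3 := po_lt_n σ b
    obtain ⟨t, ht⟩ := exists_at σ (k := po σ a + 1) (by omega)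
    exact ⟨t, ht, by omega, by simpa using h1⟩
  have hA1 : ∀ a b : Fin n, ∑ t, C R (cons w false a b t) ≤
      C R (fun σ => po σ w < po σ a ∧ po σ b = po σ a + 1) := by
    intro a b
    apply sum_le
    · rintro t σ _ ⟨h1, h2, h3⟩
      exact ⟨by simpa using h3, h1⟩
    · rintro s t σ _ ⟨_, h1, _⟩ ⟨_, h2, _⟩
      exact po_inj.1 (show po σ s = po σ t by omega)
  have hA2 : ∀ a b : Fin n, ∑ t, C R (cons w false t a b) +
      C R (fun σ => po σ a = po σ w + 1 ∧ po σ b = po σ a + 1) ≤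
      C R (fun σ => po σ w < po σ a ∧ po σ b = po σ a + 1) := by
    intro a b
    have k1 : ∑ t, C R (cons w false t a b) ≤
        C R (fun σ => po σ w + 1 < po σ a ∧ po σ b = po σ a + 1) := by
      apply sum_le
      · rintro t σ _ ⟨h1, h2, h3⟩
        simp only [Bool.false_eq_true, if_false] at h3
        exact ⟨by omega, h2⟩
      · rintro s t σ _ ⟨h1, _, _⟩ ⟨h2, _, _⟩
        exact po_inj.1 (show po σ s = po σ t by omega)
    have k2 := C_split (R := R) (p := fun σ => po σ w + 1 < po σ a ∧ po σ b = po σ a + 1)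
      (q := fun σ => po σ a = po σ w + 1 ∧ po σ b = po σ a + 1)
      (s := fun σ => po σ w < po σ a ∧ po σ b = po σ a + 1)
      (fun σ _ h => ⟨by omega, h.2⟩) (fun σ _ h => ⟨by omega, h.2⟩) (fun σ _ h h' => by omega)
    omega
  have hB : 2 * (∑ t, C R (cons w false u t v) + ∑ t, C R (cons w false v t u)) ≤
      ∑ t, C R (cons w false t u v) + ∑ t, C R (cons w false t v u) +
      ∑ t, C R (cons w false u v t) + ∑ t, C R (cons w false v u t) := by
    rw [← Finset.sum_add_distrib, ← Finset.sum_add_distrib, ← Finset.sum_add_distrib,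
      ← Finset.sum_add_distrib, Finset.mul_sum]
    exact Finset.sum_le_sum fun t _ => block w false t h
  have d1 := hD u v
  have d2 := hD v u
  have a1 := hA1 u v
  have a2 := hA1 v u
  have a3 := hA2 u v
  have a4 := hA2 v u
  omega

theorem Pr_C (p : Equiv.Perm (Fin n) → Prop) : Pr R p = (C R p : ℝ) / (LX R).card := by
  classical
  rw [Pr_def]
  unfold C
  congr

theorem ray (hswt : SwtStmt) : RayStmt := by
  intro n R u v w h hwu hwv
  obtain ⟨s1, s2, s3, s4⟩ := hswt n R u v w h hwu hwv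
  have hN := card_pos_real h.nonempty
  constructor
  · have k := main_after (w := w) h
    have k' : (2 * ((C R (fun σ => po σ v = po σ u + 2 ∧ po σ v < po σ w) : ℝ) +
        C R (fun σ => po σ u = po σ v + 2 ∧ po σ u < po σ w)) +
      C R (fun σ => po σ v = po σ u + 1 ∧ po σ w = po σ v + 1) +
      C R (fun σ => po σ u = po σ v + 1 ∧ po σ w = po σ u + 1)) / (LX R).card ≤
    (2 * ((C R (fun σ => po σ v = po σ u + 1 ∧ po σ v < po σ w) : ℝ) +
        C R (fun σ => po σ u = po σ v + 1 ∧ po σ u < po σ w))) / (LX R).card := by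
      apply div_le_div_of_nonneg_right _ hN.le
      exact_mod_cast k
    have e1 : da R u v w = (C R (fun σ => po σ v = po σ u + 2 ∧ po σ v < po σ w) : ℝ) /
      (LX R).card := Pr_C _
    have e2 : da R v u w = (C R (fun σ => po σ u = po σ v + 2 ∧ po σ u < po σ w) : ℝ) /
      (LX R).card := Pr_C _
    have e3 : tt R u v w = (C R (fun σ => po σ v = po σ u + 1 ∧ po σ w = po σ v + 1) : ℝ) /
      (LX R).card := Pr_C _
    have e4 : tt R v u w = (C R (fun σ => po σ u = po σ v + 1 ∧ po σ w = po σ u + 1) : ℝ) /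
      (LX R).card := Pr_C _
    have e5 : ra R u v w = (C R (fun σ => po σ v = po σ u + 1 ∧ po σ v < po σ w) : ℝ) /
      (LX R).card := Pr_C _
    have e6 : ra R v u w = (C R (fun σ => po σ u = po σ v + 1 ∧ po σ u < po σ w) : ℝ) /
      (LX R).card := Pr_C _
    have k2 : 2 * (da R u v w + da R v u w) + tt R u v w + tt R v u w ≤
        2 * (ra R u v w + ra R v u w) := by
      rw [e1, e2, e3, e4, e5, e6]
      convert k' using 1 <;> ring
    rw [← s1, ← s3] at k2
    linarith
  · have k := main_before (w := w) h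
    have k' : (2 * ((C R (fun σ => po σ w < po σ u ∧ po σ v = po σ u + 2) : ℝ) +
        C R (fun σ => po σ w < po σ v ∧ po σ u = po σ v + 2)) +
      C R (fun σ => po σ u = po σ w + 1 ∧ po σ v = po σ u + 1) +
      C R (fun σ => po σ v = po σ w + 1 ∧ po σ u = po σ v + 1)) / (LX R).card ≤
    (2 * ((C R (fun σ => po σ w < po σ u ∧ po σ v = po σ u + 1) : ℝ) +
        C R (fun σ => po σ w < po σ v ∧ po σ u = po σ v + 1))) / (LX R).card := by
      apply div_le_div_of_nonneg_right _ hN.le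
      exact_mod_cast k
    have e1 : db R w u v = (C R (fun σ => po σ w < po σ u ∧ po σ v = po σ u + 2) : ℝ) /
      (LX R).card := Pr_C _
    have e2 : db R w v u = (C R (fun σ => po σ w < po σ v ∧ po σ u = po σ v + 2) : ℝ) /
      (LX R).card := Pr_C _
    have e3 : tt R w u v = (C R (fun σ => po σ u = po σ w + 1 ∧ po σ v = po σ u + 1) : ℝ) /
      (LX R).card := Pr_C _
    have e4 : tt R w v u = (C R (fun σ => po σ v = po σ w + 1 ∧ po σ u = po σ v + 1) : ℝ) /
      (LX R).card := Pr_C _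
    have e5 : rb R w u v = (C R (fun σ => po σ w < po σ u ∧ po σ v = po σ u + 1) : ℝ) /
      (LX R).card := Pr_C _
    have e6 : rb R w v u = (C R (fun σ => po σ w < po σ v ∧ po σ u = po σ v + 1) : ℝ) /
      (LX R).card := Pr_C _
    have k2 : 2 * (db R w u v + db R w v u) + tt R w u v + tt R w v u ≤
        2 * (rb R w u v + rb R w v u) := by
      rw [e1, e2, e3, e4, e5, e6]
      convert k' using 1 <;> ring
    rw [← s2, ← s4] at k2
    linarith

end Pool.Agent.Helper89.GP.RAY
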