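import Pool.Agent.Helper89.GP.GoalsC

/-!
# From relations on `Fin n` to finite posets
-/

namespace Pool.Agent.Helper89.GP

open Finset

universe u

section

variable (α : Type u) [Fintype α] [PartialOrder α]

/-- The relation on `Fin n`. -/
def rel : Fin (Fintype.card α) → Fin (Fintype.card α) → Prop := fun i j =>
  (Fintype.equivFin α).symm i < (Fintype.equivFin α).symm j

variable {α}

/-- From bijections to permutations. -/
noncomputable def toP (f : α ≃ Fin (Fintype.card α)) : Equiv.Perm (Fin (Fintype.card α)) :=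
  (Fintype.equivFin α).symm.trans f

theorem toP_inj : Function.Injective (toP (α := α)) := by
  intro f g h
  ext a
  have h1 := congrArg (fun σ : Equiv.Perm (Fin (Fintype.card α)) => σ (Fintype.equivFin α a)) h
  simp only [toP, Equiv.trans_apply, Equiv.symm_apply_apply] at h1
  rw [h1]

theorem toP_surj : Function.Surjective (toP (α := α)) := by
  intro σ
  refine ⟨(Fintype.equivFin α).trans σ, ?_⟩
  ext i
  simp [toP]

theorem toP_apply (f : α ≃ Fin (Fintype.card α)) (a : α) :
    toP f (Fintype.equivFin α a) = f a := by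
  simp [toP]

theorem toP_mem (f : α ≃ Fin (Fintype.card α)) : toP f ∈ LX (rel α) ↔ StrictMono f := by
  unfold LX
  simp only [mem_filter, mem_univ, true_and]
  constructor
  · intro h a b hab
    have := h (Fintype.equivFin α a) (Fintype.equivFin α b) (by simpa [rel] using hab)
    rwa [toP_apply, toP_apply] at this
  · intro h i j hij
    have := h hij
    exact this

/-- Counting. -/
theorem ncard_toP (S : Finset (Equiv.Perm (Fin (Fintype.card α))))
    (T : Set (α ≃ Fin (Fintype.card α))) (h : ∀ f, f ∈ T ↔ toP f ∈ S) : T.ncard = S.card := by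
  classical
  rw [← Set.ncard_coe_finset S]
  have h1 : ((S : Finset _) : Set (Equiv.Perm (Fin (Fintype.card α)))) = toP '' T := by
    ext σ
    constructor
    · intro hσ
      obtain ⟨f, rfl⟩ := toP_surj σ
      exact ⟨f, (h f).2 hσ, rfl⟩
    · rintro ⟨f, hf, rfl⟩
      exact (h f).1 hf
  rw [h1, Set.ncard_image_of_injective _ toP_inj]

end

/-- The linear extensions of a finite poset, as strictly monotone bijections onto `Fin n`. -/
def LinExt (α : Type u) [Fintype α] [PartialOrder α] : Set (α ≃ Fin (Fintype.card α)) :=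
  {f | StrictMono (f : α → Fin (Fintype.card α))}

theorem ncard_LinExt (α : Type u) [Fintype α] [PartialOrder α] :
    (LinExt α).ncard = (LX (rel α)).card :=
  ncard_toP _ _ fun f => (toP_mem f).symm

/-- Two linear extensions exist if two elements are incomparable. -/
theorem two_le (hfnb : ∀ (n : ℕ) (R : Fin n → Fin n → Prop), 2 ≤ (LX R).card → Good (LX R))
    (α : Type u) [Fintype α] [PartialOrder α] (h2 : 2 ≤ (LinExt α).ncard) :
    ∃ a b : α, ¬ a ≤ b ∧ ¬ b ≤ a ∧
      ∀ u v : α, ((u = a ∧ v = b) ∨ (u = b ∧ v = a)) →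
        ∃ c d : α, c ≠ d ∧ ∀ w z : α, ((w = c ∧ z = d) ∨ (w = d ∧ z = c)) →
          2 * {f ∈ LinExt α | f u < f v ∧ f w < f z}.ncard ≤ (LinExt α).ncard := by
  classical
  have h3 : 2 ≤ (LX (rel α)).card := by rwa [← ncard_LinExt]
  obtain ⟨i, j, hij, hG⟩ := hfnb _ _ h3
  set e := Fintype.equivFin α with he
  -- translation of the counts
  have hc : ∀ u v w z : α, {f ∈ LinExt α | f u < f v ∧ f w < f z}.ncard =
      ((LX (rel α)).filter fun σ => σ (e u) < σ (e v) ∧ σ (e w) < σ (e z)).card := by
    intro u v w z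
    apply ncard_toP
    intro f
    rw [mem_filter, toP_mem]
    rw [toP_apply, toP_apply, toP_apply, toP_apply]
    exact Iff.rfl
  have hG' : ∀ u v : α, ((u = e.symm i ∧ v = e.symm j) ∨ (u = e.symm j ∧ v = e.symm i)) →
        ∃ c d : α, c ≠ d ∧ ∀ w z : α, ((w = c ∧ z = d) ∨ (w = d ∧ z = c)) →
          2 * {f ∈ LinExt α | f u < f v ∧ f w < f z}.ncard ≤ (LinExt α).ncard := by
    intro u v huv
    have h4 : (e u = i ∧ e v = j) ∨ (e u = j ∧ e v = i) := by
      rcases huv with ⟨rfl, rfl⟩ | ⟨rfl, rfl⟩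
      · left; simp
      · right; simp
    obtain ⟨c, d, hcd, h5⟩ := hG (e u) (e v) h4
    refine ⟨e.symm c, e.symm d, fun h => hcd (e.symm.injective h), ?_⟩
    intro w z hwz
    rw [hc, ncard_LinExt]
    apply h5
    rcases hwz with ⟨rfl, rfl⟩ | ⟨rfl, rfl⟩
    · left; simp
    · right; simp
  by_cases hinc : ¬ e.symm i ≤ e.symm j ∧ ¬ e.symm j ≤ e.symm i
  · exact ⟨e.symm i, e.symm j, hinc.1, hinc.2, hG'⟩
  · -- the first pair is comparable: the second comparison alone is balanced
    have hne : e.symm i ≠ e.symm j := fun h => hij (e.symm.injective h)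
    have h6 : ∃ u v : α, u < v ∧ ((u = e.symm i ∧ v = e.symm j) ∨ (u = e.symm j ∧ v = e.symm i)) := by
      by_cases h7 : e.symm i ≤ e.symm j
      · exact ⟨_, _, lt_of_le_of_ne h7 hne, Or.inl ⟨rfl, rfl⟩⟩
      · have h8 : e.symm j ≤ e.symm i := by
          by_contra h9; exact hinc ⟨h7, h9⟩
        exact ⟨_, _, lt_of_le_of_ne h8 hne.symm, Or.inr ⟨rfl, rfl⟩⟩
    obtain ⟨u, v, huv, h7⟩ := h6
    obtain ⟨c, d, hcd, h8⟩ := hG' u v h7
    have h9 := h8 c d (Or.inl ⟨rfl, rfl⟩)
    have h10 := h8 d c (Or.inr ⟨rfl, rfl⟩)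
    have hset : ∀ w z : α, {f ∈ LinExt α | f u < f v ∧ f w < f z} = {f ∈ LinExt α | f w < f z} := by
      intro w z
      ext f
      constructor
      · rintro ⟨h1, _, h3⟩; exact ⟨h1, h3⟩
      · rintro ⟨h1, h3⟩; exact ⟨h1, h1 huv, h3⟩
    rw [hset] at h9 h10
    have hle : ∀ p q w z : α, {f ∈ LinExt α | f p < f q ∧ f w < f z}.ncard ≤
        {f ∈ LinExt α | f p < f q}.ncard := by
      intro p q w z
      exact Set.ncard_le_ncard (fun f hf => ⟨hf.1, hf.2.1⟩) (Set.toFinite _)
    -- the sum of the two is everything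
    have hpart : {f ∈ LinExt α | f c < f d}.ncard + {f ∈ LinExt α | f d < f c}.ncard =
        (LinExt α).ncard := by
      rw [← Set.ncard_union_eq]
      · congr 1
        ext f
        constructor
        · rintro (⟨h1, _⟩ | ⟨h1, _⟩) <;> exact h1
        · intro h1
          rcases lt_trichotomy (f c) (f d) with h2 | h2 | h2
          · exact Or.inl ⟨h1, h2⟩
          · exact absurd (f.injective h2) hcd
          · exact Or.inr ⟨h1, h2⟩
      · rw [Set.disjoint_left]
        rintro f ⟨_, h1⟩ ⟨_, h2⟩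
        exact lt_asymm h1 h2
    refine ⟨c, d, ?_, ?_, ?_⟩
    · intro h
      have h11 : c < d := lt_of_le_of_ne h hcd
      have h12 : {f ∈ LinExt α | f d < f c} = ∅ := by
        ext f
        constructor
        · rintro ⟨h1, h2⟩; exact absurd (h1 h11) (lt_asymm h2)
        · intro h; exact absurd h (Set.notMem_empty _)
      rw [h12, Set.ncard_empty] at hpart
      omega
    · intro h
      have h11 : d < c := lt_of_le_of_ne h hcd.symm
      have h12 : {f ∈ LinExt α | f c < f d} = ∅ := by
        ext f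
        constructor
        · rintro ⟨h1, h2⟩; exact absurd (h1 h11) (lt_asymm h2)
        · intro h; exact absurd h (Set.notMem_empty _)
      rw [h12, Set.ncard_empty] at hpart
      omega
    · intro p q hpq
      refine ⟨c, d, hcd, fun w z _ => ?_⟩
      have h13 := hle p q w z
      rcases hpq with ⟨rfl, rfl⟩ | ⟨rfl, rfl⟩ <;> omega

/-- Comparisons determine the member of a set of bijections. -/
def Sortable {α : Type u} {n : ℕ} : ℕ → Set (α ≃ Fin n) → Prop
  | 0, S => S.ncard ≤ 1
  | d + 1, S => S.ncard ≤ 1 ∨ ∃ a b : α, Sortable d {f ∈ S | f a < f b} ∧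
      Sortable d {f ∈ S | ¬ f a < f b}

theorem sortable_of {α : Type u} [Fintype α] [PartialOrder α] : ∀ (d : ℕ)
    (S : Finset (Equiv.Perm (Fin (Fintype.card α)))) (T : Set (α ≃ Fin (Fintype.card α))),
    (∀ f, f ∈ T ↔ toP f ∈ S) → DTree d S → Sortable d T := by
  intro d
  induction d with
  | zero =>
    intro S T h hD
    show T.ncard ≤ 1
    rw [ncard_toP S T h]
    exact hD
  | succ d ih =>
    intro S T h hD
    rcases hD with hD | ⟨i, j, h1, h2⟩
    · left
      rw [ncard_toP S T h]
      exact hD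
    · right
      refine ⟨(Fintype.equivFin α).symm i, (Fintype.equivFin α).symm j, ih _ _ ?_ h1, ih _ _ ?_ h2⟩
      · intro f
        rw [mem_filter, ← h f]
        exact Iff.rfl
      · intro f
        rw [mem_filter, ← h f]
        exact Iff.rfl

theorem sortable_log (hfnc : FncStmt) (α : Type u) [Fintype α] [PartialOrder α] :
    Sortable (2 * Nat.log 2 (LinExt α).ncard) (LinExt α) := by
  apply sortable_of _ (LX (rel α)) _ (fun f => (toP_mem f).symm)
  rw [ncard_LinExt]
  exact hfnc _ _ _ (Nat.lt_pow_succ_log_self (by norm_num) _)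

end Pool.Agent.Helper89.GP
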