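import Pool.Agent.Helper96.GP.PEEL
import Pool.Agent.Helper12.GP.MST
import Pool.Agent.Helper94.GP.GMB
import Pool.Agent.Helper49.GP.GMC
import Pool.Agent.Helper42.GP.GAM
import Pool.Agent.Helper83.GP.Cone
import Pool.Agent.Helper33.GP.SMO
import Pool.Agent.Helper35.GP.LCG
import Pool.Agent.Helper85.GP.PRD
import Pool.Agent.Helper39.GP.NNA
import Pool.Agent.Helper2.GP.POS
import Pool.Agent.Helper50.GP.EXB
import Pool.Agent.Helper83.GP.BTW
import Pool.Agent.Helper89.GP.BTH
import Pool.Agent.Helper16.GP.QFK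
import Pool.Agent.Helper65.GP.RWJ
import Pool.Agent.Helper81.GP.RW5
import Pool.Agent.Helper56.GP.RW4
import Pool.Agent.Helper35.GP.ADJ
import Pool.Agent.Helper82.GP.SEC
import Pool.Agent.Helper9.GP.HLF
import Pool.Agent.Helper89.GP.RAY
import Pool.Agent.Helper79.GP.DCA
import Pool.Agent.Helper24.GP.DCB
import Pool.Agent.Helper13.GP.XYF
import Pool.Agent.Helper15.GP.XYC
import Pool.Agent.Helper86.GP.XYN
import Pool.Agent.Helper40.GP.XYZ
import Pool.Agent.Helper88.GP.CHN
import Pool.Agent.Helper77.GP.KSN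
import Pool.Agent.Helper30.GP.NUM
import Pool.Agent.Helper51.GP.XYK
import Pool.Agent.Helper22.GP.PAR
import Pool.Agent.Helper61.GP.MNB
import Pool.Agent.Helper61.GP.MNC
import Pool.Agent.Helper89.GP.MNA
import Pool.Agent.Helper60.GP.GLO
import Pool.Agent.Helper75.GP.KSA
import Pool.Agent.Helper10.GP.FNA
import Pool.Agent.Helper4.GP.FNC
import Pool.Agent.Helper89.GP.Trans

/-! MP_480c30_co (project GP): the assembly of the halving theorem from its goals. -/

namespace Pool.Agent.Helper89.GP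

theorem all_lcg : LcgStmt := by
  have h1 := Pool.Agent.Helper96.GP.peel
  have h2 := Pool.Agent.Helper12.GP.mst h1
  have h3 := Pool.Agent.Helper94.GP.gmb h1 h2
  have h4 := Pool.Agent.Helper49.GP.gmc h1 h3
  have h5 := Pool.Agent.Helper42.GP.gam h4
  have h6 := Pool.Agent.Helper83.GP.con h5
  have h7 := Pool.Agent.Helper33.GP.smo h6
  exact Pool.Agent.Helper35.GP.lcg h7

theorem all_par : ParStmt := by
  have hl := all_lcg
  have hprd := Pool.Agent.Helper85.GP.prd hl
  have hnna := Pool.Agent.Helper39.GP.nna hprd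
  have hpos := Pool.Agent.Helper2.GP.pos hl
  have hexb := Pool.Agent.Helper50.GP.exb hl hpos
  have hbtw := Pool.Agent.Helper83.GP.btw hexb
  have hbth := Pool.Agent.Helper89.GP.bth hprd
  exact Pool.Agent.Helper22.GP.par Pool.Agent.Helper35.GP.adj hnna hpos hexb hbtw hbth
    Pool.Agent.Helper9.GP.hlf Pool.Agent.Helper24.GP.dcb
    (Pool.Agent.Helper65.GP.rwj Pool.Agent.Helper16.GP.qfk) Pool.Agent.Helper81.GP.rw5
    Pool.Agent.Helper56.GP.rw4

theorem all_fnb : FnbStmt := by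
  have hpar := all_par
  have hksn := Pool.Agent.Helper77.GP.ksn
  have hdcb := Pool.Agent.Helper24.GP.dcb
  have hxyz := Pool.Agent.Helper40.GP.xyz Pool.Agent.Helper13.GP.xyf Pool.Agent.Helper15.GP.xyc
    Pool.Agent.Helper86.GP.xyn
  have hmna := Pool.Agent.Helper89.GP.mna hpar hksn Pool.Agent.Helper77.GP.sml
    Pool.Agent.Helper35.GP.swt Pool.Agent.Helper82.GP.sec Pool.Agent.Helper9.GP.hlf
    (Pool.Agent.Helper89.GP.RAY.ray Pool.Agent.Helper35.GP.swt) Pool.Agent.Helper79.GP.dca hdcb hxyz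
    Pool.Agent.Helper51.GP.xyk
  have hmnb := Pool.Agent.Helper61.GP.mnb hpar hksn
  have hmnc := Pool.Agent.Helper61.GP.mnc hpar Pool.Agent.Helper30.GP.num Pool.Agent.Helper35.GP.adj
    hdcb
  have hglo := Pool.Agent.Helper60.GP.glo hmna hmnb hmnc hpar hksn Pool.Agent.Helper88.GP.chn hdcb
  have hksa := Pool.Agent.Helper75.GP.ksa hpar hksn Pool.Agent.Helper88.GP.fxd hdcb
  exact Pool.Agent.Helper10.GP.fnb hglo (Pool.Agent.Helper10.GP.fna hksa)

theorem all_fnc : FncStmt := Pool.Agent.Helper4.GP.fnc all_fnb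

end Pool.Agent.Helper89.GP
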