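import Pool.Agent.Helper89.GP.Defs

/-!
# Chords of the convex functions in `RW`
-/

namespace Pool.Agent.Helper89.GP

open Set

/-- `1 / s` is below its chord. -/
theorem inv_conv {a b s : ℝ} (ha : 0 < a) (hab : a < b) (h1 : a ≤ s) (h2 : s ≤ b) :
    1 / s ≤ 1 / a + (1 / b - 1 / a) / (b - a) * (s - a) := by
  have hs : 0 < s := ha.trans_le h1
  have hb : 0 < b := ha.trans hab
  have hba : 0 < b - a := by linarith
  have e1 : 1 / a + (1 / b - 1 / a) / (b - a) * (s - a) - 1 / s = (s - a) * (b - s) / (a * b * s) := by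
    field_simp
    ring
  have e2 : 0 ≤ (s - a) * (b - s) / (a * b * s) :=
    div_nonneg (mul_nonneg (by linarith) (by linarith)) (by positivity)
  linarith

theorem convexOn_inv_pos : ConvexOn ℝ (Ioi (0 : ℝ)) fun s => 1 / s := by
  have := convexOn_zpow (𝕜 := ℝ) (-1)
  simpa [zpow_neg_one, one_div] using this

/-- General chord. -/
theorem chord {f : ℝ → ℝ} (hf : ConvexOn ℝ (Ioi (0 : ℝ)) f) {A c g T a b Ha Hb : ℝ} (hA : 0 < A)
    (ha : 0 < a) (hab : a < b) (h1 : a * A ≤ c) (h2 : c ≤ b * A) (hg : T - A * f (c / A) ≤ g)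
    (fa : f a ≤ Ha) (fb : f b ≤ Hb) :
    T - (Ha * A + (Hb - Ha) / (b - a) * (c - a * A)) ≤ g := by
  have hb : 0 < b := ha.trans hab
  have hba : 0 < b - a := by linarith
  set s := c / A with hs
  have hs1 : a ≤ s := by rw [hs, le_div_iff₀ hA]; exact h1
  have hs2 : s ≤ b := by rw [hs, div_le_iff₀ hA]; exact h2
  have hc : c = s * A := by rw [hs]; field_simp
  have e1 : f s ≤ ((b - s) / (b - a)) * f a + ((s - a) / (b - a)) * f b := by
    have h3 := hf.2 (show a ∈ Ioi (0 : ℝ) from ha) (show b ∈ Ioi (0 : ℝ) from hb)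
      (div_nonneg (by linarith : 0 ≤ b - s) hba.le) (div_nonneg (by linarith : 0 ≤ s - a) hba.le)
      (by field_simp; ring)
    have h4 : ((b - s) / (b - a)) • a + ((s - a) / (b - a)) • b = s := by
      simp only [smul_eq_mul]; field_simp; ring
    rw [h4] at h3
    simpa [smul_eq_mul] using h3
  have e2 : ((b - s) / (b - a)) * f a ≤ ((b - s) / (b - a)) * Ha :=
    mul_le_mul_of_nonneg_left fa (div_nonneg (by linarith) hba.le)
  have e3 : ((s - a) / (b - a)) * f b ≤ ((s - a) / (b - a)) * Hb :=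
    mul_le_mul_of_nonneg_left fb (div_nonneg (by linarith) hba.le)
  have e4 : ((b - s) / (b - a)) * Ha + ((s - a) / (b - a)) * Hb =
      Ha + (Hb - Ha) / (b - a) * (s - a) := by
    field_simp; ring
  have e5 : A * f s ≤ A * (Ha + (Hb - Ha) / (b - a) * (s - a)) :=
    mul_le_mul_of_nonneg_left (by linarith) hA.le
  have e6 : A * (Ha + (Hb - Ha) / (b - a) * (s - a)) =
      Ha * A + (Hb - Ha) / (b - a) * (c - a * A) := by rw [hc]; ring
  linarith

/-- The function of row 4. -/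
noncomputable def f4 (s : ℝ) : ℝ := 4 + s * (6 + 4 * s + s ^ 2) + 1 / s

/-- The function of row 5. -/
noncomputable def f5 (s : ℝ) : ℝ :=
  5 + s * (16 / 9 * Real.exp (3 / 2 * (1 + s)) + 20 / 9 + (1 + s) / 3) + 1 / s

/-- The function of row J. -/
noncomputable def fJ (τ s : ℝ) : ℝ := (1 + s) ^ 2 * Real.exp (s * τ) / s

theorem conv_id : ConvexOn ℝ (Ioi (0 : ℝ)) fun s : ℝ => s := convexOn_id (convex_Ioi 0)

theorem conv_pow (k : ℕ) : ConvexOn ℝ (Ioi (0 : ℝ)) fun s : ℝ => s ^ k :=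
  (convexOn_pow k).subset (Ioi_subset_Ici le_rfl) (convex_Ioi 0)

theorem conv_const (c : ℝ) : ConvexOn ℝ (Ioi (0 : ℝ)) fun _ : ℝ => c :=
  convexOn_const c (convex_Ioi 0)

theorem conv_f4 : ConvexOn ℝ (Ioi (0 : ℝ)) f4 := by
  have h := (((((conv_const 4).add ((conv_pow 1).smul (by norm_num : (0 : ℝ) ≤ 6))).add
    ((conv_pow 2).smul (by norm_num : (0 : ℝ) ≤ 4))).add (conv_pow 3)).add convexOn_inv_pos)
  refine h.congr fun s _ => ?_
  simp only [Pi.add_apply, Pi.smul_apply, smul_eq_mul, f4]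
  ring

/-- `exp (p + q s)` is convex. -/
theorem conv_exp (p q : ℝ) : ConvexOn ℝ (Ioi (0 : ℝ)) fun s : ℝ => Real.exp (p + q * s) := by
  refine ⟨convex_Ioi 0, ?_⟩
  intro x _ y _ a b ha hb hab
  have h := convexOn_exp.2 (mem_univ (p + q * x)) (mem_univ (p + q * y)) ha hb hab
  have e : p + q * (a • x + b • y) = a • (p + q * x) + b • (p + q * y) := by
    simp only [smul_eq_mul]
    have : p = (a + b) * p := by rw [hab, one_mul]
    linear_combination this
  show Real.exp (p + q * (a • x + b • y)) ≤ a • Real.exp (p + q * x) + b • Real.exp (p + q * y)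
  rw [e]
  exact h

/-- `s * exp (p + q s)` is convex for `q ≥ 0`. -/
theorem conv_mul_exp (p : ℝ) {q : ℝ} (hq : 0 ≤ q) :
    ConvexOn ℝ (Ioi (0 : ℝ)) fun s : ℝ => s * Real.exp (p + q * s) := by
  apply ConvexOn.mul conv_id (conv_exp p q)
  · intro x hx; exact le_of_lt hx
  · intro x _; exact (Real.exp_pos _).le
  · intro x _ y _ hxy
    have h1 : p + q * x < p + q * y := Real.exp_lt_exp.1 hxy
    show x ≤ y
    by_contra hcon
    push Not at hcon
    have := mul_le_mul_of_nonneg_left hcon.le hq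
    linarith

theorem conv_f5 : ConvexOn ℝ (Ioi (0 : ℝ)) f5 := by
  have h := (((((conv_const 5).add ((conv_mul_exp (3 / 2) (by norm_num : (0 : ℝ) ≤ 3 / 2)).smul
    (by norm_num : (0 : ℝ) ≤ 16 / 9))).add ((conv_pow 1).smul (by norm_num : (0 : ℝ) ≤ 23 / 9))).add
    ((conv_pow 2).smul (by norm_num : (0 : ℝ) ≤ 1 / 3))).add convexOn_inv_pos)
  refine h.congr fun s _ => ?_
  simp only [Pi.add_apply, Pi.smul_apply, smul_eq_mul, f5]
  rw [show (3 / 2 : ℝ) * (1 + s) = 3 / 2 + 3 / 2 * s by ring]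
  ring

/-- `exp (q s) / s` is convex. -/
theorem conv_exp_div (q : ℝ) : ConvexOn ℝ (Ioi (0 : ℝ)) fun s : ℝ => Real.exp (q * s) / s := by
  have h1 : ConvexOn ℝ (Ioi (0 : ℝ)) fun s : ℝ => q * s - Real.log s := by
    have h2 : ConvexOn ℝ (Ioi (0 : ℝ)) fun s : ℝ => q * s := by
      refine ⟨convex_Ioi 0, ?_⟩
      intro x _ y _ a b _ _ _
      simp only [smul_eq_mul]
      exact le_of_eq (by ring)
    exact h2.sub strictConcaveOn_log_Ioi.concaveOn
  have h3 : ConvexOn ℝ (Ioi (0 : ℝ)) fun s : ℝ => Real.exp (q * s - Real.log s) := by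
    refine ⟨convex_Ioi 0, ?_⟩
    intro x hx y hy a b ha hb hab
    have h4 := h1.2 hx hy ha hb hab
    have h5 := convexOn_exp.2 (mem_univ (q * x - Real.log x)) (mem_univ (q * y - Real.log y))
      ha hb hab
    exact (Real.exp_le_exp.2 h4).trans h5
  refine h3.congr fun s hs => ?_
  show Real.exp (q * s - Real.log s) = Real.exp (q * s) / s
  rw [Real.exp_sub, Real.exp_log hs]

theorem conv_fJ {τ : ℝ} (hτ : 0 ≤ τ) : ConvexOn ℝ (Ioi (0 : ℝ)) (fJ τ) := by
  have h := ((conv_exp_div τ).add ((conv_exp 0 τ).smul (by norm_num : (0 : ℝ) ≤ 2))).add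
    (conv_mul_exp 0 hτ)
  refine h.congr fun s hs => ?_
  have hs' : (s : ℝ) ≠ 0 := ne_of_gt hs
  simp only [Pi.add_apply, smul_eq_mul, fJ, zero_add]
  rw [mul_comm s τ]
  field_simp
  ring

/-- Row 4 on an interval. -/
theorem RW.ch4 {A c g N : ℝ} (r : RW A c g N) {a b Ha Hb : ℝ} (ha : 0 < a) (hab : a < b)
    (h1 : a * A ≤ c) (h2 : c ≤ b * A) (fa : f4 a ≤ Ha) (fb : f4 b ≤ Hb) :
    4 - (Ha * A + (Hb - Ha) / (b - a) * (c - a * A)) ≤ g :=
  chord conv_f4 (r.c0.trans_le r.cA) ha hab h1 h2 r.r4 fa fb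

theorem RW.ch5 {A c g N : ℝ} (r : RW A c g N) {a b Ha Hb : ℝ} (ha : 0 < a) (hab : a < b)
    (h1 : a * A ≤ c) (h2 : c ≤ b * A) (fa : f5 a ≤ Ha) (fb : f5 b ≤ Hb) :
    5 - (Ha * A + (Hb - Ha) / (b - a) * (c - a * A)) ≤ g :=
  chord conv_f5 (r.c0.trans_le r.cA) ha hab h1 h2 r.r5 fa fb

theorem RW.chJ {A c g N : ℝ} (r : RW A c g N) {a b Ha Hb τ : ℝ} (hτ : 0 ≤ τ) (ha : 0 < a)
    (hab : a < b) (h1 : a * A ≤ c) (h2 : c ≤ b * A) (fa : fJ τ a ≤ Ha) (fb : fJ τ b ≤ Hb) :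
    τ + 2 - (Ha * A + (Hb - Ha) / (b - a) * (c - a * A)) ≤ g :=
  chord (conv_fJ hτ) (r.c0.trans_le r.cA) ha hab h1 h2 (r.rJ τ hτ) fa fb

theorem RW.chN {A c g N : ℝ} (r : RW A c g N) {a b : ℝ} (ha : 0 < a) (hab : a < b)
    (h1 : a * A ≤ c) (h2 : c ≤ b * A) : N ≤ (a + b) / (a * b) * A - 1 / (a * b) * c := by
  have hb : 0 < b := ha.trans hab
  have hc := r.c0
  have hA : 0 < A := hc.trans_le r.cA
  have h3 : 0 ≤ (c - a * A) * (b * A - c) := mul_nonneg (by linarith) (by linarith)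
  have h4 : a * b * (c * N) ≤ a * b * A ^ 2 := mul_le_mul_of_nonneg_left r.Nc (by positivity)
  have h5 : c * (a * b * N) ≤ c * ((a + b) * A - c) := by nlinarith
  have h6 : a * b * N ≤ (a + b) * A - c := le_of_mul_le_mul_left h5 hc
  have h7 : N ≤ ((a + b) * A - c) / (a * b) := by
    rw [le_div_iff₀ (by positivity)]; linarith
  have h8 : ((a + b) * A - c) / (a * b) = (a + b) / (a * b) * A - 1 / (a * b) * c := by
    field_simp
  linarith

/-- An upper bound for `exp (k / 100)`. -/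
theorem exp_q (k : ℕ) : Real.exp ((k : ℝ) / 100) ≤ (1010050167084169 / 10 ^ 15 : ℝ) ^ k := by
  have h1 : Real.exp ((k : ℝ) / 100) = Real.exp (1 / 100) ^ k := by
    rw [← Real.exp_nat_mul]; congr 1; ring
  rw [h1]
  apply pow_le_pow_left₀ (Real.exp_pos _).le
  have h2 := Real.exp_bound' (x := 1 / 100) (by norm_num) (by norm_num) (n := 8) (by norm_num)
  refine h2.trans ?_
  norm_num [Finset.sum_range_succ, Nat.factorial]

theorem f5_le {a E H : ℝ} (k : ℕ) (ha : 0 ≤ a) (hk : 3 / 2 * (1 + a) = (k : ℝ) / 100)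
    (hE : (1010050167084169 / 10 ^ 15 : ℝ) ^ k ≤ E)
    (hH : 5 + a * (16 / 9 * E + 20 / 9 + (1 + a) / 3) + 1 / a ≤ H) : f5 a ≤ H := by
  refine le_trans ?_ hH
  unfold f5
  rw [hk]
  have h1 := (exp_q k).trans hE
  have h2 : a * (16 / 9 * Real.exp ((k : ℝ) / 100) + 20 / 9 + (1 + a) / 3) ≤
      a * (16 / 9 * E + 20 / 9 + (1 + a) / 3) := mul_le_mul_of_nonneg_left (by linarith) ha
  linarith

theorem fJ_le {a τ E H : ℝ} (k : ℕ) (ha : 0 < a) (hk : a * τ = (k : ℝ) / 100)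
    (hE : (1010050167084169 / 10 ^ 15 : ℝ) ^ k ≤ E) (hH : (1 + a) ^ 2 * E / a ≤ H) :
    fJ τ a ≤ H := by
  refine le_trans ?_ hH
  unfold fJ
  rw [hk]
  exact div_le_div_of_nonneg_right
    (mul_le_mul_of_nonneg_left ((exp_q k).trans hE) (sq_nonneg _)) ha.le

end Pool.Agent.Helper89.GP
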