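import Mathlib

/-!
# Two comparisons halve the number of linear extensions: definitions

Posets are relations `R` on `Fin n` (not necessarily transitive); a linear extension is a
permutation `σ`, where `σ a` is the position of `a`, with `σ a < σ b` whenever `R a b`.
-/

namespace Pool.Agent.Helper89.GP

open Finset

noncomputable section

variable {n : ℕ}

/-- The linear extensions of `R`. -/
def LX (R : Fin n → Fin n → Prop) : Finset (Equiv.Perm (Fin n)) := by
  classical exact univ.filter fun σ => ∀ a b, R a b → σ a < σ b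

/-- The position of `a`. -/
def po (σ : Equiv.Perm (Fin n)) (a : Fin n) : ℕ := (σ a : ℕ)

/-- The difference of the positions. -/
def df (σ : Equiv.Perm (Fin n)) (u v : Fin n) : ℝ := (po σ v : ℝ) - po σ u

/-- The expectation for a random linear extension. -/
def Ex (R : Fin n → Fin n → Prop) (X : Equiv.Perm (Fin n) → ℝ) : ℝ :=
  (∑ σ ∈ LX R, X σ) / (LX R).card

/-- The probability for a random linear extension. -/
def Pr (R : Fin n → Fin n → Prop) (p : Equiv.Perm (Fin n) → Prop) : ℝ := by
  classical exact (((LX R).filter p).card : ℝ) / (LX R).card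

/-- Both orders of `u, v` occur: `u` and `v` are incomparable. -/
def Inc (R : Fin n → Fin n → Prop) (u v : Fin n) : Prop :=
  (∃ σ ∈ LX R, po σ u < po σ v) ∧ ∃ σ ∈ LX R, po σ v < po σ u

/-! ### Pairs -/

/-- The probability that `v` is exactly `k + 1` places after `u`. -/
def bq (R : Fin n → Fin n → Prop) (u v : Fin n) (k : ℕ) : ℝ :=
  Pr R fun σ => po σ v = po σ u + (k + 1)

/-- The probability that `v` is before `u`. -/
def An (R : Fin n → Fin n → Prop) (u v : Fin n) : ℝ := Pr R fun σ => po σ v < po σ u

/-- The expectation of `max (σ u - σ v) 0`. -/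
def Nn (R : Fin n → Fin n → Prop) (u v : Fin n) : ℝ := ∑ k ∈ range n, ((k : ℝ) + 1) * bq R v u k

/-- The expected difference of the positions. -/
def gp (R : Fin n → Fin n → Prop) (u v : Fin n) : ℝ := Ex R fun σ => df σ u v

/-- The height: the expected position (counted from `0`). -/
def hh (R : Fin n → Fin n → Prop) (u : Fin n) : ℝ := Ex R fun σ => (po σ u : ℝ)

/-- The generating function `∑ b_k t ^ k / k!`. -/
def Ff (R : Fin n → Fin n → Prop) (u v : Fin n) (t : ℝ) : ℝ :=
  ∑ k ∈ range n, bq R u v k * t ^ k / (k.factorial : ℝ)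

/-- The density of the difference in the continuous model. -/
def Gd (R : Fin n → Fin n → Prop) (u v : Fin n) (t : ℝ) : ℝ :=
  if 0 ≤ t then Real.exp (-t) * Ff R u v t else Real.exp t * Ff R v u (-t)

/-! ### Triples

`Ms R u v w` is the probability of the order `u, v, w`; the other quantities belong to the same
order: `ra`, `rb`: the first two (last two) of them are adjacent, `tt`: all three are adjacent,
`da`, `db`: the first two (last two) are at distance two, `ea`, `eb`: the expected distances. -/

/-- The order `u, v, w`. -/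
def Ms (R : Fin n → Fin n → Prop) (u v w : Fin n) : ℝ :=
  Pr R fun σ => po σ u < po σ v ∧ po σ v < po σ w

/-- The order `u, v, w`, and `u, v` adjacent. -/
def ra (R : Fin n → Fin n → Prop) (u v w : Fin n) : ℝ :=
  Pr R fun σ => po σ v = po σ u + 1 ∧ po σ v < po σ w

/-- The order `u, v, w`, and `v, w` adjacent. -/
def rb (R : Fin n → Fin n → Prop) (u v w : Fin n) : ℝ :=
  Pr R fun σ => po σ u < po σ v ∧ po σ w = po σ v + 1

/-- `u, v, w` consecutive. -/
def tt (R : Fin n → Fin n → Prop) (u v w : Fin n) : ℝ :=
  Pr R fun σ => po σ v = po σ u + 1 ∧ po σ w = po σ v + 1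

/-- The order `u, v, w`, and `u, v` at distance two. -/
def da (R : Fin n → Fin n → Prop) (u v w : Fin n) : ℝ :=
  Pr R fun σ => po σ v = po σ u + 2 ∧ po σ v < po σ w

/-- The order `u, v, w`, and `v, w` at distance two. -/
def db (R : Fin n → Fin n → Prop) (u v w : Fin n) : ℝ :=
  Pr R fun σ => po σ u < po σ v ∧ po σ w = po σ v + 2

/-- The expectation of `σ v - σ u` on the order `u, v, w`. -/
def ea (R : Fin n → Fin n → Prop) (u v w : Fin n) : ℝ := by
  classical exact Ex R fun σ => if po σ u < po σ v ∧ po σ v < po σ w then df σ u v else 0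

/-- The expectation of `σ w - σ v` on the order `u, v, w`. -/
def eb (R : Fin n → Fin n → Prop) (u v w : Fin n) : ℝ := by
  classical exact Ex R fun σ => if po σ u < po σ v ∧ po σ v < po σ w then df σ v w else 0

/-! ### Numbers -/

/-- The inequalities for one incomparable pair: `A` the probability of the unlikely order, `c` the
probability that the two are adjacent in a fixed order, `g` the expected difference, `N` the
expected negative part. -/
structure RW (A c g N : ℝ) : Prop where
  c0 : 0 < c
  cA : c ≤ A
  N0 : 0 ≤ N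
  Nc : c * N ≤ A ^ 2
  rh : 5 / 2 * (1 - A) - A * (2 * (c / A) + 1 / (c / A)) ≤ g
  r3 : 3 - A * (3 + (c / A) * (3 + c / A) + 1 / (c / A)) ≤ g
  r4 : 4 - A * (4 + (c / A) * (6 + 4 * (c / A) + (c / A) ^ 2) + 1 / (c / A)) ≤ g
  r5 : 5 - A * (5 + (c / A) * (16 / 9 * Real.exp (3 / 2 * (1 + c / A)) + 20 / 9 +
    (1 + c / A) / 3) + 1 / (c / A)) ≤ g
  rJ : ∀ τ : ℝ, 0 ≤ τ → τ + 2 - A * ((1 + c / A) ^ 2 * Real.exp (c / A * τ) / (c / A)) ≤ g

end

end Pool.Agent.Helper89.GP
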