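import Pool.Agent.Helper89.GP.Chord

/-!
# The linear certificate for three elements: data and tables
-/

namespace Pool.Agent.Helper89.GP

/-- The data. -/
structure SD where
  p0 : ℝ
  p1 : ℝ
  p2 : ℝ
  p3 : ℝ
  p4 : ℝ
  m : ℝ
  al1 : ℝ
  al2 : ℝ
  al3 : ℝ
  be1 : ℝ
  be2 : ℝ
  be3 : ℝ
  ta : ℝ
  x0 : ℝ
  x1 : ℝ
  y : ℝ
  z : ℝ
  y2 : ℝ
  z2 : ℝ
  u3 : ℝ
  u4 : ℝ
  y3 : ℝ
  z4 : ℝ
  w51 : ℝ
  w50 : ℝ
  E00 : ℝ
  E20 : ℝ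
  E01 : ℝ
  E11 : ℝ
  E10 : ℝ
  E30 : ℝ
  E31 : ℝ
  E51 : ℝ
  E21 : ℝ
  E40 : ℝ
  E41 : ℝ
  E50 : ℝ
  g1 : ℝ
  g2 : ℝ

/-- The linear relations. The orders are `0: xyz, 1: yxz, 2: xzy, 3: yzx, 4: zxy, 5: zyx`. -/
structure Sy (d : SD) : Prop where
  sum : d.p0 + d.p1 + d.p2 + d.p3 + d.p4 + d.m = 1
  hp0 : 1 / 2 ≤ d.p0
  hA1 : d.p1 + d.p3 + d.m ≤ 5 / 16
  hA2 : d.p2 + d.p4 + d.m ≤ 5 / 16
  hxyz : d.m ≤ 171573 / 1000000 * (1 - d.p0)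
  t1 : d.ta ≤ d.al1
  t2 : d.ta ≤ d.al2
  t3 : d.ta ≤ d.al3
  t4 : d.ta ≤ d.be1
  t5 : d.ta ≤ d.be2
  t6 : d.ta ≤ d.be3
  ie0 : d.al1 + d.al2 ≤ d.p0 + d.ta
  ie1 : d.al1 + d.be3 ≤ d.p1 + d.ta
  ie2 : d.al2 + d.al3 ≤ d.p2 + d.ta
  ie3 : d.be2 + d.be3 ≤ d.p3 + d.ta
  ie4 : d.al3 + d.be1 ≤ d.p4 + d.ta
  ie5 : d.be1 + d.be2 ≤ d.m + d.ta
  hf00 : 2 * d.x0 ≤ d.p0
  hf01 : 2 * d.x1 ≤ d.p0
  hf30 : 2 * d.u3 ≤ d.p3
  hf41 : 2 * d.u4 ≤ d.p4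
  ray0 : d.x0 + d.y + d.ta ≤ 2 * d.al1
  ray5 : d.x1 + d.z + d.ta ≤ 2 * d.al2
  ray4 : d.z2 + d.z4 + d.ta ≤ 2 * d.al3
  ray1 : d.y2 + d.y3 + d.ta ≤ 2 * d.be3
  ms00 : d.al1 + d.x0 ≤ d.p0
  ms01 : d.al2 + d.x1 ≤ d.p0
  ms10 : d.al1 + d.y ≤ d.p1
  ms11 : d.be3 + d.y2 ≤ d.p1
  ms20 : d.al3 + d.z2 ≤ d.p2
  ms21 : d.al2 + d.z ≤ d.p2
  ms30 : d.be2 + d.u3 ≤ d.p3
  ms31 : d.be3 + d.y3 ≤ d.p3
  ms40 : d.al3 + d.z4 ≤ d.p4
  ms41 : d.be1 + d.u4 ≤ d.p4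
  ms50 : d.be2 + d.w50 ≤ d.m
  ms51 : d.be1 + d.w51 ≤ d.m
  e00 : 3 * d.p0 - 2 * d.al1 - d.x0 ≤ d.E00
  e01 : 3 * d.p0 - 2 * d.al2 - d.x1 ≤ d.E01
  e10 : 3 * d.p1 - 2 * d.al1 - d.y ≤ d.E10
  e11 : 3 * d.p1 - 2 * d.be3 - d.y2 ≤ d.E11
  e20 : 3 * d.p2 - 2 * d.al3 - d.z2 ≤ d.E20
  e21 : 3 * d.p2 - 2 * d.al2 - d.z ≤ d.E21
  e30 : 3 * d.p3 - 2 * d.be2 - d.u3 ≤ d.E30
  e31 : 3 * d.p3 - 2 * d.be3 - d.y3 ≤ d.E31
  e40 : 3 * d.p4 - 2 * d.al3 - d.z4 ≤ d.E40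
  e41 : 3 * d.p4 - 2 * d.be1 - d.u4 ≤ d.E41
  e50 : 3 * d.m - 2 * d.be2 - d.w50 ≤ d.E50
  e51 : 3 * d.m - 2 * d.be1 - d.w51 ≤ d.E51
  eg1 : d.g1 = d.E00 + d.E20 + d.E21 + d.E41 - (d.E10 + d.E30 + d.E31 + d.E51)
  eg2 : d.g2 = d.E01 + d.E11 + d.E30 + d.E10 - (d.E21 + d.E40 + d.E41 + d.E50)
  n_p1 : 0 ≤ d.p1
  n_p2 : 0 ≤ d.p2
  n_p3 : 0 ≤ d.p3
  n_p4 : 0 ≤ d.p4
  n_m : 0 ≤ d.m
  n_al1 : 0 ≤ d.al1
  n_al2 : 0 ≤ d.al2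
  n_al3 : 0 ≤ d.al3
  n_be1 : 0 ≤ d.be1
  n_be2 : 0 ≤ d.be2
  n_be3 : 0 ≤ d.be3
  n_tau : 0 ≤ d.ta
  n_x0 : 0 ≤ d.x0
  n_x1 : 0 ≤ d.x1
  n_y : 0 ≤ d.y
  n_z : 0 ≤ d.z
  n_y2 : 0 ≤ d.y2
  n_z2 : 0 ≤ d.z2
  n_u3 : 0 ≤ d.u3
  n_u4 : 0 ≤ d.u4
  n_y3 : 0 ≤ d.y3
  n_z4 : 0 ≤ d.z4
  n_w51 : 0 ≤ d.w51
  n_w50 : 0 ≤ d.w50

theorem Sy.G1 {d : SD} (h : Sy d) : 3 * d.p0 - 2 * d.al1 - d.x0 + (3 * d.p2 - 2 * d.al3 - d.z2) + d.E21 +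
    d.E41 - (d.E10 + d.E30 + d.E31 + d.E51) ≤ d.g1 := by
  linarith [h.eg1, h.e00, h.e20]

theorem Sy.G2 {d : SD} (h : Sy d) : 3 * d.p0 - 2 * d.al2 - d.x1 + (3 * d.p1 - 2 * d.be3 - d.y2) + d.E30 +
    d.E10 - (d.E21 + d.E40 + d.E41 + d.E50) ≤ d.g2 := by
  linarith [h.eg2, h.e01, h.e11]

theorem f5_6 : f5 (3 / 25) ≤ 3697363 / 250000 :=
  f5_le (E := 1341389 / 250000) 168 (by norm_num) (by norm_num) (by norm_num) (by norm_num)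

theorem f5_9 : f5 (9 / 50) ≤ 12905029 / 1000000 :=
  f5_le (E := 29354267 / 5000000) 177 (by norm_num) (by norm_num) (by norm_num) (by norm_num)

theorem f5_10 : f5 (1 / 5) ≤ 12675431 / 1000000 :=
  f5_le (E := 2419859 / 400000) 180 (by norm_num) (by norm_num) (by norm_num) (by norm_num)

theorem f5_11 : f5 (11 / 50) ≤ 12561953 / 1000000 :=
  f5_le (E := 62338867 / 10000000) 183 (by norm_num) (by norm_num) (by norm_num) (by norm_num)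

theorem f5_13 : f5 (13 / 50) ≤ 12592751 / 1000000 :=
  f5_le (E := 66193687 / 10000000) 189 (by norm_num) (by norm_num) (by norm_num) (by norm_num)

theorem f5_15 : f5 (3 / 10) ≤ 6439317 / 500000 :=
  f5_le (E := 17571719 / 2500000) 195 (by norm_num) (by norm_num) (by norm_num) (by norm_num)

theorem f5_17 : f5 (17 / 50) ≤ 166997 / 12500 :=
  f5_le (E := 37316587 / 5000000) 201 (by norm_num) (by norm_num) (by norm_num) (by norm_num)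

theorem f5_21 : f5 (21 / 50) ≤ 14796187 / 1000000 :=
  f5_le (E := 84148669 / 10000000) 213 (by norm_num) (by norm_num) (by norm_num) (by norm_num)

theorem f5_25 : f5 (1 / 2) ≤ 3358931 / 200000 :=
  f5_le (E := 94877359 / 10000000) 225 (by norm_num) (by norm_num) (by norm_num) (by norm_num)

theorem fJ_4_12 : fJ (6) (2 / 25) ≤ 23562367 / 1000000 :=
  fJ_le (E := 3232149 / 2000000) 48 (by norm_num) (by norm_num) (by norm_num) (by norm_num)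

theorem fJ_4_14 : fJ (7) (2 / 25) ≤ 25524807 / 1000000 :=
  fJ_le (E := 8753363 / 5000000) 56 (by norm_num) (by norm_num) (by norm_num) (by norm_num)

theorem fJ_4_16 : fJ (8) (2 / 25) ≤ 6912673 / 250000 :=
  fJ_le (E := 18964809 / 10000000) 64 (by norm_num) (by norm_num) (by norm_num) (by norm_num)

theorem fJ_4_18 : fJ (9) (2 / 25) ≤ 14976819 / 500000 :=
  fJ_le (E := 20544333 / 10000000) 72 (by norm_num) (by norm_num) (by norm_num) (by norm_num)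

theorem fJ_6_8 : fJ (4) (3 / 25) ≤ 8446683 / 500000 :=
  fJ_le (E := 3232149 / 2000000) 48 (by norm_num) (by norm_num) (by norm_num) (by norm_num)

theorem fJ_6_10 : fJ (5) (3 / 25) ≤ 19047217 / 1000000 :=
  fJ_le (E := 18221189 / 10000000) 60 (by norm_num) (by norm_num) (by norm_num) (by norm_num)

theorem fJ_6_11 : fJ (11 / 2) (3 / 25) ≤ 2022503 / 100000 :=
  fJ_le (E := 4836981 / 2500000) 66 (by norm_num) (by norm_num) (by norm_num) (by norm_num)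

theorem fJ_6_16 : fJ (8) (3 / 25) ≤ 5460187 / 200000 :=
  fJ_le (E := 5223393 / 2000000) 96 (by norm_num) (by norm_num) (by norm_num) (by norm_num)

theorem fJ_6_18 : fJ (9) (3 / 25) ≤ 15390859 / 500000 :=
  fJ_le (E := 7361699 / 2500000) 108 (by norm_num) (by norm_num) (by norm_num) (by norm_num)

theorem fJ_7_9 : fJ (9 / 2) (7 / 50) ≤ 17429591 / 1000000 :=
  fJ_le (E := 9388053 / 5000000) 63 (by norm_num) (by norm_num) (by norm_num) (by norm_num)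

theorem fJ_7_10 : fJ (5) (7 / 50) ≤ 934669 / 50000 :=
  fJ_le (E := 2517191 / 1250000) 70 (by norm_num) (by norm_num) (by norm_num) (by norm_num)

theorem fJ_7_14 : fJ (7) (7 / 50) ≤ 3091721 / 125000 :=
  fJ_le (E := 26644563 / 10000000) 98 (by norm_num) (by norm_num) (by norm_num) (by norm_num)

theorem fJ_7_16 : fJ (8) (7 / 50) ≤ 5690121 / 200000 :=
  fJ_le (E := 30648543 / 10000000) 112 (by norm_num) (by norm_num) (by norm_num) (by norm_num)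

theorem fJ_9_8 : fJ (4) (9 / 50) ≤ 15892183 / 1000000 :=
  fJ_le (E := 20544333 / 10000000) 72 (by norm_num) (by norm_num) (by norm_num) (by norm_num)

theorem fJ_9_9 : fJ (9 / 2) (9 / 50) ≤ 8694409 / 500000 :=
  fJ_le (E := 561977 / 250000) 81 (by norm_num) (by norm_num) (by norm_num) (by norm_num)

theorem fJ_9_10 : fJ (5) (9 / 50) ≤ 9513199 / 500000 :=
  fJ_le (E := 384313 / 156250) 90 (by norm_num) (by norm_num) (by norm_num) (by norm_num)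

theorem fJ_9_11 : fJ (11 / 2) (9 / 50) ≤ 10409097 / 500000 :=
  fJ_le (E := 5382469 / 2000000) 99 (by norm_num) (by norm_num) (by norm_num) (by norm_num)

theorem fJ_9_12 : fJ (6) (9 / 50) ≤ 22778733 / 1000000 :=
  fJ_le (E := 7361699 / 2500000) 108 (by norm_num) (by norm_num) (by norm_num) (by norm_num)

theorem fJ_9_14 : fJ (7) (9 / 50) ≤ 13635547 / 500000 :=
  fJ_le (E := 7050843 / 2000000) 126 (by norm_num) (by norm_num) (by norm_num) (by norm_num)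

theorem fJ_10_8 : fJ (4) (1 / 5) ≤ 2002987 / 125000 :=
  fJ_le (E := 2225541 / 1000000) 80 (by norm_num) (by norm_num) (by norm_num) (by norm_num)

theorem fJ_10_9 : fJ (9 / 2) (1 / 5) ≤ 2213643 / 125000 :=
  fJ_le (E := 384313 / 156250) 90 (by norm_num) (by norm_num) (by norm_num) (by norm_num)

theorem fJ_11_8 : fJ (4) (11 / 50) ≤ 8155417 / 500000 :=
  fJ_le (E := 12054499 / 5000000) 88 (by norm_num) (by norm_num) (by norm_num) (by norm_num)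

theorem fJ_13_8 : fJ (4) (13 / 50) ≤ 3455127 / 200000 :=
  fJ_le (E := 28292171 / 10000000) 104 (by norm_num) (by norm_num) (by norm_num) (by norm_num)

end Pool.Agent.Helper89.GP
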