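import Pool.Agent.Helper89.GP.LeafA

/-!
# The linear certificate for three elements: leaves, first half
-/

namespace Pool.Agent.Helper89.GP

theorem leaf0 {d : SD} (h : Sy d) (q1 : RW (d.p1 + d.p3 + d.m) (d.al1 + d.be1) d.g1 (d.E10 + d.E30 + d.E31 + d.E51))
    (q2 : RW (d.p2 + d.p4 + d.m) (d.al2 + d.be2) d.g2 (d.E21 + d.E40 + d.E41 + d.E50))
    (a1 : 37 / 50 * (d.p1 + d.p3 + d.m) ≤ d.al1 + d.be1) (b1 : d.al1 + d.be1 ≤ 1 * (d.p1 + d.p3 + d.m))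
    (a2 : 27 / 50 * (d.p2 + d.p4 + d.m) ≤ d.al2 + d.be2) (b2 : d.al2 + d.be2 ≤ 1 * (d.p2 + d.p4 + d.m)) :
    2 < d.g1 + d.g2 := by
  have k1 := q1.chN (a := 37 / 50) (b := 1) (by norm_num) (by norm_num) a1 b1
  have k2 := q2.chN (a := 27 / 50) (b := 1) (by norm_num) (by norm_num) a2 b2
  linarith [h.sum, h.hp0, h.hxyz, h.t5, h.ie1, h.ie2, h.ie3, h.ray0, h.ray5, h.ray4, h.ray1, h.e10, h.e30, h.e21, h.e41, h.ms10, h.ms11, h.ms20, h.ms21, h.ms30, h.ms41, h.G1, h.G2, a1, k1, k2, h.n_y, h.n_z, h.n_u4, h.n_y3, h.n_z4]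

theorem leaf1 {d : SD} (h : Sy d) (q1 : RW (d.p1 + d.p3 + d.m) (d.al1 + d.be1) d.g1 (d.E10 + d.E30 + d.E31 + d.E51))
    (q2 : RW (d.p2 + d.p4 + d.m) (d.al2 + d.be2) d.g2 (d.E21 + d.E40 + d.E41 + d.E50))
    (a1 : 37 / 50 * (d.p1 + d.p3 + d.m) ≤ d.al1 + d.be1) (b1 : d.al1 + d.be1 ≤ 1 * (d.p1 + d.p3 + d.m))
    (a2 : 12 / 25 * (d.p2 + d.p4 + d.m) ≤ d.al2 + d.be2) (b2 : d.al2 + d.be2 ≤ 27 / 50 * (d.p2 + d.p4 + d.m)) :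
    2 < d.g1 + d.g2 := by
  have k1 := q1.chN (a := 37 / 50) (b := 1) (by norm_num) (by norm_num) a1 b1
  have k2 := q2.chN (a := 12 / 25) (b := 27 / 50) (by norm_num) (by norm_num) a2 b2
  linarith [h.sum, h.hp0, h.hA2, h.hxyz, h.t5, h.ie1, h.ie2, h.ray0, h.ray5, h.ray4, h.ray1, h.ms50, h.e10, h.e30, h.e21, h.e40, h.e41, h.e50, h.ms10, h.ms20, h.ms21, h.ms30, h.ms41, h.G1, h.G2, a1, k1, a2, k2, h.n_y, h.n_u3, h.n_y3, h.n_z4]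

theorem leaf2 {d : SD} (h : Sy d) (q1 : RW (d.p1 + d.p3 + d.m) (d.al1 + d.be1) d.g1 (d.E10 + d.E30 + d.E31 + d.E51))
    (q2 : RW (d.p2 + d.p4 + d.m) (d.al2 + d.be2) d.g2 (d.E21 + d.E40 + d.E41 + d.E50))
    (a1 : 12 / 25 * (d.p1 + d.p3 + d.m) ≤ d.al1 + d.be1) (b1 : d.al1 + d.be1 ≤ 37 / 50 * (d.p1 + d.p3 + d.m))
    (a2 : 16 / 25 * (d.p2 + d.p4 + d.m) ≤ d.al2 + d.be2) (b2 : d.al2 + d.be2 ≤ 1 * (d.p2 + d.p4 + d.m)) :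
    2 < d.g1 + d.g2 := by
  have k1 := q1.chN (a := 12 / 25) (b := 37 / 50) (by norm_num) (by norm_num) a1 b1
  have k2 := q2.chN (a := 16 / 25) (b := 1) (by norm_num) (by norm_num) a2 b2
  linarith [h.sum, h.hp0, h.hxyz, h.t4, h.t5, h.t6, h.ie1, h.ie2, h.ray0, h.ray5, h.ray4, h.ray1, h.ms51, h.e10, h.e30, h.e31, h.e51, h.e21, h.e41, h.ms10, h.ms11, h.ms20, h.ms21, h.ms30, h.ms41, h.G1, h.G2, k1, k2, h.n_z, h.n_u4, h.n_y3, h.n_z4]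

theorem leaf3 {d : SD} (h : Sy d) (q1 : RW (d.p1 + d.p3 + d.m) (d.al1 + d.be1) d.g1 (d.E10 + d.E30 + d.E31 + d.E51))
    (q2 : RW (d.p2 + d.p4 + d.m) (d.al2 + d.be2) d.g2 (d.E21 + d.E40 + d.E41 + d.E50))
    (a1 : 14 / 25 * (d.p1 + d.p3 + d.m) ≤ d.al1 + d.be1) (b1 : d.al1 + d.be1 ≤ 37 / 50 * (d.p1 + d.p3 + d.m))
    (a2 : 12 / 25 * (d.p2 + d.p4 + d.m) ≤ d.al2 + d.be2) (b2 : d.al2 + d.be2 ≤ 16 / 25 * (d.p2 + d.p4 + d.m)) :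
    2 < d.g1 + d.g2 := by
  have k1 := q1.chN (a := 14 / 25) (b := 37 / 50) (by norm_num) (by norm_num) a1 b1
  have k2 := q2.chN (a := 12 / 25) (b := 16 / 25) (by norm_num) (by norm_num) a2 b2
  linarith [h.sum, h.hp0, h.hxyz, h.t4, h.t5, h.ie1, h.ie2, h.ray0, h.ray5, h.ray4, h.ray1, h.ms51, h.ms50, h.e10, h.e30, h.e31, h.e51, h.e21, h.e40, h.e41, h.e50, h.hf41, h.ms10, h.ms11, h.ms20, h.ms21, h.ms30, h.ms41, h.G1, h.G2, a1, k1, k2, h.n_y3, h.n_z4]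

theorem leaf4 {d : SD} (h : Sy d) (q1 : RW (d.p1 + d.p3 + d.m) (d.al1 + d.be1) d.g1 (d.E10 + d.E30 + d.E31 + d.E51))
    (q2 : RW (d.p2 + d.p4 + d.m) (d.al2 + d.be2) d.g2 (d.E21 + d.E40 + d.E41 + d.E50))
    (a1 : 12 / 25 * (d.p1 + d.p3 + d.m) ≤ d.al1 + d.be1) (b1 : d.al1 + d.be1 ≤ 14 / 25 * (d.p1 + d.p3 + d.m))
    (a2 : 27 / 50 * (d.p2 + d.p4 + d.m) ≤ d.al2 + d.be2) (b2 : d.al2 + d.be2 ≤ 16 / 25 * (d.p2 + d.p4 + d.m)) :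
    2 < d.g1 + d.g2 := by
  have k1 := q1.chN (a := 12 / 25) (b := 14 / 25) (by norm_num) (by norm_num) a1 b1
  have k2 := q1.ch4 (a := 12 / 25) (b := 14 / 25) (Ha := 1874161 / 187500) (Hb := 2313441 / 218750) (by norm_num)
    (by norm_num) a1 b1 (by norm_num [f4]) (by norm_num [f4])
  have k3 := q2.chN (a := 27 / 50) (b := 16 / 25) (by norm_num) (by norm_num) a2 b2
  have k4 := q2.ch4 (a := 27 / 50) (b := 16 / 25) (Ha := 35153041 / 3375000) (Hb := 2825761 / 250000) (by norm_num)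
    (by norm_num) a2 b2 (by norm_num [f4]) (by norm_num [f4])
  linarith [h.sum, h.hp0, h.hxyz, h.t4, h.ie1, h.ie2, h.ray0, h.ray5, h.ray4, h.ray1, h.ms51, h.ms50, h.e10, h.e30, h.e31, h.e51, h.e21, h.e40, h.e41, h.e50, h.hf30, h.ms10, h.ms11, h.ms20, h.ms21, h.ms41, h.G1, h.G2, k1, k2, a2, k3, k4, h.n_y3, h.n_z4]

theorem leaf5 {d : SD} (h : Sy d) (q1 : RW (d.p1 + d.p3 + d.m) (d.al1 + d.be1) d.g1 (d.E10 + d.E30 + d.E31 + d.E51))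
    (q2 : RW (d.p2 + d.p4 + d.m) (d.al2 + d.be2) d.g2 (d.E21 + d.E40 + d.E41 + d.E50))
    (a1 : 1 / 2 * (d.p1 + d.p3 + d.m) ≤ d.al1 + d.be1) (b1 : d.al1 + d.be1 ≤ 14 / 25 * (d.p1 + d.p3 + d.m))
    (a2 : 13 / 25 * (d.p2 + d.p4 + d.m) ≤ d.al2 + d.be2) (b2 : d.al2 + d.be2 ≤ 27 / 50 * (d.p2 + d.p4 + d.m)) :
    2 < d.g1 + d.g2 := by
  have k1 := q1.chN (a := 1 / 2) (b := 14 / 25) (by norm_num) (by norm_num) a1 b1
  have k2 := q1.ch4 (a := 1 / 2) (b := 14 / 25) (Ha := 81 / 8) (Hb := 2313441 / 218750) (by norm_num)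
    (by norm_num) a1 b1 (by norm_num [f4]) (by norm_num [f4])
  have k3 := q2.chN (a := 13 / 25) (b := 27 / 50) (by norm_num) (by norm_num) a2 b2
  have k4 := q2.ch4 (a := 13 / 25) (b := 27 / 50) (Ha := 2085136 / 203125) (Hb := 35153041 / 3375000) (by norm_num)
    (by norm_num) a2 b2 (by norm_num [f4]) (by norm_num [f4])
  linarith [h.sum, h.hp0, h.hxyz, h.t4, h.t5, h.ie1, h.ie2, h.ray0, h.ray5, h.ray4, h.ray1, h.ms51, h.e10, h.e30, h.e31, h.e51, h.e21, h.e41, h.hf30, h.hf41, h.ms10, h.ms11, h.ms20, h.ms21, h.G1, h.G2, k1, k2, a2, k3, k4, h.n_y3, h.n_z4]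

theorem leaf6 {d : SD} (h : Sy d) (q1 : RW (d.p1 + d.p3 + d.m) (d.al1 + d.be1) d.g1 (d.E10 + d.E30 + d.E31 + d.E51))
    (q2 : RW (d.p2 + d.p4 + d.m) (d.al2 + d.be2) d.g2 (d.E21 + d.E40 + d.E41 + d.E50))
    (a1 : 13 / 25 * (d.p1 + d.p3 + d.m) ≤ d.al1 + d.be1) (b1 : d.al1 + d.be1 ≤ 14 / 25 * (d.p1 + d.p3 + d.m))
    (a2 : 12 / 25 * (d.p2 + d.p4 + d.m) ≤ d.al2 + d.be2) (b2 : d.al2 + d.be2 ≤ 13 / 25 * (d.p2 + d.p4 + d.m)) :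
    2 < d.g1 + d.g2 := by
  have k1 := q1.chN (a := 13 / 25) (b := 14 / 25) (by norm_num) (by norm_num) a1 b1
  have k2 := q1.ch4 (a := 13 / 25) (b := 14 / 25) (Ha := 2085136 / 203125) (Hb := 2313441 / 218750) (by norm_num)
    (by norm_num) a1 b1 (by norm_num [f4]) (by norm_num [f4])
  have k3 := q2.chN (a := 12 / 25) (b := 13 / 25) (by norm_num) (by norm_num) a2 b2
  have k4 := q2.ch4 (a := 12 / 25) (b := 13 / 25) (Ha := 1874161 / 187500) (Hb := 2085136 / 203125) (by norm_num)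
    (by norm_num) a2 b2 (by norm_num [f4]) (by norm_num [f4])
  linarith [h.sum, h.hp0, h.hxyz, h.t4, h.t5, h.ie1, h.ie2, h.ray0, h.ray5, h.ray4, h.ray1, h.ms50, h.e10, h.e30, h.e21, h.e40, h.e41, h.e50, h.hf30, h.hf41, h.ms10, h.ms11, h.ms20, h.ms21, h.ms30, h.G1, h.G2, k1, k2, k3, k4, h.n_y3, h.n_z4]

theorem leaf7 {d : SD} (h : Sy d) (q1 : RW (d.p1 + d.p3 + d.m) (d.al1 + d.be1) d.g1 (d.E10 + d.E30 + d.E31 + d.E51))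
    (q2 : RW (d.p2 + d.p4 + d.m) (d.al2 + d.be2) d.g2 (d.E21 + d.E40 + d.E41 + d.E50))
    (a1 : 1 / 2 * (d.p1 + d.p3 + d.m) ≤ d.al1 + d.be1) (b1 : d.al1 + d.be1 ≤ 13 / 25 * (d.p1 + d.p3 + d.m))
    (a2 : 12 / 25 * (d.p2 + d.p4 + d.m) ≤ d.al2 + d.be2) (b2 : d.al2 + d.be2 ≤ 13 / 25 * (d.p2 + d.p4 + d.m)) :
    2 < d.g1 + d.g2 := by
  have k1 := q1.chN (a := 1 / 2) (b := 13 / 25) (by norm_num) (by norm_num) a1 b1
  have k2 := q1.ch4 (a := 1 / 2) (b := 13 / 25) (Ha := 81 / 8) (Hb := 2085136 / 203125) (by norm_num)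
    (by norm_num) a1 b1 (by norm_num [f4]) (by norm_num [f4])
  have k3 := q2.chN (a := 12 / 25) (b := 13 / 25) (by norm_num) (by norm_num) a2 b2
  have k4 := q2.ch4 (a := 12 / 25) (b := 13 / 25) (Ha := 1874161 / 187500) (Hb := 2085136 / 203125) (by norm_num)
    (by norm_num) a2 b2 (by norm_num [f4]) (by norm_num [f4])
  linarith [h.sum, h.hp0, h.hxyz, h.t4, h.t5, h.ie1, h.ie2, h.ray0, h.ray5, h.ray4, h.ray1, h.ms51, h.ms50, h.e10, h.e30, h.e31, h.e51, h.e21, h.e40, h.e41, h.e50, h.hf30, h.hf41, h.ms10, h.ms11, h.ms20, h.ms21, h.G1, h.G2, k1, k2, k3, k4, h.n_y3, h.n_z4]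

theorem leaf8 {d : SD} (h : Sy d) (q1 : RW (d.p1 + d.p3 + d.m) (d.al1 + d.be1) d.g1 (d.E10 + d.E30 + d.E31 + d.E51))
    (q2 : RW (d.p2 + d.p4 + d.m) (d.al2 + d.be2) d.g2 (d.E21 + d.E40 + d.E41 + d.E50))
    (a1 : 12 / 25 * (d.p1 + d.p3 + d.m) ≤ d.al1 + d.be1) (b1 : d.al1 + d.be1 ≤ 1 / 2 * (d.p1 + d.p3 + d.m))
    (a2 : 12 / 25 * (d.p2 + d.p4 + d.m) ≤ d.al2 + d.be2) (b2 : d.al2 + d.be2 ≤ 27 / 50 * (d.p2 + d.p4 + d.m)) :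
    2 < d.g1 + d.g2 := by
  have k1 := q1.chN (a := 12 / 25) (b := 1 / 2) (by norm_num) (by norm_num) a1 b1
  have k2 := q1.ch4 (a := 12 / 25) (b := 1 / 2) (Ha := 1874161 / 187500) (Hb := 81 / 8) (by norm_num)
    (by norm_num) a1 b1 (by norm_num [f4]) (by norm_num [f4])
  have k3 := q2.chN (a := 12 / 25) (b := 27 / 50) (by norm_num) (by norm_num) a2 b2
  have k4 := q2.ch4 (a := 12 / 25) (b := 27 / 50) (Ha := 1874161 / 187500) (Hb := 35153041 / 3375000) (by norm_num)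
    (by norm_num) a2 b2 (by norm_num [f4]) (by norm_num [f4])
  linarith [h.sum, h.hp0, h.hxyz, h.t4, h.ie1, h.ie2, h.ray0, h.ray5, h.ray4, h.ray1, h.ms51, h.ms50, h.e10, h.e30, h.e31, h.e51, h.e21, h.e40, h.e41, h.e50, h.hf30, h.ms10, h.ms11, h.ms20, h.ms21, h.ms41, h.G1, h.G2, b1, k1, k2, k3, k4, h.n_y3, h.n_z4]

theorem leaf9 {d : SD} (h : Sy d) (q1 : RW (d.p1 + d.p3 + d.m) (d.al1 + d.be1) d.g1 (d.E10 + d.E30 + d.E31 + d.E51))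
    (q2 : RW (d.p2 + d.p4 + d.m) (d.al2 + d.be2) d.g2 (d.E21 + d.E40 + d.E41 + d.E50))
    (a1 : 39 / 50 * (d.p1 + d.p3 + d.m) ≤ d.al1 + d.be1) (b1 : d.al1 + d.be1 ≤ 1 * (d.p1 + d.p3 + d.m))
    (a2 : 21 / 50 * (d.p2 + d.p4 + d.m) ≤ d.al2 + d.be2) (b2 : d.al2 + d.be2 ≤ 12 / 25 * (d.p2 + d.p4 + d.m)) :
    2 < d.g1 + d.g2 := by
  have k1 := q1.chN (a := 39 / 50) (b := 1) (by norm_num) (by norm_num) a1 b1
  have k2 := q2.chN (a := 21 / 50) (b := 12 / 25) (by norm_num) (by norm_num) a2 b2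
  have k3 := q2.ch4 (a := 21 / 50) (b := 12 / 25) (Ha := 25411681 / 2625000) (Hb := 1874161 / 187500) (by norm_num)
    (by norm_num) a2 b2 (by norm_num [f4]) (by norm_num [f4])
  linarith [h.sum, h.hp0, h.hA2, h.hxyz, h.t5, h.t6, h.ie1, h.ie2, h.ray0, h.ray5, h.ray4, h.ray1, h.ms50, h.e10, h.e30, h.e21, h.e40, h.e41, h.e50, h.ms20, h.ms21, h.ms30, h.ms41, h.G1, h.G2, a1, k1, k2, k3, h.n_y, h.n_u3, h.n_y3, h.n_z4]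

theorem leaf10 {d : SD} (h : Sy d) (q1 : RW (d.p1 + d.p3 + d.m) (d.al1 + d.be1) d.g1 (d.E10 + d.E30 + d.E31 + d.E51))
    (q2 : RW (d.p2 + d.p4 + d.m) (d.al2 + d.be2) d.g2 (d.E21 + d.E40 + d.E41 + d.E50))
    (a1 : 17 / 25 * (d.p1 + d.p3 + d.m) ≤ d.al1 + d.be1) (b1 : d.al1 + d.be1 ≤ 39 / 50 * (d.p1 + d.p3 + d.m))
    (a2 : 11 / 25 * (d.p2 + d.p4 + d.m) ≤ d.al2 + d.be2) (b2 : d.al2 + d.be2 ≤ 12 / 25 * (d.p2 + d.p4 + d.m)) :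
    2 < d.g1 + d.g2 := by
  have k1 := q1.chN (a := 17 / 25) (b := 39 / 50) (by norm_num) (by norm_num) a1 b1
  have k2 := q2.chN (a := 11 / 25) (b := 12 / 25) (by norm_num) (by norm_num) a2 b2
  have k3 := q2.ch4 (a := 11 / 25) (b := 12 / 25) (Ha := 1679616 / 171875) (Hb := 1874161 / 187500) (by norm_num)
    (by norm_num) a2 b2 (by norm_num [f4]) (by norm_num [f4])
  linarith [h.sum, h.hp0, h.hA2, h.hxyz, h.t5, h.t6, h.ie1, h.ie2, h.ray0, h.ray5, h.ray4, h.ray1, h.ms31, h.ms50, h.e10, h.e30, h.e21, h.e40, h.e41, h.e50, h.hf41, h.ms20, h.ms21, h.ms30, h.ms41, h.G1, h.G2, k1, a2, k2, k3, h.n_y, h.n_y3]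

theorem leaf11 {d : SD} (h : Sy d) (q1 : RW (d.p1 + d.p3 + d.m) (d.al1 + d.be1) d.g1 (d.E10 + d.E30 + d.E31 + d.E51))
    (q2 : RW (d.p2 + d.p4 + d.m) (d.al2 + d.be2) d.g2 (d.E21 + d.E40 + d.E41 + d.E50))
    (a1 : 17 / 25 * (d.p1 + d.p3 + d.m) ≤ d.al1 + d.be1) (b1 : d.al1 + d.be1 ≤ 39 / 50 * (d.p1 + d.p3 + d.m))
    (a2 : 21 / 50 * (d.p2 + d.p4 + d.m) ≤ d.al2 + d.be2) (b2 : d.al2 + d.be2 ≤ 11 / 25 * (d.p2 + d.p4 + d.m)) :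
    2 < d.g1 + d.g2 := by
  have k1 := q1.chN (a := 17 / 25) (b := 39 / 50) (by norm_num) (by norm_num) a1 b1
  have k2 := q2.chN (a := 21 / 50) (b := 11 / 25) (by norm_num) (by norm_num) a2 b2
  have k3 := q2.ch4 (a := 21 / 50) (b := 11 / 25) (Ha := 25411681 / 2625000) (Hb := 1679616 / 171875) (by norm_num)
    (by norm_num) a2 b2 (by norm_num [f4]) (by norm_num [f4])
  linarith [h.sum, h.hp0, h.hA2, h.hxyz, h.t5, h.ie1, h.ie2, h.ie3, h.ray0, h.ray5, h.ray4, h.ray1, h.ms50, h.e10, h.e30, h.e21, h.e40, h.e41, h.e50, h.hf41, h.ms10, h.ms20, h.ms21, h.ms30, h.ms41, h.G1, h.G2, k1, k2, k3, h.n_y, h.n_y3, h.n_z4]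

theorem leaf12 {d : SD} (h : Sy d) (q1 : RW (d.p1 + d.p3 + d.m) (d.al1 + d.be1) d.g1 (d.E10 + d.E30 + d.E31 + d.E51))
    (q2 : RW (d.p2 + d.p4 + d.m) (d.al2 + d.be2) d.g2 (d.E21 + d.E40 + d.E41 + d.E50))
    (a1 : 17 / 25 * (d.p1 + d.p3 + d.m) ≤ d.al1 + d.be1) (b1 : d.al1 + d.be1 ≤ 1 * (d.p1 + d.p3 + d.m))
    (a2 : 17 / 50 * (d.p2 + d.p4 + d.m) ≤ d.al2 + d.be2) (b2 : d.al2 + d.be2 ≤ 21 / 50 * (d.p2 + d.p4 + d.m)) :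
    2 < d.g1 + d.g2 := by
  have k1 := q1.chN (a := 17 / 25) (b := 1) (by norm_num) (by norm_num) a1 b1
  have k2 := q2.ch4 (a := 17 / 50) (b := 21 / 50) (Ha := 20151121 / 2125000) (Hb := 25411681 / 2625000) (by norm_num)
    (by norm_num) a2 b2 (by norm_num [f4]) (by norm_num [f4])
  linarith [h.sum, h.hp0, h.hA2, h.hxyz, h.t5, h.ie2, h.hf00, h.ray0, h.ray4, h.e21, h.e41, h.hf41, h.ms10, h.ms20, h.ms21, h.ms30, h.ms41, h.G1, k1, b2, k2, h.n_y, h.n_u3, h.n_z4]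

theorem leaf13 {d : SD} (h : Sy d) (q1 : RW (d.p1 + d.p3 + d.m) (d.al1 + d.be1) d.g1 (d.E10 + d.E30 + d.E31 + d.E51))
    (q2 : RW (d.p2 + d.p4 + d.m) (d.al2 + d.be2) d.g2 (d.E21 + d.E40 + d.E41 + d.E50))
    (a1 : 27 / 50 * (d.p1 + d.p3 + d.m) ≤ d.al1 + d.be1) (b1 : d.al1 + d.be1 ≤ 17 / 25 * (d.p1 + d.p3 + d.m))
    (a2 : 11 / 25 * (d.p2 + d.p4 + d.m) ≤ d.al2 + d.be2) (b2 : d.al2 + d.be2 ≤ 12 / 25 * (d.p2 + d.p4 + d.m)) :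
    2 < d.g1 + d.g2 := by
  have k1 := q1.chN (a := 27 / 50) (b := 17 / 25) (by norm_num) (by norm_num) a1 b1
  have k2 := q1.ch4 (a := 27 / 50) (b := 17 / 25) (Ha := 35153041 / 3375000) (Hb := 3111696 / 265625) (by norm_num)
    (by norm_num) a1 b1 (by norm_num [f4]) (by norm_num [f4])
  have k3 := q2.chN (a := 11 / 25) (b := 12 / 25) (by norm_num) (by norm_num) a2 b2
  have k4 := q2.ch4 (a := 11 / 25) (b := 12 / 25) (Ha := 1679616 / 171875) (Hb := 1874161 / 187500) (by norm_num)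
    (by norm_num) a2 b2 (by norm_num [f4]) (by norm_num [f4])
  linarith [h.sum, h.hp0, h.hA2, h.hxyz, h.t4, h.t5, h.ie1, h.ie2, h.ray0, h.ray5, h.ray4, h.ray1, h.ms50, h.e10, h.e30, h.e21, h.e40, h.e41, h.e50, h.hf41, h.ms20, h.ms21, h.ms30, h.G1, h.G2, k1, k2, k3, k4, h.n_y, h.n_y3, h.n_z4]

theorem leaf14 {d : SD} (h : Sy d) (q1 : RW (d.p1 + d.p3 + d.m) (d.al1 + d.be1) d.g1 (d.E10 + d.E30 + d.E31 + d.E51))
    (q2 : RW (d.p2 + d.p4 + d.m) (d.al2 + d.be2) d.g2 (d.E21 + d.E40 + d.E41 + d.E50))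
    (a1 : 12 / 25 * (d.p1 + d.p3 + d.m) ≤ d.al1 + d.be1) (b1 : d.al1 + d.be1 ≤ 27 / 50 * (d.p1 + d.p3 + d.m))
    (a2 : 11 / 25 * (d.p2 + d.p4 + d.m) ≤ d.al2 + d.be2) (b2 : d.al2 + d.be2 ≤ 12 / 25 * (d.p2 + d.p4 + d.m)) :
    2 < d.g1 + d.g2 := by
  have k1 := q1.chN (a := 12 / 25) (b := 27 / 50) (by norm_num) (by norm_num) a1 b1
  have k2 := q1.ch4 (a := 12 / 25) (b := 27 / 50) (Ha := 1874161 / 187500) (Hb := 35153041 / 3375000) (by norm_num)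
    (by norm_num) a1 b1 (by norm_num [f4]) (by norm_num [f4])
  have k3 := q2.chN (a := 11 / 25) (b := 12 / 25) (by norm_num) (by norm_num) a2 b2
  have k4 := q2.ch4 (a := 11 / 25) (b := 12 / 25) (Ha := 1679616 / 171875) (Hb := 1874161 / 187500) (by norm_num)
    (by norm_num) a2 b2 (by norm_num [f4]) (by norm_num [f4])
  linarith [h.sum, h.hp0, h.hxyz, h.t4, h.ie1, h.ie2, h.ray0, h.ray5, h.ray4, h.ray1, h.e10, h.e30, h.e21, h.e41, h.hf41, h.ms20, h.ms21, h.ms30, h.G1, h.G2, b1, k1, k2, b2, k3, k4, h.n_y, h.n_y3, h.n_z4]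

theorem leaf15 {d : SD} (h : Sy d) (q1 : RW (d.p1 + d.p3 + d.m) (d.al1 + d.be1) d.g1 (d.E10 + d.E30 + d.E31 + d.E51))
    (q2 : RW (d.p2 + d.p4 + d.m) (d.al2 + d.be2) d.g2 (d.E21 + d.E40 + d.E41 + d.E50))
    (a1 : 12 / 25 * (d.p1 + d.p3 + d.m) ≤ d.al1 + d.be1) (b1 : d.al1 + d.be1 ≤ 17 / 25 * (d.p1 + d.p3 + d.m))
    (a2 : 17 / 50 * (d.p2 + d.p4 + d.m) ≤ d.al2 + d.be2) (b2 : d.al2 + d.be2 ≤ 11 / 25 * (d.p2 + d.p4 + d.m)) :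
    2 < d.g1 + d.g2 := by
  have k1 := q1.chN (a := 12 / 25) (b := 17 / 25) (by norm_num) (by norm_num) a1 b1
  have k2 := q2.chN (a := 17 / 50) (b := 11 / 25) (by norm_num) (by norm_num) a2 b2
  have k3 := q2.ch4 (a := 17 / 50) (b := 11 / 25) (Ha := 20151121 / 2125000) (Hb := 1679616 / 171875) (by norm_num)
    (by norm_num) a2 b2 (by norm_num [f4]) (by norm_num [f4])
  linarith [h.sum, h.hp0, h.hA2, h.hxyz, h.t4, h.t5, h.ie1, h.ie2, h.hf00, h.ray0, h.ray5, h.ray4, h.ray1, h.ms50, h.e10, h.e30, h.e21, h.e40, h.e41, h.e50, h.hf41, h.ms20, h.ms21, h.ms30, h.G1, h.G2, k1, k2, k3, h.n_y, h.n_y3, h.n_z4]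

theorem leaf16 {d : SD} (h : Sy d) (q1 : RW (d.p1 + d.p3 + d.m) (d.al1 + d.be1) d.g1 (d.E10 + d.E30 + d.E31 + d.E51))
    (q2 : RW (d.p2 + d.p4 + d.m) (d.al2 + d.be2) d.g2 (d.E21 + d.E40 + d.E41 + d.E50))
    (a1 : 17 / 50 * (d.p1 + d.p3 + d.m) ≤ d.al1 + d.be1) (b1 : d.al1 + d.be1 ≤ 12 / 25 * (d.p1 + d.p3 + d.m))
    (a2 : 43 / 50 * (d.p2 + d.p4 + d.m) ≤ d.al2 + d.be2) (b2 : d.al2 + d.be2 ≤ 1 * (d.p2 + d.p4 + d.m)) :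
    2 < d.g1 + d.g2 := by
  have k1 := q1.chN (a := 17 / 50) (b := 12 / 25) (by norm_num) (by norm_num) a1 b1
  have k2 := q1.ch4 (a := 17 / 50) (b := 12 / 25) (Ha := 20151121 / 2125000) (Hb := 1874161 / 187500) (by norm_num)
    (by norm_num) a1 b1 (by norm_num [f4]) (by norm_num [f4])
  have k3 := q2.chN (a := 43 / 50) (b := 1) (by norm_num) (by norm_num) a2 b2
  linarith [h.sum, h.hp0, h.hA1, h.hxyz, h.t3, h.t4, h.ie1, h.ie2, h.ie4, h.ie5, h.hf01, h.ray0, h.ray4, h.ray1, h.e10, h.e30, h.e21, h.e41, h.ms10, h.ms11, h.ms21, h.ms30, h.ms41, h.G1, h.G2, k1, k2, a2, k3, h.n_y3, h.n_z4]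

theorem leaf17 {d : SD} (h : Sy d) (q1 : RW (d.p1 + d.p3 + d.m) (d.al1 + d.be1) d.g1 (d.E10 + d.E30 + d.E31 + d.E51))
    (q2 : RW (d.p2 + d.p4 + d.m) (d.al2 + d.be2) d.g2 (d.E21 + d.E40 + d.E41 + d.E50))
    (a1 : 11 / 25 * (d.p1 + d.p3 + d.m) ≤ d.al1 + d.be1) (b1 : d.al1 + d.be1 ≤ 12 / 25 * (d.p1 + d.p3 + d.m))
    (a2 : 7 / 10 * (d.p2 + d.p4 + d.m) ≤ d.al2 + d.be2) (b2 : d.al2 + d.be2 ≤ 43 / 50 * (d.p2 + d.p4 + d.m)) :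
    2 < d.g1 + d.g2 := by
  have k1 := q1.chN (a := 11 / 25) (b := 12 / 25) (by norm_num) (by norm_num) a1 b1
  have k2 := q2.chN (a := 7 / 10) (b := 43 / 50) (by norm_num) (by norm_num) a2 b2
  linarith [h.sum, h.hp0, h.hA1, h.hxyz, h.t3, h.t4, h.ie1, h.ie2, h.ray0, h.ray5, h.ray4, h.ray1, h.ms40, h.ms51, h.e10, h.e30, h.e31, h.e51, h.e21, h.e41, h.hf30, h.ms10, h.ms11, h.ms30, h.ms41, h.G1, h.G2, a1, k1, k2, h.n_y3, h.n_z4]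

theorem leaf18 {d : SD} (h : Sy d) (q1 : RW (d.p1 + d.p3 + d.m) (d.al1 + d.be1) d.g1 (d.E10 + d.E30 + d.E31 + d.E51))
    (q2 : RW (d.p2 + d.p4 + d.m) (d.al2 + d.be2) d.g2 (d.E21 + d.E40 + d.E41 + d.E50))
    (a1 : 21 / 50 * (d.p1 + d.p3 + d.m) ≤ d.al1 + d.be1) (b1 : d.al1 + d.be1 ≤ 11 / 25 * (d.p1 + d.p3 + d.m))
    (a2 : 19 / 25 * (d.p2 + d.p4 + d.m) ≤ d.al2 + d.be2) (b2 : d.al2 + d.be2 ≤ 43 / 50 * (d.p2 + d.p4 + d.m)) :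
    2 < d.g1 + d.g2 := by
  have k1 := q1.chN (a := 21 / 50) (b := 11 / 25) (by norm_num) (by norm_num) a1 b1
  have k2 := q1.ch4 (a := 21 / 50) (b := 11 / 25) (Ha := 25411681 / 2625000) (Hb := 1679616 / 171875) (by norm_num)
    (by norm_num) a1 b1 (by norm_num [f4]) (by norm_num [f4])
  have k3 := q2.chN (a := 19 / 25) (b := 43 / 50) (by norm_num) (by norm_num) a2 b2
  linarith [h.sum, h.hp0, h.hA1, h.hxyz, h.t4, h.ie1, h.ie2, h.ray0, h.ray5, h.ray4, h.ray1, h.ms51, h.e10, h.e30, h.e31, h.e51, h.e21, h.e41, h.hf30, h.ms10, h.ms11, h.ms21, h.ms30, h.ms41, h.G1, h.G2, k1, k2, k3, h.n_z, h.n_u4, h.n_y3, h.n_z4]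

theorem leaf19 {d : SD} (h : Sy d) (q1 : RW (d.p1 + d.p3 + d.m) (d.al1 + d.be1) d.g1 (d.E10 + d.E30 + d.E31 + d.E51))
    (q2 : RW (d.p2 + d.p4 + d.m) (d.al2 + d.be2) d.g2 (d.E21 + d.E40 + d.E41 + d.E50))
    (a1 : 21 / 50 * (d.p1 + d.p3 + d.m) ≤ d.al1 + d.be1) (b1 : d.al1 + d.be1 ≤ 11 / 25 * (d.p1 + d.p3 + d.m))
    (a2 : 7 / 10 * (d.p2 + d.p4 + d.m) ≤ d.al2 + d.be2) (b2 : d.al2 + d.be2 ≤ 19 / 25 * (d.p2 + d.p4 + d.m)) :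
    2 < d.g1 + d.g2 := by
  have k1 := q1.chN (a := 21 / 50) (b := 11 / 25) (by norm_num) (by norm_num) a1 b1
  have k2 := q1.ch4 (a := 21 / 50) (b := 11 / 25) (Ha := 25411681 / 2625000) (Hb := 1679616 / 171875) (by norm_num)
    (by norm_num) a1 b1 (by norm_num [f4]) (by norm_num [f4])
  have k3 := q2.chN (a := 7 / 10) (b := 19 / 25) (by norm_num) (by norm_num) a2 b2
  linarith [h.sum, h.hp0, h.hA1, h.hxyz, h.t4, h.ie1, h.ie2, h.ray0, h.ray5, h.ray4, h.ray1, h.ms51, h.e10, h.e30, h.e31, h.e51, h.e21, h.e41, h.hf30, h.ms10, h.ms11, h.ms21, h.ms41, h.G1, h.G2, k1, k2, b2, k3, h.n_z, h.n_u4, h.n_y3, h.n_z4]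

theorem leaf20 {d : SD} (h : Sy d) (q1 : RW (d.p1 + d.p3 + d.m) (d.al1 + d.be1) d.g1 (d.E10 + d.E30 + d.E31 + d.E51))
    (q2 : RW (d.p2 + d.p4 + d.m) (d.al2 + d.be2) d.g2 (d.E21 + d.E40 + d.E41 + d.E50))
    (a1 : 21 / 50 * (d.p1 + d.p3 + d.m) ≤ d.al1 + d.be1) (b1 : d.al1 + d.be1 ≤ 12 / 25 * (d.p1 + d.p3 + d.m))
    (a2 : 27 / 50 * (d.p2 + d.p4 + d.m) ≤ d.al2 + d.be2) (b2 : d.al2 + d.be2 ≤ 7 / 10 * (d.p2 + d.p4 + d.m)) :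
    2 < d.g1 + d.g2 := by
  have k1 := q1.chN (a := 21 / 50) (b := 12 / 25) (by norm_num) (by norm_num) a1 b1
  have k2 := q1.ch4 (a := 21 / 50) (b := 12 / 25) (Ha := 25411681 / 2625000) (Hb := 1874161 / 187500) (by norm_num)
    (by norm_num) a1 b1 (by norm_num [f4]) (by norm_num [f4])
  have k3 := q2.chN (a := 27 / 50) (b := 7 / 10) (by norm_num) (by norm_num) a2 b2
  have k4 := q2.ch4 (a := 27 / 50) (b := 7 / 10) (Ha := 35153041 / 3375000) (Hb := 83521 / 7000) (by norm_num)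
    (by norm_num) a2 b2 (by norm_num [f4]) (by norm_num [f4])
  linarith [h.sum, h.hp0, h.hA1, h.hxyz, h.t4, h.t5, h.ie1, h.ie2, h.ray0, h.ray5, h.ray4, h.ray1, h.ms51, h.e10, h.e30, h.e31, h.e51, h.e21, h.e41, h.hf30, h.ms10, h.ms11, h.ms41, h.G1, h.G2, k1, k2, k3, k4, h.n_z, h.n_y3, h.n_z4]

theorem leaf21 {d : SD} (h : Sy d) (q1 : RW (d.p1 + d.p3 + d.m) (d.al1 + d.be1) d.g1 (d.E10 + d.E30 + d.E31 + d.E51))
    (q2 : RW (d.p2 + d.p4 + d.m) (d.al2 + d.be2) d.g2 (d.E21 + d.E40 + d.E41 + d.E50))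
    (a1 : 17 / 50 * (d.p1 + d.p3 + d.m) ≤ d.al1 + d.be1) (b1 : d.al1 + d.be1 ≤ 21 / 50 * (d.p1 + d.p3 + d.m))
    (a2 : 27 / 50 * (d.p2 + d.p4 + d.m) ≤ d.al2 + d.be2) (b2 : d.al2 + d.be2 ≤ 43 / 50 * (d.p2 + d.p4 + d.m)) :
    2 < d.g1 + d.g2 := by
  have k1 := q1.chN (a := 17 / 50) (b := 21 / 50) (by norm_num) (by norm_num) a1 b1
  have k2 := q1.ch4 (a := 17 / 50) (b := 21 / 50) (Ha := 20151121 / 2125000) (Hb := 25411681 / 2625000) (by norm_num)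
    (by norm_num) a1 b1 (by norm_num [f4]) (by norm_num [f4])
  have k3 := q2.chN (a := 27 / 50) (b := 43 / 50) (by norm_num) (by norm_num) a2 b2
  linarith [h.sum, h.hp0, h.hA1, h.hxyz, h.t3, h.t5, h.ie1, h.hf01, h.ray5, h.ray1, h.ms40, h.ms51, h.e10, h.e30, h.e31, h.e51, h.hf30, h.ms10, h.ms11, h.ms21, h.ms41, h.G2, b1, k1, k2, k3, h.n_z, h.n_u4, h.n_z4]

theorem leaf22 {d : SD} (h : Sy d) (q1 : RW (d.p1 + d.p3 + d.m) (d.al1 + d.be1) d.g1 (d.E10 + d.E30 + d.E31 + d.E51))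
    (q2 : RW (d.p2 + d.p4 + d.m) (d.al2 + d.be2) d.g2 (d.E21 + d.E40 + d.E41 + d.E50))
    (a1 : 17 / 50 * (d.p1 + d.p3 + d.m) ≤ d.al1 + d.be1) (b1 : d.al1 + d.be1 ≤ 12 / 25 * (d.p1 + d.p3 + d.m))
    (a2 : 17 / 50 * (d.p2 + d.p4 + d.m) ≤ d.al2 + d.be2) (b2 : d.al2 + d.be2 ≤ 27 / 50 * (d.p2 + d.p4 + d.m)) :
    2 < d.g1 + d.g2 := by
  have k1 := q1.chN (a := 17 / 50) (b := 12 / 25) (by norm_num) (by norm_num) a1 b1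
  have k2 := q1.ch4 (a := 17 / 50) (b := 12 / 25) (Ha := 20151121 / 2125000) (Hb := 1874161 / 187500) (by norm_num)
    (by norm_num) a1 b1 (by norm_num [f4]) (by norm_num [f4])
  have k3 := q2.chN (a := 17 / 50) (b := 27 / 50) (by norm_num) (by norm_num) a2 b2
  have k4 := q2.ch4 (a := 17 / 50) (b := 27 / 50) (Ha := 20151121 / 2125000) (Hb := 35153041 / 3375000) (by norm_num)
    (by norm_num) a2 b2 (by norm_num [f4]) (by norm_num [f4])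
  linarith [h.sum, h.hp0, h.hxyz, h.t5, h.ie1, h.ie2, h.ray0, h.ray5, h.ray4, h.ray1, h.e10, h.e30, h.e21, h.e41, h.hf30, h.ms10, h.ms11, h.ms41, h.G1, h.G2, b1, k1, k2, b2, k3, k4, h.n_z, h.n_y3, h.n_z4]

end Pool.Agent.Helper89.GP
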