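import Pool.Agent.Helper89.GP.LeafA

/-!
# The linear certificate for three elements: leaves, second half
-/

namespace Pool.Agent.Helper89.GP

theorem leaf23 {d : SD} (h : Sy d) (q1 : RW (d.p1 + d.p3 + d.m) (d.al1 + d.be1) d.g1 (d.E10 + d.E30 + d.E31 + d.E51))
    (q2 : RW (d.p2 + d.p4 + d.m) (d.al2 + d.be2) d.g2 (d.E21 + d.E40 + d.E41 + d.E50))
    (a1 : 27 / 50 * (d.p1 + d.p3 + d.m) ≤ d.al1 + d.be1) (b1 : d.al1 + d.be1 ≤ 1 * (d.p1 + d.p3 + d.m))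
    (a2 : 3 / 10 * (d.p2 + d.p4 + d.m) ≤ d.al2 + d.be2) (b2 : d.al2 + d.be2 ≤ 17 / 50 * (d.p2 + d.p4 + d.m)) :
    2 < d.g1 + d.g2 := by
  have k1 := q1.chN (a := 27 / 50) (b := 1) (by norm_num) (by norm_num) a1 b1
  have k2 := q2.ch4 (a := 3 / 10) (b := 17 / 50) (Ha := 28561 / 3000) (Hb := 20151121 / 2125000) (by norm_num)
    (by norm_num) a2 b2 (by norm_num [f4]) (by norm_num [f4])
  linarith [h.sum, h.hp0, h.hA2, h.hxyz, h.t5, h.ie2, h.ie5, h.hf00, h.ray0, h.e21, h.e41, h.hf41, h.ms10, h.ms20, h.ms21, h.ms30, h.G1, k1, a2, k2, h.n_y, h.n_z, h.n_u3]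

theorem leaf24 {d : SD} (h : Sy d) (q1 : RW (d.p1 + d.p3 + d.m) (d.al1 + d.be1) d.g1 (d.E10 + d.E30 + d.E31 + d.E51))
    (q2 : RW (d.p2 + d.p4 + d.m) (d.al2 + d.be2) d.g2 (d.E21 + d.E40 + d.E41 + d.E50))
    (a1 : 39 / 50 * (d.p1 + d.p3 + d.m) ≤ d.al1 + d.be1) (b1 : d.al1 + d.be1 ≤ 1 * (d.p1 + d.p3 + d.m))
    (a2 : 11 / 50 * (d.p2 + d.p4 + d.m) ≤ d.al2 + d.be2) (b2 : d.al2 + d.be2 ≤ 3 / 10 * (d.p2 + d.p4 + d.m)) :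
    2 < d.g1 + d.g2 := by
  have k1 := q1.chN (a := 39 / 50) (b := 1) (by norm_num) (by norm_num) a1 b1
  have k2 := q2.ch4 (a := 11 / 50) (b := 3 / 10) (Ha := 13845841 / 1375000) (Hb := 28561 / 3000) (by norm_num)
    (by norm_num) a2 b2 (by norm_num [f4]) (by norm_num [f4])
  have k3 := q2.ch5 (by norm_num) (by norm_num) a2 b2 f5_11 f5_15
  linarith [h.sum, h.hp0, h.hA2, h.hxyz, h.t5, h.t6, h.ie1, h.ie2, h.ie3, h.ie5, h.hf00, h.ray0, h.e21, h.e41, h.hf41, h.ms20, h.ms21, h.G1, k1, k2, k3, h.n_y, h.n_z]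

theorem leaf25 {d : SD} (h : Sy d) (q1 : RW (d.p1 + d.p3 + d.m) (d.al1 + d.be1) d.g1 (d.E10 + d.E30 + d.E31 + d.E51))
    (q2 : RW (d.p2 + d.p4 + d.m) (d.al2 + d.be2) d.g2 (d.E21 + d.E40 + d.E41 + d.E50))
    (a1 : 27 / 50 * (d.p1 + d.p3 + d.m) ≤ d.al1 + d.be1) (b1 : d.al1 + d.be1 ≤ 39 / 50 * (d.p1 + d.p3 + d.m))
    (a2 : 11 / 50 * (d.p2 + d.p4 + d.m) ≤ d.al2 + d.be2) (b2 : d.al2 + d.be2 ≤ 3 / 10 * (d.p2 + d.p4 + d.m)) :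
    2 < d.g1 + d.g2 := by
  have k1 := q1.chN (a := 27 / 50) (b := 39 / 50) (by norm_num) (by norm_num) a1 b1
  have k2 := q2.ch4 (a := 11 / 50) (b := 3 / 10) (Ha := 13845841 / 1375000) (Hb := 28561 / 3000) (by norm_num)
    (by norm_num) a2 b2 (by norm_num [f4]) (by norm_num [f4])
  have k3 := q2.ch5 (by norm_num) (by norm_num) a2 b2 f5_11 f5_15
  linarith [h.sum, h.hp0, h.hA2, h.hxyz, h.t4, h.t6, h.ie2, h.ie3, h.hf00, h.ray0, h.ms31, h.e21, h.e41, h.hf41, h.ms10, h.ms20, h.ms21, h.G1, k1, k2, k3, h.n_y, h.n_z, h.n_y3]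

theorem leaf26 {d : SD} (h : Sy d) (q1 : RW (d.p1 + d.p3 + d.m) (d.al1 + d.be1) d.g1 (d.E10 + d.E30 + d.E31 + d.E51))
    (q2 : RW (d.p2 + d.p4 + d.m) (d.al2 + d.be2) d.g2 (d.E21 + d.E40 + d.E41 + d.E50))
    (a1 : 39 / 50 * (d.p1 + d.p3 + d.m) ≤ d.al1 + d.be1) (b1 : d.al1 + d.be1 ≤ 1 * (d.p1 + d.p3 + d.m))
    (a2 : 9 / 50 * (d.p2 + d.p4 + d.m) ≤ d.al2 + d.be2) (b2 : d.al2 + d.be2 ≤ 11 / 50 * (d.p2 + d.p4 + d.m)) :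
    2 < d.g1 + d.g2 := by
  have k1 := q1.chN (a := 39 / 50) (b := 1) (by norm_num) (by norm_num) a1 b1
  have k2 := q2.ch5 (by norm_num) (by norm_num) a2 b2 f5_9 f5_11
  have k3 := q2.chJ (by norm_num) (by norm_num) (by norm_num) a2 b2 fJ_9_8 fJ_11_8
  linarith [h.sum, h.hp0, h.hA2, h.hxyz, h.t5, h.t6, h.ie2, h.ie3, h.hf00, h.ms51, h.e21, h.e41, h.hf41, h.ms10, h.ms20, h.ms21, h.G1, k1, k2, k3, h.n_y, h.n_z, h.n_z2, h.n_w51]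

theorem leaf27 {d : SD} (h : Sy d) (q1 : RW (d.p1 + d.p3 + d.m) (d.al1 + d.be1) d.g1 (d.E10 + d.E30 + d.E31 + d.E51))
    (q2 : RW (d.p2 + d.p4 + d.m) (d.al2 + d.be2) d.g2 (d.E21 + d.E40 + d.E41 + d.E50))
    (a1 : 27 / 50 * (d.p1 + d.p3 + d.m) ≤ d.al1 + d.be1) (b1 : d.al1 + d.be1 ≤ 39 / 50 * (d.p1 + d.p3 + d.m))
    (a2 : 9 / 50 * (d.p2 + d.p4 + d.m) ≤ d.al2 + d.be2) (b2 : d.al2 + d.be2 ≤ 11 / 50 * (d.p2 + d.p4 + d.m)) :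
    2 < d.g1 + d.g2 := by
  have k1 := q1.chN (a := 27 / 50) (b := 39 / 50) (by norm_num) (by norm_num) a1 b1
  have k2 := q1.ch4 (a := 27 / 50) (b := 39 / 50) (Ha := 35153041 / 3375000) (Hb := 62742241 / 4875000) (by norm_num)
    (by norm_num) a1 b1 (by norm_num [f4]) (by norm_num [f4])
  have k3 := q2.ch5 (by norm_num) (by norm_num) a2 b2 f5_9 f5_11
  have k4 := q2.chJ (by norm_num) (by norm_num) (by norm_num) a2 b2 fJ_9_8 fJ_11_8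
  linarith [h.sum, h.hp0, h.hA2, h.hxyz, h.t3, h.t4, h.ie2, h.hf00, h.ray0, h.e21, h.e41, h.hf41, h.ms20, h.ms21, h.G1, k1, k2, k3, k4, h.n_y, h.n_z2]

theorem leaf28 {d : SD} (h : Sy d) (q1 : RW (d.p1 + d.p3 + d.m) (d.al1 + d.be1) d.g1 (d.E10 + d.E30 + d.E31 + d.E51))
    (q2 : RW (d.p2 + d.p4 + d.m) (d.al2 + d.be2) d.g2 (d.E21 + d.E40 + d.E41 + d.E50))
    (a1 : 17 / 50 * (d.p1 + d.p3 + d.m) ≤ d.al1 + d.be1) (b1 : d.al1 + d.be1 ≤ 27 / 50 * (d.p1 + d.p3 + d.m))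
    (a2 : 9 / 50 * (d.p2 + d.p4 + d.m) ≤ d.al2 + d.be2) (b2 : d.al2 + d.be2 ≤ 17 / 50 * (d.p2 + d.p4 + d.m)) :
    2 < d.g1 + d.g2 := by
  have k1 := q1.ch4 (a := 17 / 50) (b := 27 / 50) (Ha := 20151121 / 2125000) (Hb := 35153041 / 3375000) (by norm_num)
    (by norm_num) a1 b1 (by norm_num [f4]) (by norm_num [f4])
  have k2 := q2.ch4 (a := 9 / 50) (b := 17 / 50) (Ha := 12117361 / 1125000) (Hb := 20151121 / 2125000) (by norm_num)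
    (by norm_num) a2 b2 (by norm_num [f4]) (by norm_num [f4])
  have k3 := q2.ch5 (by norm_num) (by norm_num) a2 b2 f5_9 f5_17
  linarith [h.sum, h.hp0, h.hA2, h.hxyz, b1, k1, k2, k3]

theorem leaf29 {d : SD} (h : Sy d) (q1 : RW (d.p1 + d.p3 + d.m) (d.al1 + d.be1) d.g1 (d.E10 + d.E30 + d.E31 + d.E51))
    (q2 : RW (d.p2 + d.p4 + d.m) (d.al2 + d.be2) d.g2 (d.E21 + d.E40 + d.E41 + d.E50))
    (a1 : 3 / 10 * (d.p1 + d.p3 + d.m) ≤ d.al1 + d.be1) (b1 : d.al1 + d.be1 ≤ 17 / 50 * (d.p1 + d.p3 + d.m))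
    (a2 : 1 / 2 * (d.p2 + d.p4 + d.m) ≤ d.al2 + d.be2) (b2 : d.al2 + d.be2 ≤ 1 * (d.p2 + d.p4 + d.m)) :
    2 < d.g1 + d.g2 := by
  have k1 := q1.ch4 (a := 3 / 10) (b := 17 / 50) (Ha := 28561 / 3000) (Hb := 20151121 / 2125000) (by norm_num)
    (by norm_num) a1 b1 (by norm_num [f4]) (by norm_num [f4])
  have k2 := q2.chN (a := 1 / 2) (b := 1) (by norm_num) (by norm_num) a2 b2
  linarith [h.sum, h.hp0, h.hA1, h.hxyz, h.t4, h.t6, h.ie1, h.hf01, h.ray5, h.e10, h.e30, h.hf30, h.ms10, h.ms11, h.ms21, h.ms41, h.G2, a1, k1, k2, h.n_z, h.n_u4]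

theorem leaf30 {d : SD} (h : Sy d) (q1 : RW (d.p1 + d.p3 + d.m) (d.al1 + d.be1) d.g1 (d.E10 + d.E30 + d.E31 + d.E51))
    (q2 : RW (d.p2 + d.p4 + d.m) (d.al2 + d.be2) d.g2 (d.E21 + d.E40 + d.E41 + d.E50))
    (a1 : 11 / 50 * (d.p1 + d.p3 + d.m) ≤ d.al1 + d.be1) (b1 : d.al1 + d.be1 ≤ 3 / 10 * (d.p1 + d.p3 + d.m))
    (a2 : 19 / 25 * (d.p2 + d.p4 + d.m) ≤ d.al2 + d.be2) (b2 : d.al2 + d.be2 ≤ 1 * (d.p2 + d.p4 + d.m)) :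
    2 < d.g1 + d.g2 := by
  have k1 := q1.ch4 (a := 11 / 50) (b := 3 / 10) (Ha := 13845841 / 1375000) (Hb := 28561 / 3000) (by norm_num)
    (by norm_num) a1 b1 (by norm_num [f4]) (by norm_num [f4])
  have k2 := q1.ch5 (by norm_num) (by norm_num) a1 b1 f5_11 f5_15
  have k3 := q2.chN (a := 19 / 25) (b := 1) (by norm_num) (by norm_num) a2 b2
  linarith [h.sum, h.hp0, h.hA1, h.hxyz, h.t4, h.ie1, h.hf01, h.ray5, h.ms50, h.e10, h.e30, h.hf30, h.ms10, h.ms11, h.ms21, h.ms41, h.G2, k1, k2, k3, h.n_y, h.n_z, h.n_u4, h.n_w50]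

theorem leaf31 {d : SD} (h : Sy d) (q1 : RW (d.p1 + d.p3 + d.m) (d.al1 + d.be1) d.g1 (d.E10 + d.E30 + d.E31 + d.E51))
    (q2 : RW (d.p2 + d.p4 + d.m) (d.al2 + d.be2) d.g2 (d.E21 + d.E40 + d.E41 + d.E50))
    (a1 : 11 / 50 * (d.p1 + d.p3 + d.m) ≤ d.al1 + d.be1) (b1 : d.al1 + d.be1 ≤ 3 / 10 * (d.p1 + d.p3 + d.m))
    (a2 : 1 / 2 * (d.p2 + d.p4 + d.m) ≤ d.al2 + d.be2) (b2 : d.al2 + d.be2 ≤ 19 / 25 * (d.p2 + d.p4 + d.m)) :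
    2 < d.g1 + d.g2 := by
  have k1 := q1.ch4 (a := 11 / 50) (b := 3 / 10) (Ha := 13845841 / 1375000) (Hb := 28561 / 3000) (by norm_num)
    (by norm_num) a1 b1 (by norm_num [f4]) (by norm_num [f4])
  have k2 := q1.ch5 (by norm_num) (by norm_num) a1 b1 f5_11 f5_15
  have k3 := q2.chN (a := 1 / 2) (b := 19 / 25) (by norm_num) (by norm_num) a2 b2
  have k4 := q2.ch4 (a := 1 / 2) (b := 19 / 25) (Ha := 81 / 8) (Hb := 3748096 / 296875) (by norm_num)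
    (by norm_num) a2 b2 (by norm_num [f4]) (by norm_num [f4])
  linarith [h.sum, h.hp0, h.hA1, h.hxyz, h.t5, h.t6, h.ie1, h.hf01, h.ray5, h.e10, h.e30, h.hf30, h.ms10, h.ms11, h.ms21, h.ms41, h.G2, k1, k2, k3, k4, h.n_z, h.n_u4]

theorem leaf32 {d : SD} (h : Sy d) (q1 : RW (d.p1 + d.p3 + d.m) (d.al1 + d.be1) d.g1 (d.E10 + d.E30 + d.E31 + d.E51))
    (q2 : RW (d.p2 + d.p4 + d.m) (d.al2 + d.be2) d.g2 (d.E21 + d.E40 + d.E41 + d.E50))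
    (a1 : 1 / 5 * (d.p1 + d.p3 + d.m) ≤ d.al1 + d.be1) (b1 : d.al1 + d.be1 ≤ 11 / 50 * (d.p1 + d.p3 + d.m))
    (a2 : 7 / 10 * (d.p2 + d.p4 + d.m) ≤ d.al2 + d.be2) (b2 : d.al2 + d.be2 ≤ 1 * (d.p2 + d.p4 + d.m)) :
    2 < d.g1 + d.g2 := by
  have k1 := q1.ch5 (by norm_num) (by norm_num) a1 b1 f5_10 f5_11
  have k2 := q2.chN (a := 7 / 10) (b := 1) (by norm_num) (by norm_num) a2 b2
  linarith [h.sum, h.hp0, h.hA1, h.hxyz, h.t1, h.t3, h.t4, h.t6, h.ie1, h.ie2, h.ie4, h.hf01, h.ms50, h.e10, h.e30, h.hf30, h.ms10, h.ms11, h.G2, a1, k1, k2, h.n_w50]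

theorem leaf33 {d : SD} (h : Sy d) (q1 : RW (d.p1 + d.p3 + d.m) (d.al1 + d.be1) d.g1 (d.E10 + d.E30 + d.E31 + d.E51))
    (q2 : RW (d.p2 + d.p4 + d.m) (d.al2 + d.be2) d.g2 (d.E21 + d.E40 + d.E41 + d.E50))
    (a1 : 9 / 50 * (d.p1 + d.p3 + d.m) ≤ d.al1 + d.be1) (b1 : d.al1 + d.be1 ≤ 1 / 5 * (d.p1 + d.p3 + d.m))
    (a2 : 7 / 10 * (d.p2 + d.p4 + d.m) ≤ d.al2 + d.be2) (b2 : d.al2 + d.be2 ≤ 1 * (d.p2 + d.p4 + d.m)) :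
    2 < d.g1 + d.g2 := by
  have k1 := q1.ch5 (by norm_num) (by norm_num) a1 b1 f5_9 f5_10
  have k2 := q1.chJ (by norm_num) (by norm_num) (by norm_num) a1 b1 fJ_9_8 fJ_10_8
  have k3 := q2.chN (a := 7 / 10) (b := 1) (by norm_num) (by norm_num) a2 b2
  linarith [h.sum, h.hp0, h.hA1, h.hxyz, h.t4, h.ie1, h.hf01, h.ms50, h.e10, h.e30, h.hf30, h.ms10, h.ms11, h.ms21, h.ms41, h.G2, k1, k2, k3, h.n_y, h.n_z, h.n_y2, h.n_u4, h.n_w50]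

theorem leaf34 {d : SD} (h : Sy d) (q1 : RW (d.p1 + d.p3 + d.m) (d.al1 + d.be1) d.g1 (d.E10 + d.E30 + d.E31 + d.E51))
    (q2 : RW (d.p2 + d.p4 + d.m) (d.al2 + d.be2) d.g2 (d.E21 + d.E40 + d.E41 + d.E50))
    (a1 : 9 / 50 * (d.p1 + d.p3 + d.m) ≤ d.al1 + d.be1) (b1 : d.al1 + d.be1 ≤ 11 / 50 * (d.p1 + d.p3 + d.m))
    (a2 : 1 / 2 * (d.p2 + d.p4 + d.m) ≤ d.al2 + d.be2) (b2 : d.al2 + d.be2 ≤ 7 / 10 * (d.p2 + d.p4 + d.m)) :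
    2 < d.g1 + d.g2 := by
  have k1 := q1.ch5 (by norm_num) (by norm_num) a1 b1 f5_9 f5_11
  have k2 := q1.chJ (by norm_num) (by norm_num) (by norm_num) a1 b1 fJ_9_8 fJ_11_8
  have k3 := q2.chN (a := 1 / 2) (b := 7 / 10) (by norm_num) (by norm_num) a2 b2
  have k4 := q2.ch4 (a := 1 / 2) (b := 7 / 10) (Ha := 81 / 8) (Hb := 83521 / 7000) (by norm_num)
    (by norm_num) a2 b2 (by norm_num [f4]) (by norm_num [f4])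
  linarith [h.sum, h.hp0, h.hA1, h.hxyz, h.t5, h.ie1, h.hf01, h.ray5, h.e10, h.e30, h.hf30, h.ms10, h.ms11, h.G2, k1, k2, k3, k4, h.n_y, h.n_z, h.n_y2]

theorem leaf35 {d : SD} (h : Sy d) (q1 : RW (d.p1 + d.p3 + d.m) (d.al1 + d.be1) d.g1 (d.E10 + d.E30 + d.E31 + d.E51))
    (q2 : RW (d.p2 + d.p4 + d.m) (d.al2 + d.be2) d.g2 (d.E21 + d.E40 + d.E41 + d.E50))
    (a1 : 1 / 5 * (d.p1 + d.p3 + d.m) ≤ d.al1 + d.be1) (b1 : d.al1 + d.be1 ≤ 17 / 50 * (d.p1 + d.p3 + d.m))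
    (a2 : 9 / 50 * (d.p2 + d.p4 + d.m) ≤ d.al2 + d.be2) (b2 : d.al2 + d.be2 ≤ 1 / 2 * (d.p2 + d.p4 + d.m)) :
    2 < d.g1 + d.g2 := by
  have k1 := q1.ch4 (a := 1 / 5) (b := 17 / 50) (Ha := 1296 / 125) (Hb := 20151121 / 2125000) (by norm_num)
    (by norm_num) a1 b1 (by norm_num [f4]) (by norm_num [f4])
  have k2 := q1.ch5 (by norm_num) (by norm_num) a1 b1 f5_10 f5_17
  have k3 := q2.ch4 (a := 9 / 50) (b := 1 / 2) (Ha := 12117361 / 1125000) (Hb := 81 / 8) (by norm_num)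
    (by norm_num) a2 b2 (by norm_num [f4]) (by norm_num [f4])
  have k4 := q2.ch5 (by norm_num) (by norm_num) a2 b2 f5_9 f5_25
  linarith [h.sum, h.hp0, h.hA1, h.hxyz, k1, k2, k3, k4]

theorem leaf36 {d : SD} (h : Sy d) (q1 : RW (d.p1 + d.p3 + d.m) (d.al1 + d.be1) d.g1 (d.E10 + d.E30 + d.E31 + d.E51))
    (q2 : RW (d.p2 + d.p4 + d.m) (d.al2 + d.be2) d.g2 (d.E21 + d.E40 + d.E41 + d.E50))
    (a1 : 9 / 50 * (d.p1 + d.p3 + d.m) ≤ d.al1 + d.be1) (b1 : d.al1 + d.be1 ≤ 1 / 5 * (d.p1 + d.p3 + d.m))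
    (a2 : 9 / 50 * (d.p2 + d.p4 + d.m) ≤ d.al2 + d.be2) (b2 : d.al2 + d.be2 ≤ 1 / 2 * (d.p2 + d.p4 + d.m)) :
    2 < d.g1 + d.g2 := by
  have k1 := q1.ch5 (by norm_num) (by norm_num) a1 b1 f5_9 f5_10
  have k2 := q1.chJ (by norm_num) (by norm_num) (by norm_num) a1 b1 fJ_9_8 fJ_10_8
  have k3 := q2.ch4 (a := 9 / 50) (b := 1 / 2) (Ha := 12117361 / 1125000) (Hb := 81 / 8) (by norm_num)
    (by norm_num) a2 b2 (by norm_num [f4]) (by norm_num [f4])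
  have k4 := q2.ch5 (by norm_num) (by norm_num) a2 b2 f5_9 f5_25
  linarith [h.sum, h.hp0, h.hA1, h.hxyz, k1, k2, k3, k4]

theorem leaf37 {d : SD} (h : Sy d) (q1 : RW (d.p1 + d.p3 + d.m) (d.al1 + d.be1) d.g1 (d.E10 + d.E30 + d.E31 + d.E51))
    (q2 : RW (d.p2 + d.p4 + d.m) (d.al2 + d.be2) d.g2 (d.E21 + d.E40 + d.E41 + d.E50))
    (a1 : 21 / 50 * (d.p1 + d.p3 + d.m) ≤ d.al1 + d.be1) (b1 : d.al1 + d.be1 ≤ 1 * (d.p1 + d.p3 + d.m))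
    (a2 : 7 / 50 * (d.p2 + d.p4 + d.m) ≤ d.al2 + d.be2) (b2 : d.al2 + d.be2 ≤ 9 / 50 * (d.p2 + d.p4 + d.m)) :
    2 < d.g1 + d.g2 := by
  have k1 := q1.chN (a := 21 / 50) (b := 1) (by norm_num) (by norm_num) a1 b1
  have k2 := q1.ch4 (a := 21 / 50) (b := 1) (Ha := 25411681 / 2625000) (Hb := 16) (by norm_num)
    (by norm_num) a1 b1 (by norm_num [f4]) (by norm_num [f4])
  have k3 := q2.chJ (by norm_num) (by norm_num) (by norm_num) a2 b2 fJ_7_9 fJ_9_9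
  have k4 := q2.chJ (by norm_num) (by norm_num) (by norm_num) a2 b2 fJ_7_10 fJ_9_10
  linarith [h.sum, h.hp0, h.hA2, h.hxyz, h.t4, h.ie2, h.hf00, h.ray0, h.e21, h.e41, h.hf41, h.ms20, h.ms21, h.G1, k1, k2, k3, k4, h.n_y, h.n_z, h.n_z2]

theorem leaf38 {d : SD} (h : Sy d) (q1 : RW (d.p1 + d.p3 + d.m) (d.al1 + d.be1) d.g1 (d.E10 + d.E30 + d.E31 + d.E51))
    (q2 : RW (d.p2 + d.p4 + d.m) (d.al2 + d.be2) d.g2 (d.E21 + d.E40 + d.E41 + d.E50))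
    (a1 : 21 / 50 * (d.p1 + d.p3 + d.m) ≤ d.al1 + d.be1) (b1 : d.al1 + d.be1 ≤ 1 * (d.p1 + d.p3 + d.m))
    (a2 : 2 / 25 * (d.p2 + d.p4 + d.m) ≤ d.al2 + d.be2) (b2 : d.al2 + d.be2 ≤ 7 / 50 * (d.p2 + d.p4 + d.m)) :
    2 < d.g1 + d.g2 := by
  have k1 := q1.chN (a := 21 / 50) (b := 1) (by norm_num) (by norm_num) a1 b1
  have k2 := q1.ch4 (a := 21 / 50) (b := 1) (Ha := 25411681 / 2625000) (Hb := 16) (by norm_num)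
    (by norm_num) a1 b1 (by norm_num [f4]) (by norm_num [f4])
  have k3 := q2.chJ (by norm_num) (by norm_num) (by norm_num) a2 b2 fJ_4_14 fJ_7_14
  have k4 := q2.chJ (by norm_num) (by norm_num) (by norm_num) a2 b2 fJ_4_16 fJ_7_16
  linarith [h.sum, h.hp0, h.hA2, h.hxyz, h.t2, h.t4, h.ie2, h.hf00, h.ray0, h.e21, h.e41, h.hf41, h.ms20, h.ms21, h.G1, k1, k2, k3, k4, h.n_y, h.n_z]

theorem leaf39 {d : SD} (h : Sy d) (q1 : RW (d.p1 + d.p3 + d.m) (d.al1 + d.be1) d.g1 (d.E10 + d.E30 + d.E31 + d.E51))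
    (q2 : RW (d.p2 + d.p4 + d.m) (d.al2 + d.be2) d.g2 (d.E21 + d.E40 + d.E41 + d.E50))
    (a1 : 1 / 5 * (d.p1 + d.p3 + d.m) ≤ d.al1 + d.be1) (b1 : d.al1 + d.be1 ≤ 21 / 50 * (d.p1 + d.p3 + d.m))
    (a2 : 2 / 25 * (d.p2 + d.p4 + d.m) ≤ d.al2 + d.be2) (b2 : d.al2 + d.be2 ≤ 9 / 50 * (d.p2 + d.p4 + d.m)) :
    2 < d.g1 + d.g2 := by
  have k1 := q1.ch4 (a := 1 / 5) (b := 21 / 50) (Ha := 1296 / 125) (Hb := 25411681 / 2625000) (by norm_num)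
    (by norm_num) a1 b1 (by norm_num [f4]) (by norm_num [f4])
  have k2 := q1.ch5 (by norm_num) (by norm_num) a1 b1 f5_10 f5_21
  have k3 := q2.chJ (by norm_num) (by norm_num) (by norm_num) a2 b2 fJ_4_12 fJ_9_12
  have k4 := q2.chJ (by norm_num) (by norm_num) (by norm_num) a2 b2 fJ_4_14 fJ_9_14
  linarith [h.sum, h.hp0, h.hA2, h.hxyz, k1, k2, k3, k4]

theorem leaf40 {d : SD} (h : Sy d) (q1 : RW (d.p1 + d.p3 + d.m) (d.al1 + d.be1) d.g1 (d.E10 + d.E30 + d.E31 + d.E51))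
    (q2 : RW (d.p2 + d.p4 + d.m) (d.al2 + d.be2) d.g2 (d.E21 + d.E40 + d.E41 + d.E50))
    (a1 : 9 / 50 * (d.p1 + d.p3 + d.m) ≤ d.al1 + d.be1) (b1 : d.al1 + d.be1 ≤ 1 / 5 * (d.p1 + d.p3 + d.m))
    (a2 : 2 / 25 * (d.p2 + d.p4 + d.m) ≤ d.al2 + d.be2) (b2 : d.al2 + d.be2 ≤ 9 / 50 * (d.p2 + d.p4 + d.m)) :
    2 < d.g1 + d.g2 := by
  have k1 := q1.chJ (by norm_num) (by norm_num) (by norm_num) a1 b1 fJ_9_9 fJ_10_9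
  have k2 := q2.chJ (by norm_num) (by norm_num) (by norm_num) a2 b2 fJ_4_12 fJ_9_12
  have k3 := q2.chJ (by norm_num) (by norm_num) (by norm_num) a2 b2 fJ_4_14 fJ_9_14
  linarith [h.sum, h.hp0, h.hA2, h.hxyz, b1, k1, k2, k3]

theorem leaf41 {d : SD} (h : Sy d) (q1 : RW (d.p1 + d.p3 + d.m) (d.al1 + d.be1) d.g1 (d.E10 + d.E30 + d.E31 + d.E51))
    (q2 : RW (d.p2 + d.p4 + d.m) (d.al2 + d.be2) d.g2 (d.E21 + d.E40 + d.E41 + d.E50))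
    (a1 : 3 / 25 * (d.p1 + d.p3 + d.m) ≤ d.al1 + d.be1) (b1 : d.al1 + d.be1 ≤ 9 / 50 * (d.p1 + d.p3 + d.m))
    (a2 : 12 / 25 * (d.p2 + d.p4 + d.m) ≤ d.al2 + d.be2) (b2 : d.al2 + d.be2 ≤ 1 * (d.p2 + d.p4 + d.m)) :
    2 < d.g1 + d.g2 := by
  have k1 := q1.chJ (by norm_num) (by norm_num) (by norm_num) a1 b1 fJ_6_10 fJ_9_10
  have k2 := q1.chJ (by norm_num) (by norm_num) (by norm_num) a1 b1 fJ_6_11 fJ_9_11
  have k3 := q2.chN (a := 12 / 25) (b := 1) (by norm_num) (by norm_num) a2 b2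
  linarith [h.sum, h.hp0, h.hA1, h.hxyz, h.t4, h.t5, h.ie1, h.hf01, h.ray5, h.e10, h.e30, h.hf30, h.ms10, h.ms11, h.G2, k1, k2, k3, h.n_y, h.n_z, h.n_y2]

theorem leaf42 {d : SD} (h : Sy d) (q1 : RW (d.p1 + d.p3 + d.m) (d.al1 + d.be1) d.g1 (d.E10 + d.E30 + d.E31 + d.E51))
    (q2 : RW (d.p2 + d.p4 + d.m) (d.al2 + d.be2) d.g2 (d.E21 + d.E40 + d.E41 + d.E50))
    (a1 : 3 / 25 * (d.p1 + d.p3 + d.m) ≤ d.al1 + d.be1) (b1 : d.al1 + d.be1 ≤ 9 / 50 * (d.p1 + d.p3 + d.m))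
    (a2 : 13 / 50 * (d.p2 + d.p4 + d.m) ≤ d.al2 + d.be2) (b2 : d.al2 + d.be2 ≤ 12 / 25 * (d.p2 + d.p4 + d.m)) :
    2 < d.g1 + d.g2 := by
  have k1 := q1.chJ (by norm_num) (by norm_num) (by norm_num) a1 b1 fJ_6_10 fJ_9_10
  have k2 := q1.chJ (by norm_num) (by norm_num) (by norm_num) a1 b1 fJ_6_11 fJ_9_11
  have k3 := q2.ch4 (a := 13 / 50) (b := 12 / 25) (Ha := 15752961 / 1625000) (Hb := 1874161 / 187500) (by norm_num)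
    (by norm_num) a2 b2 (by norm_num [f4]) (by norm_num [f4])
  linarith [h.sum, h.hp0, h.hA1, h.hxyz, k1, k2, b2, k3]

theorem leaf43 {d : SD} (h : Sy d) (q1 : RW (d.p1 + d.p3 + d.m) (d.al1 + d.be1) d.g1 (d.E10 + d.E30 + d.E31 + d.E51))
    (q2 : RW (d.p2 + d.p4 + d.m) (d.al2 + d.be2) d.g2 (d.E21 + d.E40 + d.E41 + d.E50))
    (a1 : 2 / 25 * (d.p1 + d.p3 + d.m) ≤ d.al1 + d.be1) (b1 : d.al1 + d.be1 ≤ 3 / 25 * (d.p1 + d.p3 + d.m))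
    (a2 : 13 / 50 * (d.p2 + d.p4 + d.m) ≤ d.al2 + d.be2) (b2 : d.al2 + d.be2 ≤ 1 * (d.p2 + d.p4 + d.m)) :
    2 < d.g1 + d.g2 := by
  have k1 := q1.chJ (by norm_num) (by norm_num) (by norm_num) a1 b1 fJ_4_16 fJ_6_16
  have k2 := q1.chJ (by norm_num) (by norm_num) (by norm_num) a1 b1 fJ_4_18 fJ_6_18
  have k3 := q2.chN (a := 13 / 50) (b := 1) (by norm_num) (by norm_num) a2 b2
  have k4 := q2.ch4 (a := 13 / 50) (b := 1) (Ha := 15752961 / 1625000) (Hb := 16) (by norm_num)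
    (by norm_num) a2 b2 (by norm_num [f4]) (by norm_num [f4])
  linarith [h.sum, h.hp0, h.hA1, h.hxyz, h.t1, h.t5, h.t6, h.ie1, h.hf01, h.ray5, h.e10, h.e30, h.hf30, h.ms10, h.ms11, h.G2, k1, k2, k3, k4, h.n_z]

theorem leaf44 {d : SD} (h : Sy d) (q1 : RW (d.p1 + d.p3 + d.m) (d.al1 + d.be1) d.g1 (d.E10 + d.E30 + d.E31 + d.E51))
    (q2 : RW (d.p2 + d.p4 + d.m) (d.al2 + d.be2) d.g2 (d.E21 + d.E40 + d.E41 + d.E50))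
    (a1 : 2 / 25 * (d.p1 + d.p3 + d.m) ≤ d.al1 + d.be1) (b1 : d.al1 + d.be1 ≤ 9 / 50 * (d.p1 + d.p3 + d.m))
    (a2 : 3 / 25 * (d.p2 + d.p4 + d.m) ≤ d.al2 + d.be2) (b2 : d.al2 + d.be2 ≤ 13 / 50 * (d.p2 + d.p4 + d.m)) :
    2 < d.g1 + d.g2 := by
  have k1 := q1.chJ (by norm_num) (by norm_num) (by norm_num) a1 b1 fJ_4_12 fJ_9_12
  have k2 := q1.chJ (by norm_num) (by norm_num) (by norm_num) a1 b1 fJ_4_14 fJ_9_14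
  have k3 := q2.ch5 (by norm_num) (by norm_num) a2 b2 f5_6 f5_13
  have k4 := q2.chJ (by norm_num) (by norm_num) (by norm_num) a2 b2 fJ_6_8 fJ_13_8
  linarith [h.sum, h.hp0, h.hA1, h.hxyz, k1, k2, k3, k4]

theorem leaf45 {d : SD} (h : Sy d) (q1 : RW (d.p1 + d.p3 + d.m) (d.al1 + d.be1) d.g1 (d.E10 + d.E30 + d.E31 + d.E51))
    (q2 : RW (d.p2 + d.p4 + d.m) (d.al2 + d.be2) d.g2 (d.E21 + d.E40 + d.E41 + d.E50))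
    (a1 : 2 / 25 * (d.p1 + d.p3 + d.m) ≤ d.al1 + d.be1) (b1 : d.al1 + d.be1 ≤ 9 / 50 * (d.p1 + d.p3 + d.m))
    (a2 : 2 / 25 * (d.p2 + d.p4 + d.m) ≤ d.al2 + d.be2) (b2 : d.al2 + d.be2 ≤ 3 / 25 * (d.p2 + d.p4 + d.m)) :
    2 < d.g1 + d.g2 := by
  have k1 := q1.chJ (by norm_num) (by norm_num) (by norm_num) a1 b1 fJ_4_12 fJ_9_12
  have k2 := q1.chJ (by norm_num) (by norm_num) (by norm_num) a1 b1 fJ_4_14 fJ_9_14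
  have k3 := q2.chJ (by norm_num) (by norm_num) (by norm_num) a2 b2 fJ_4_16 fJ_6_16
  have k4 := q2.chJ (by norm_num) (by norm_num) (by norm_num) a2 b2 fJ_4_18 fJ_6_18
  linarith [h.sum, h.hp0, h.hA2, h.hxyz, k1, k2, k3, k4]

end Pool.Agent.Helper89.GP
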