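import Pool.Agent.Helper89.GP.LeafB
import Pool.Agent.Helper89.GP.LeafC

/-!
# The linear certificate for three elements: conclusion
-/

namespace Pool.Agent.Helper89.GP

/-- All cells. -/
theorem leaves {d : SD} (h : Sy d) (q1 : RW (d.p1 + d.p3 + d.m) (d.al1 + d.be1) d.g1 (d.E10 + d.E30 + d.E31 + d.E51))
    (q2 : RW (d.p2 + d.p4 + d.m) (d.al2 + d.be2) d.g2 (d.E21 + d.E40 + d.E41 + d.E50))
    (a1 : 2 / 25 * (d.p1 + d.p3 + d.m) ≤ d.al1 + d.be1) (b1 : d.al1 + d.be1 ≤ 1 * (d.p1 + d.p3 + d.m))
    (a2 : 2 / 25 * (d.p2 + d.p4 + d.m) ≤ d.al2 + d.be2) (b2 : d.al2 + d.be2 ≤ 1 * (d.p2 + d.p4 + d.m)) :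
    2 < d.g1 + d.g2 := by
  rcases le_total (d.al1 + d.be1) (9 / 50 * (d.p1 + d.p3 + d.m)) with b1 | a1
  · rcases le_total (d.al2 + d.be2) (13 / 50 * (d.p2 + d.p4 + d.m)) with b2 | a2
    · rcases le_total (d.al2 + d.be2) (3 / 25 * (d.p2 + d.p4 + d.m)) with b2 | a2
      · exact leaf45 h q1 q2 a1 b1 a2 b2
      · exact leaf44 h q1 q2 a1 b1 a2 b2
    · rcases le_total (d.al1 + d.be1) (3 / 25 * (d.p1 + d.p3 + d.m)) with b1 | a1
      · exact leaf43 h q1 q2 a1 b1 a2 b2
      · rcases le_total (d.al2 + d.be2) (12 / 25 * (d.p2 + d.p4 + d.m)) with b2 | a2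
        · exact leaf42 h q1 q2 a1 b1 a2 b2
        · exact leaf41 h q1 q2 a1 b1 a2 b2
  · rcases le_total (d.al2 + d.be2) (9 / 50 * (d.p2 + d.p4 + d.m)) with b2 | a2
    · rcases le_total (d.al1 + d.be1) (21 / 50 * (d.p1 + d.p3 + d.m)) with b1 | a1
      · rcases le_total (d.al1 + d.be1) (1 / 5 * (d.p1 + d.p3 + d.m)) with b1 | a1
        · exact leaf40 h q1 q2 a1 b1 a2 b2
        · exact leaf39 h q1 q2 a1 b1 a2 b2
      · rcases le_total (d.al2 + d.be2) (7 / 50 * (d.p2 + d.p4 + d.m)) with b2 | a2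
        · exact leaf38 h q1 q2 a1 b1 a2 b2
        · exact leaf37 h q1 q2 a1 b1 a2 b2
    · rcases le_total (d.al1 + d.be1) (17 / 50 * (d.p1 + d.p3 + d.m)) with b1 | a1
      · rcases le_total (d.al2 + d.be2) (1 / 2 * (d.p2 + d.p4 + d.m)) with b2 | a2
        · rcases le_total (d.al1 + d.be1) (1 / 5 * (d.p1 + d.p3 + d.m)) with b1 | a1
          · exact leaf36 h q1 q2 a1 b1 a2 b2
          · exact leaf35 h q1 q2 a1 b1 a2 b2
        · rcases le_total (d.al1 + d.be1) (11 / 50 * (d.p1 + d.p3 + d.m)) with b1 | a1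
          · rcases le_total (d.al2 + d.be2) (7 / 10 * (d.p2 + d.p4 + d.m)) with b2 | a2
            · exact leaf34 h q1 q2 a1 b1 a2 b2
            · rcases le_total (d.al1 + d.be1) (1 / 5 * (d.p1 + d.p3 + d.m)) with b1 | a1
              · exact leaf33 h q1 q2 a1 b1 a2 b2
              · exact leaf32 h q1 q2 a1 b1 a2 b2
          · rcases le_total (d.al1 + d.be1) (3 / 10 * (d.p1 + d.p3 + d.m)) with b1 | a1
            · rcases le_total (d.al2 + d.be2) (19 / 25 * (d.p2 + d.p4 + d.m)) with b2 | a2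
              · exact leaf31 h q1 q2 a1 b1 a2 b2
              · exact leaf30 h q1 q2 a1 b1 a2 b2
            · exact leaf29 h q1 q2 a1 b1 a2 b2
      · rcases le_total (d.al2 + d.be2) (17 / 50 * (d.p2 + d.p4 + d.m)) with b2 | a2
        · rcases le_total (d.al1 + d.be1) (27 / 50 * (d.p1 + d.p3 + d.m)) with b1 | a1
          · exact leaf28 h q1 q2 a1 b1 a2 b2
          · rcases le_total (d.al2 + d.be2) (11 / 50 * (d.p2 + d.p4 + d.m)) with b2 | a2
            · rcases le_total (d.al1 + d.be1) (39 / 50 * (d.p1 + d.p3 + d.m)) with b1 | a1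
              · exact leaf27 h q1 q2 a1 b1 a2 b2
              · exact leaf26 h q1 q2 a1 b1 a2 b2
            · rcases le_total (d.al2 + d.be2) (3 / 10 * (d.p2 + d.p4 + d.m)) with b2 | a2
              · rcases le_total (d.al1 + d.be1) (39 / 50 * (d.p1 + d.p3 + d.m)) with b1 | a1
                · exact leaf25 h q1 q2 a1 b1 a2 b2
                · exact leaf24 h q1 q2 a1 b1 a2 b2
              · exact leaf23 h q1 q2 a1 b1 a2 b2
        · rcases le_total (d.al1 + d.be1) (12 / 25 * (d.p1 + d.p3 + d.m)) with b1 | a1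
          · rcases le_total (d.al2 + d.be2) (27 / 50 * (d.p2 + d.p4 + d.m)) with b2 | a2
            · exact leaf22 h q1 q2 a1 b1 a2 b2
            · rcases le_total (d.al2 + d.be2) (43 / 50 * (d.p2 + d.p4 + d.m)) with b2 | a2
              · rcases le_total (d.al1 + d.be1) (21 / 50 * (d.p1 + d.p3 + d.m)) with b1 | a1
                · exact leaf21 h q1 q2 a1 b1 a2 b2
                · rcases le_total (d.al2 + d.be2) (7 / 10 * (d.p2 + d.p4 + d.m)) with b2 | a2
                  · exact leaf20 h q1 q2 a1 b1 a2 b2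
                  · rcases le_total (d.al1 + d.be1) (11 / 25 * (d.p1 + d.p3 + d.m)) with b1 | a1
                    · rcases le_total (d.al2 + d.be2) (19 / 25 * (d.p2 + d.p4 + d.m)) with b2 | a2
                      · exact leaf19 h q1 q2 a1 b1 a2 b2
                      · exact leaf18 h q1 q2 a1 b1 a2 b2
                    · exact leaf17 h q1 q2 a1 b1 a2 b2
              · exact leaf16 h q1 q2 a1 b1 a2 b2
          · rcases le_total (d.al2 + d.be2) (12 / 25 * (d.p2 + d.p4 + d.m)) with b2 | a2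
            · rcases le_total (d.al1 + d.be1) (17 / 25 * (d.p1 + d.p3 + d.m)) with b1 | a1
              · rcases le_total (d.al2 + d.be2) (11 / 25 * (d.p2 + d.p4 + d.m)) with b2 | a2
                · exact leaf15 h q1 q2 a1 b1 a2 b2
                · rcases le_total (d.al1 + d.be1) (27 / 50 * (d.p1 + d.p3 + d.m)) with b1 | a1
                  · exact leaf14 h q1 q2 a1 b1 a2 b2
                  · exact leaf13 h q1 q2 a1 b1 a2 b2
              · rcases le_total (d.al2 + d.be2) (21 / 50 * (d.p2 + d.p4 + d.m)) with b2 | a2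
                · exact leaf12 h q1 q2 a1 b1 a2 b2
                · rcases le_total (d.al1 + d.be1) (39 / 50 * (d.p1 + d.p3 + d.m)) with b1 | a1
                  · rcases le_total (d.al2 + d.be2) (11 / 25 * (d.p2 + d.p4 + d.m)) with b2 | a2
                    · exact leaf11 h q1 q2 a1 b1 a2 b2
                    · exact leaf10 h q1 q2 a1 b1 a2 b2
                  · exact leaf9 h q1 q2 a1 b1 a2 b2
            · rcases le_total (d.al1 + d.be1) (37 / 50 * (d.p1 + d.p3 + d.m)) with b1 | a1
              · rcases le_total (d.al2 + d.be2) (16 / 25 * (d.p2 + d.p4 + d.m)) with b2 | a2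
                · rcases le_total (d.al1 + d.be1) (14 / 25 * (d.p1 + d.p3 + d.m)) with b1 | a1
                  · rcases le_total (d.al2 + d.be2) (27 / 50 * (d.p2 + d.p4 + d.m)) with b2 | a2
                    · rcases le_total (d.al1 + d.be1) (1 / 2 * (d.p1 + d.p3 + d.m)) with b1 | a1
                      · exact leaf8 h q1 q2 a1 b1 a2 b2
                      · rcases le_total (d.al2 + d.be2) (13 / 25 * (d.p2 + d.p4 + d.m)) with b2 | a2
                        · rcases le_total (d.al1 + d.be1) (13 / 25 * (d.p1 + d.p3 + d.m)) with b1 | a1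
                          · exact leaf7 h q1 q2 a1 b1 a2 b2
                          · exact leaf6 h q1 q2 a1 b1 a2 b2
                        · exact leaf5 h q1 q2 a1 b1 a2 b2
                    · exact leaf4 h q1 q2 a1 b1 a2 b2
                  · exact leaf3 h q1 q2 a1 b1 a2 b2
                · exact leaf2 h q1 q2 a1 b1 a2 b2
              · rcases le_total (d.al2 + d.be2) (27 / 50 * (d.p2 + d.p4 + d.m)) with b2 | a2
                · exact leaf1 h q1 q2 a1 b1 a2 b2
                · exact leaf0 h q1 q2 a1 b1 a2 b2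

end Pool.Agent.Helper89.GP
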